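import Pool.Agent.H.MP_d7d3dc_an.h17.Base

/-!
MP_d7d3dc_an, upper bound for `D_m`: elementary Gaussian moment bounds.
-/

set_option autoImplicit false

namespace D7u

open D546neg MeasureTheory ProbabilityTheory Set
open scoped RealInnerProductSpace BigOperators

variable {m : ℕ}

lemma gb_law (x : E m) :
    (γ m).map (fun g => ⟪x, g⟫) = (gaussianReal 0 1).map (fun t => ‖x‖ * t) := by
  have h := IsGaussian.map_eq_gaussianReal (μ := γ m) (innerSL ℝ x)
  rw [integral_strongDual_stdGaussian, variance_dual_stdGaussian, innerSL_apply_norm] at h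
  have h2 := gaussianReal_map_const_mul (μ := 0) (v := 1) ‖x‖
  rw [show (fun g : E m => ⟪x, g⟫) = ⇑(innerSL ℝ x) from rfl, h, h2]
  congr 1
  · simp
  · rw [mul_one]
    ext
    simp

lemma gb_abs_gauss : ∫ t, |t| ∂(gaussianReal 0 1) = √(2 / Real.pi) := by
  rw [integral_gaussianReal_eq_integral_smul one_ne_zero]
  have h1 : ∀ t : ℝ, gaussianPDFReal 0 1 t • |t|
      = (fun s : ℝ => s * ((√(2 * Real.pi))⁻¹ * Real.exp (-(1 / 2) * s ^ 2))) |t| := by
    intro t
    simp only [gaussianPDFReal, smul_eq_mul, NNReal.coe_one, mul_one, sub_zero, sq_abs]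
    rw [mul_comm, show -t ^ 2 / 2 = -(1 / 2) * t ^ 2 by ring]
  rw [integral_congr_ae (Filter.Eventually.of_forall h1),
    integral_comp_abs (f := fun s : ℝ => s * ((√(2 * Real.pi))⁻¹ * Real.exp (-(1 / 2) * s ^ 2)))]
  have h2 : ∫ s in Ioi (0:ℝ), s * ((√(2 * Real.pi))⁻¹ * Real.exp (-(1 / 2) * s ^ 2))
      = (√(2 * Real.pi))⁻¹ * ∫ s in Ioi (0:ℝ), s ^ (1:ℝ) * Real.exp (-(1 / 2) * s ^ (2:ℝ)) := by
    rw [← integral_const_mul]
    refine integral_congr_ae (Filter.Eventually.of_forall fun s => ?_)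
    simp only [Real.rpow_one, Real.rpow_two]
    ring
  rw [h2, integral_rpow_mul_exp_neg_mul_rpow (by norm_num) (by norm_num) (by norm_num)]
  have h3 : ((1:ℝ) + 1) / 2 = 1 := by norm_num
  have h4 : (-((1:ℝ) + 1) / 2) = -1 := by norm_num
  rw [h3, h4, Real.Gamma_one, Real.rpow_neg_one]
  have hpi := Real.pi_pos
  have h5 : √(2 * Real.pi) * √(2 / Real.pi) = 2 := by
    rw [← Real.sqrt_mul (by positivity), show 2 * Real.pi * (2 / Real.pi) = 2 ^ 2 by
      field_simp, Real.sqrt_sq (by norm_num)]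
  have h6 : (0:ℝ) < √(2 * Real.pi) := by positivity
  field_simp
  linarith

lemma gb_int_abs (x : E m) : ∫ g, |⟪x, g⟫| ∂(γ m) = ‖x‖ * √(2 / Real.pi) := by
  have h1 : ∫ g, |⟪x, g⟫| ∂(γ m) = ∫ t, |t| ∂((γ m).map (fun g => ⟪x, g⟫)) := by
    rw [integral_map (by fun_prop) (by fun_prop)]
  rw [h1, gb_law, integral_map (by fun_prop) (by fun_prop)]
  simp_rw [abs_mul, abs_norm]
  rw [integral_const_mul, gb_abs_gauss]

lemma gb_integrable_sq (x : E m) : Integrable (fun g => ⟪x, g⟫ ^ 2) (γ m) := by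
  have h : MemLp (fun g => ⟪x, g⟫) 2 (γ m) := by
    have := IsGaussian.memLp_dual (γ m) (innerSL ℝ x) 2 (by norm_num)
    simpa using this
  exact h.integrable_sq

lemma gb_int_sq (x : E m) : ∫ g, ⟪x, g⟫ ^ 2 ∂(γ m) = ‖x‖ ^ 2 := by
  have h1 : ∫ g, ⟪x, g⟫ ^ 2 ∂(γ m) = ∫ t, t ^ 2 ∂((γ m).map (fun g => ⟪x, g⟫)) := by
    rw [integral_map (by fun_prop) (by fun_prop)]
  rw [h1, gb_law, integral_map (by fun_prop) (by fun_prop)]
  simp_rw [mul_pow]
  rw [integral_const_mul]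
  have h2 : ∫ t, t ^ 2 ∂(gaussianReal 0 1) = 1 := by
    have h3 := variance_fun_id_gaussianReal (μ := 0) (v := 1)
    rw [variance_eq_integral (by fun_prop)] at h3
    simpa [integral_id_gaussianReal] using h3
  rw [h2, mul_one]

theorem int_abs_inner_le (x : E m) : ∫ g, |⟪x, g⟫| ∂(γ m) ≤ ‖x‖ := by
  rw [gb_int_abs]
  have h1 : √(2 / Real.pi) ≤ 1 := by
    rw [Real.sqrt_le_left (by norm_num), one_pow, div_le_one Real.pi_pos]
    exact Real.two_le_pi
  exact mul_le_of_le_one_right (norm_nonneg _) h1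

theorem le_int_abs_inner (x : E m) : ‖x‖ / √3 ≤ ∫ g, |⟪x, g⟫| ∂(γ m) := by
  rw [gb_int_abs, div_eq_mul_inv, ← Real.sqrt_inv]
  refine mul_le_mul_of_nonneg_left (Real.sqrt_le_sqrt ?_) (norm_nonneg _)
  rw [le_div_iff₀ Real.pi_pos]
  have := Real.pi_le_four
  linarith

lemma gb_norm_sq (g : E m) : ∑ i, ⟪EuclideanSpace.single i (1:ℝ), g⟫ ^ 2 = ‖g‖ ^ 2 := by
  rw [EuclideanSpace.real_norm_sq_eq]
  refine Finset.sum_congr rfl fun i _ => ?_
  rw [EuclideanSpace.inner_single_left]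
  simp

lemma gb_integrable_norm_sq : Integrable (fun g : E m => ‖g‖ ^ 2) (γ m) := by
  simp_rw [← gb_norm_sq]
  exact integrable_finsetSum _ fun i _ => gb_integrable_sq _

lemma gb_int_norm_sq : ∫ g, ‖g‖ ^ 2 ∂(γ m) = m := by
  simp_rw [← gb_norm_sq]
  rw [integral_finsetSum _ fun i _ => gb_integrable_sq _]
  simp_rw [gb_int_sq]
  simp

lemma gb_integrable_norm : Integrable (fun g : E m => ‖g‖) (γ m) :=
  (IsGaussian.integrable_fun_id (μ := γ m)).norm

theorem int_norm_le : ∫ g, ‖g‖ ∂(γ m) ≤ √m := by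
  rcases Nat.eq_zero_or_pos m with rfl | hm
  · have h0 : ∀ g : E 0, ‖g‖ = 0 := fun g => by
      rw [norm_eq_zero]; exact Subsingleton.elim _ _
    simp_rw [h0]
    simp
  · have hs : (0:ℝ) < √m := by positivity
    have h1 : ∫ g, ‖g‖ ∂(γ m) ≤ ∫ g, ((2 * √m)⁻¹ * ‖g‖ ^ 2 + √m / 2) ∂(γ m) := by
      refine integral_mono gb_integrable_norm
        ((gb_integrable_norm_sq.const_mul _).add (integrable_const _)) fun g => ?_
      have h2 : 0 ≤ (‖g‖ - √m) ^ 2 := sq_nonneg _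
      have h3 : (2 * √m)⁻¹ * ‖g‖ ^ 2 + √m / 2 - ‖g‖ = (2 * √m)⁻¹ * (‖g‖ - √m) ^ 2 := by
        field_simp
        ring
      have h4 : 0 ≤ (2 * √m)⁻¹ * (‖g‖ - √m) ^ 2 := by positivity
      simp only
      linarith
    rw [integral_add (gb_integrable_norm_sq.const_mul _) (integrable_const _),
      integral_const_mul, gb_int_norm_sq] at h1
    have h5 : (2 * √m)⁻¹ * (m:ℝ) = √m / 2 := by
      have : (m:ℝ) = √m * √m := (Real.mul_self_sqrt (by positivity)).symm
      field_simp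
      rw [Real.sq_sqrt (by positivity)]
    rw [h5] at h1
    simpa using h1

theorem le_int_norm : √(m / 3) ≤ ∫ g, ‖g‖ ∂(γ m) := by
  rcases Nat.eq_zero_or_pos m with rfl | hm
  · simpa using integral_nonneg fun g : E 0 => norm_nonneg g
  · have hs : (0:ℝ) < √m := by positivity
    have h1 : ∀ g : E m, (√m)⁻¹ * ∑ i, |⟪EuclideanSpace.single i (1:ℝ), g⟫| ≤ ‖g‖ := by
      intro g
      have h2 : (∑ i : Fin m, |⟪EuclideanSpace.single i (1:ℝ), g⟫|) ^ 2 ≤ m * ‖g‖ ^ 2 := by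
        have := sq_sum_le_card_mul_sum_sq (s := (Finset.univ : Finset (Fin m)))
          (f := fun i => |⟪EuclideanSpace.single i (1:ℝ), g⟫|)
        simp only [sq_abs, Finset.card_univ, Fintype.card_fin] at this
        rwa [gb_norm_sq] at this
      have h3 : (∑ i : Fin m, |⟪EuclideanSpace.single i (1:ℝ), g⟫|) ≤ √m * ‖g‖ := by
        refine abs_le_of_sq_le_sq' ?_ (by positivity) |>.2
        rwa [mul_pow, Real.sq_sqrt (by positivity)]
      rw [inv_mul_le_iff₀ hs]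
      exact h3
    have hint : ∀ i : Fin m,
        Integrable (fun g => |⟪EuclideanSpace.single i (1:ℝ), g⟫|) (γ m) := fun i =>
      (integrable_inner _).abs
    have h4 : ∫ g, ((√m)⁻¹ * ∑ i, |⟪EuclideanSpace.single i (1:ℝ), g⟫|) ∂(γ m)
        ≤ ∫ g, ‖g‖ ∂(γ m) :=
      integral_mono ((integrable_finsetSum _ fun i _ => hint i).const_mul _)
        gb_integrable_norm h1
    rw [integral_const_mul, integral_finsetSum _ fun i _ => hint i] at h4
    refine le_trans ?_ h4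
    have h5 : ∑ _i : Fin m, (1 / √3) ≤
        ∑ i, ∫ g, |⟪EuclideanSpace.single i (1:ℝ), g⟫| ∂(γ m) := by
      refine Finset.sum_le_sum fun i _ => ?_
      have := le_int_abs_inner (EuclideanSpace.single i (1:ℝ) : E m)
      simpa using this
    have h6 : √((m:ℝ) / 3) = (√m)⁻¹ * ∑ _i : Fin m, (1 / √3) := by
      rw [Finset.sum_const, Finset.card_univ, Fintype.card_fin, nsmul_eq_mul,
        Real.sqrt_div (by positivity)]
      have : (m:ℝ) = √m * √m := (Real.mul_self_sqrt (by positivity)).symm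
      field_simp
      rw [Real.sq_sqrt (by positivity)]
    rw [h6]
    exact mul_le_mul_of_nonneg_left h5 (by positivity)

theorem seminorm_le_int (P : Seminorm ℝ (E m)) (x : E m) :
    P x ≤ √3 * (∫ g, P g ∂(γ m)) * ‖x‖ := by
  by_cases hx : x = 0
  · subst hx; simp
  have hn : 0 < ‖x‖ := norm_pos_iff.2 hx
  set R : E m ≃ₗᵢ[ℝ] E m := (ℝ ∙ x).reflection with hR
  have hRi : ∫ g, P (R g) ∂(γ m) = ∫ g, P g ∂(γ m) := by
    conv_rhs => rw [← gamma_map_isometry R]
    rw [integral_map R.continuous.aemeasurable]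
    exact (seminorm_continuous P).aestronglyMeasurable
  have hint : Integrable (fun g => P (R g)) (γ m) := by
    have := integrable_seminorm_comp P (R.toContinuousLinearEquiv : E m →L[ℝ] E m)
    simpa using this
  have h1 : ∀ g : E m, 2 * (|⟪x, g⟫| * (P x / ‖x‖ ^ 2)) ≤ P g + P (R g) := by
    intro g
    have h2 : g + R g = (2 * (⟪x, g⟫ / ‖x‖ ^ 2)) • x := by
      rw [hR, Submodule.reflection_apply, Submodule.starProjection_singleton]
      simp only [two_smul, mul_smul]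
      simp
    have h3 : P (g + R g) = 2 * (|⟪x, g⟫| * (P x / ‖x‖ ^ 2)) := by
      rw [h2, map_smul_eq_mul, Real.norm_eq_abs, abs_mul, abs_div, abs_of_pos (by positivity : (0:ℝ) < ‖x‖ ^ 2)]
      simp
      ring
    rw [← h3]
    exact map_add_le_add P _ _
  have h4 : ∫ g, 2 * (|⟪x, g⟫| * (P x / ‖x‖ ^ 2)) ∂(γ m) ≤ ∫ g, (P g + P (R g)) ∂(γ m) :=
    integral_mono (((integrable_inner x).abs.mul_const _).const_mul _)
      ((integrable_seminorm P).add hint) h1
  rw [integral_const_mul, integral_mul_const, integral_add (integrable_seminorm P) hint, hRi] at h4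
  have h5 := le_int_abs_inner x
  have h6 : 0 ≤ P x / ‖x‖ ^ 2 := div_nonneg (apply_nonneg _ _) (by positivity)
  have h7 : ‖x‖ / √3 * (P x / ‖x‖ ^ 2) ≤ ∫ g, P g ∂(γ m) := by
    have := mul_le_mul_of_nonneg_right h5 h6
    linarith
  have h8 : P x = √3 * (‖x‖ / √3 * (P x / ‖x‖ ^ 2)) * ‖x‖ := by
    field_simp
  rw [h8]
  exact mul_le_mul_of_nonneg_right (mul_le_mul_of_nonneg_left h7 (by positivity)) hn.le

end D7u
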