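import Pool.Agent.H.MP_d546a0_lc.neg.GaussBasics

/-!
MP_d7d3dc_an, upper bound for `D_m` (helper17): common definitions and basic lemmas.
-/

set_option autoImplicit false

namespace D7u

open D546neg MeasureTheory ProbabilityTheory
open scoped RealInnerProductSpace BigOperators

/-- the ell-norm of an operator: `E N(A g)`, `g` standard Gaussian. -/
noncomputable def ell {n : ℕ} (N : Seminorm ℝ (E n)) (A : E n →L[ℝ] E n) : ℝ :=
  ∫ g, N (A g) ∂(γ n)

/-- the diagonal operator `∑ c_i e_i ⊗ e_i` in an orthonormal basis. -/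
noncomputable def dg {n : ℕ} (e : OrthonormalBasis (Fin n) ℝ (E n)) (c : Fin n → ℝ) :
    E n →L[ℝ] E n :=
  ∑ i, c i • (innerSL ℝ (e i)).smulRight (e i)

/-- symmetric operators between `a` and `b`. -/
def KK (n : ℕ) (a b : ℝ) : Set (E n →L[ℝ] E n) :=
  {T | (∀ x y, ⟪T x, y⟫ = ⟪x, T y⟫) ∧
    ∀ x, a * ‖x‖ ^ 2 ≤ ⟪T x, x⟫ ∧ ⟪T x, x⟫ ≤ b * ‖x‖ ^ 2}

/-- the weights: `ω_i = ∑_j √(n / (1 + ∑_i' β_j(s_i'))) β_j(s_i)`. -/
noncomputable def om (n : ℕ) {J : ℕ} (β : Fin (J + 1) → ℝ → ℝ) (s : Fin n → ℝ) (i : Fin n) : ℝ :=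
  ∑ j, √(n / (1 + ∑ k, β j (s k))) * β j (s i)

section dg
variable {n : ℕ} (e : OrthonormalBasis (Fin n) ℝ (E n)) (c : Fin n → ℝ)

lemma dg_apply (x : E n) : dg e c x = ∑ i, (c i * ⟪e i, x⟫) • e i := by
  simp [dg, smul_smul]

lemma dg_basis (j : Fin n) : dg e c (e j) = c j • e j := by
  rw [dg_apply, Finset.sum_eq_single j]
  · simp
  · intro i _ hi
    rw [e.inner_eq_zero hi, mul_zero, zero_smul]
  · simp

lemma inner_dg (x : E n) (j : Fin n) : ⟪e j, dg e c x⟫ = c j * ⟪e j, x⟫ := by
  rw [dg_apply, inner_sum, Finset.sum_eq_single j]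
  · rw [real_inner_smul_right, e.inner_eq_one, mul_one]
  · intro i _ hi
    rw [real_inner_smul_right, e.inner_eq_zero (Ne.symm hi), mul_zero]
  · simp

lemma dg_symm (x y : E n) : ⟪dg e c x, y⟫ = ⟪x, dg e c y⟫ := by
  rw [dg_apply, dg_apply, sum_inner, inner_sum]
  refine Finset.sum_congr rfl fun i _ => ?_
  rw [real_inner_smul_left, real_inner_smul_right, real_inner_comm x (e i)]
  ring

lemma dg_inner_self (x : E n) : ⟪dg e c x, x⟫ = ∑ i, c i * ⟪e i, x⟫ ^ 2 := by
  rw [dg_apply, sum_inner]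
  refine Finset.sum_congr rfl fun i _ => ?_
  rw [real_inner_smul_left]
  ring

lemma sum_inner_sq (x : E n) : ∑ i, ⟪e i, x⟫ ^ 2 = ‖x‖ ^ 2 := by
  have := e.sum_sq_norm_inner_right x
  simpa using this

lemma ext_basis {A B : E n →L[ℝ] E n} (h : ∀ i, A (e i) = B (e i)) : A = B := by
  have h1 : (A : E n →ₗ[ℝ] E n) = (B : E n →ₗ[ℝ] E n) := by
    refine e.toBasis.ext fun i => ?_
    simpa using h i
  ext1 x
  exact congrArg (fun L : E n →ₗ[ℝ] E n => L x) h1

lemma dg_mem_KK {a b : ℝ} (h : ∀ i, a ≤ c i ∧ c i ≤ b) : dg e c ∈ KK n a b := by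
  refine ⟨dg_symm e c, fun x => ?_⟩
  rw [dg_inner_self, ← sum_inner_sq e, Finset.mul_sum, Finset.mul_sum]
  exact ⟨Finset.sum_le_sum fun i _ => mul_le_mul_of_nonneg_right (h i).1 (sq_nonneg _),
    Finset.sum_le_sum fun i _ => mul_le_mul_of_nonneg_right (h i).2 (sq_nonneg _)⟩

/-- the trace in an orthonormal basis. -/
lemma trace_eq (A : E n →L[ℝ] E n) :
    LinearMap.trace ℝ (E n) (A : E n →ₗ[ℝ] E n) = ∑ i, ⟪e i, A (e i)⟫ := by
  rw [LinearMap.trace_eq_sum_inner _ e]
  rfl

end dg

section ell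
variable {n : ℕ} (N : Seminorm ℝ (E n))

lemma ell_nonneg (A : E n →L[ℝ] E n) : 0 ≤ ell N A := integral_nonneg fun _ => apply_nonneg _ _

lemma ell_add_le (A B : E n →L[ℝ] E n) : ell N (A + B) ≤ ell N A + ell N B := by
  unfold ell
  rw [← integral_add (integrable_seminorm_comp N A) (integrable_seminorm_comp N B)]
  exact integral_mono (integrable_seminorm_comp N _)
    ((integrable_seminorm_comp N A).add (integrable_seminorm_comp N B)) fun g =>
      map_add_le_add N (A g) (B g)

lemma ell_smul (c : ℝ) (A : E n →L[ℝ] E n) : ell N (c • A) = |c| * ell N A := by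
  unfold ell
  rw [← integral_const_mul]
  refine integral_congr_ae (Filter.Eventually.of_forall fun g => ?_)
  simp [map_smul_eq_mul]

lemma ell_neg (A : E n →L[ℝ] E n) : ell N (-A) = ell N A := by
  unfold ell
  refine integral_congr_ae (Filter.Eventually.of_forall fun g => ?_)
  simp

lemma ell_sub_le (A B : E n →L[ℝ] E n) : ell N A - ell N B ≤ ell N (A - B) := by
  have := ell_add_le N (A - B) B
  rw [sub_add_cancel] at this
  linarith

lemma ell_convexOn : ConvexOn ℝ Set.univ (ell N) := by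
  refine ⟨convex_univ, fun A _ B _ s t hs ht _ => ?_⟩
  refine (ell_add_le N _ _).trans ?_
  rw [ell_smul, ell_smul, abs_of_nonneg hs, abs_of_nonneg ht, smul_eq_mul, smul_eq_mul]

/-- a Lipschitz bound. -/
lemma ell_le_norm : ∃ d > 0, ∀ A : E n →L[ℝ] E n, ell N A ≤ d * ‖A‖ := by
  obtain ⟨d, hd, h⟩ := seminorm_le_norm N
  have h0 : Integrable (fun g : E n => g) (γ n) := IsGaussian.integrable_fun_id
  have hi : 0 ≤ ∫ g, ‖g‖ ∂(γ n) := integral_nonneg fun _ => norm_nonneg _
  refine ⟨d * (∫ g, ‖g‖ ∂(γ n)) + 1, by positivity, fun A => ?_⟩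
  have h1 : ell N A ≤ ∫ g, (d * ‖A‖) * ‖g‖ ∂(γ n) := by
    refine integral_mono (integrable_seminorm_comp N A) (h0.norm.const_mul _) fun g => ?_
    refine (h _).trans ?_
    rw [mul_assoc]
    exact mul_le_mul_of_nonneg_left (A.le_opNorm g) hd.le
  rw [integral_const_mul] at h1
  have := norm_nonneg A
  nlinarith

lemma ell_continuous : Continuous (ell N) := by
  obtain ⟨d, hd, h⟩ := ell_le_norm N
  have hL : LipschitzWith ⟨d, hd.le⟩ (ell N) := by
    refine LipschitzWith.of_dist_le_mul fun A B => ?_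
    rw [Real.dist_eq, dist_eq_norm]
    refine abs_le'.2 ⟨(ell_sub_le N A B).trans (h _), ?_⟩
    rw [neg_sub, norm_sub_rev]
    exact (ell_sub_le N B A).trans (h _)
  exact hL.continuous

/-- rotation invariance of the Gaussian measure. -/
lemma gamma_map_isometry (R : E n ≃ₗᵢ[ℝ] E n) : (γ n).map R = γ n :=
  stdGaussian_map R

/-- rotation invariance of the ell-norm. -/
lemma ell_comp_isometry (A : E n →L[ℝ] E n) (R : E n ≃ₗᵢ[ℝ] E n) :
    ∫ g, N (A (R g)) ∂(γ n) = ell N A := by
  unfold ell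
  conv_rhs => rw [← gamma_map_isometry R]
  rw [integral_map R.continuous.aemeasurable]
  exact ((seminorm_continuous N).comp A.continuous).aestronglyMeasurable

/-- a seminorm on sums with coefficients in `[-1,1]` is bounded by the maximum over signs. -/
lemma seminorm_cube_le {V : Type*} [AddCommGroup V] [Module ℝ V] (P : Seminorm ℝ V)
    {ι : Type*} (S : Finset ι) (v : ι → V) (M : ℝ)
    (h : ∀ ε : ι → ℝ, (∀ i, ε i = 1 ∨ ε i = -1) → P (∑ i ∈ S, ε i • v i) ≤ M)
    (c : ι → ℝ) (hc : ∀ i, |c i| ≤ 1) : P (∑ i ∈ S, c i • v i) ≤ M := by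
  classical
  -- change the coordinates in a subset one after the other
  have key : ∀ (U : Finset ι), ∀ c : ι → ℝ, (∀ i, |c i| ≤ 1) →
      (∀ i, i ∉ U → (c i = 1 ∨ c i = -1)) → P (∑ i ∈ S, c i • v i) ≤ M := by
    intro U
    induction U using Finset.induction_on with
    | empty => intro c _ h1; exact h c fun i => h1 i (by simp)
    | insert a U ha ih =>
      intro c hc h1
      have e1 : ∀ t : ℝ, |t| ≤ 1 → ∀ i, |Function.update c a t i| ≤ 1 := by
        intro t ht i
        by_cases hi : i = a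
        · subst hi; simpa using ht
        · simpa [hi] using hc i
      have e2 : ∀ t : ℝ, (t = 1 ∨ t = -1) → ∀ i, i ∉ U →
          (Function.update c a t i = 1 ∨ Function.update c a t i = -1) := by
        intro t ht i hi
        by_cases hia : i = a
        · subst hia; simpa using ht
        · simpa [hia] using h1 i (by simp [hia, hi])
      have h2 := ih (Function.update c a 1) (e1 1 (by simp)) (e2 1 (Or.inl rfl))
      have h3 := ih (Function.update c a (-1)) (e1 (-1) (by simp)) (e2 (-1) (Or.inr rfl))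
      have h4 : ∑ i ∈ S, c i • v i = ((1 + c a) / 2) • (∑ i ∈ S, Function.update c a 1 i • v i)
          + ((1 - c a) / 2) • (∑ i ∈ S, Function.update c a (-1) i • v i) := by
        rw [Finset.smul_sum, Finset.smul_sum, ← Finset.sum_add_distrib]
        refine Finset.sum_congr rfl fun i _ => ?_
        rw [smul_smul, smul_smul, ← add_smul]
        congr 1
        by_cases hi : i = a
        · subst hi; simp only [Function.update_self]; ring
        · simp only [Function.update_of_ne hi]; ring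
      have h5 := abs_le.1 (hc a)
      rw [h4]
      refine (map_add_le_add P _ _).trans ?_
      rw [map_smul_eq_mul, map_smul_eq_mul, Real.norm_of_nonneg (by linarith),
        Real.norm_of_nonneg (by linarith)]
      nlinarith
  classical
  -- outside `S` the coefficients do not matter
  have h6 : ∑ i ∈ S, c i • v i = ∑ i ∈ S, (if i ∈ S then c i else 1) • v i := by
    refine Finset.sum_congr rfl fun i hi => ?_
    rw [if_pos hi]
  rw [h6]
  refine key S _ (fun i => ?_) fun i hi => ?_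
  · split_ifs
    · exact hc i
    · simp
  · rw [if_neg hi]; exact Or.inl rfl

end ell

end D7u
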