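import Mathlib

/-!
MP_d7d3dc_an, upper bound for `D_m`: no C^1 retraction, part b (volume and interpolation).
-/

set_option autoImplicit false

namespace D7u

open Metric MeasureTheory Set

/-- change of variables. -/
theorem retr_volume (d : ℕ) (V : Set (EuclideanSpace ℝ (Fin d))) (hV : IsOpen V)
    (hB : closedBall (0 : EuclideanSpace ℝ (Fin d)) 1 ⊆ V)
    (r : EuclideanSpace ℝ (Fin d) → EuclideanSpace ℝ (Fin d)) (hr : ContDiffOn ℝ 1 r V) (t : ℝ)
    (h3 : InjOn (fun x => x + t • (r x - x)) (ball 0 1))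
    (h4 : (fun x => x + t • (r x - x)) '' ball 0 1 = ball 0 1)
    (h5 : ∀ x ∈ ball (0 : EuclideanSpace ℝ (Fin d)) 1,
        0 < (ContinuousLinearMap.id ℝ (EuclideanSpace ℝ (Fin d)) +
          t • (fderiv ℝ r x - ContinuousLinearMap.id ℝ (EuclideanSpace ℝ (Fin d)))).det) :
    ∫ x in ball (0 : EuclideanSpace ℝ (Fin d)) 1,
      (ContinuousLinearMap.id ℝ (EuclideanSpace ℝ (Fin d)) +
          t • (fderiv ℝ r x - ContinuousLinearMap.id ℝ (EuclideanSpace ℝ (Fin d)))).det
      = (volume (ball (0 : EuclideanSpace ℝ (Fin d)) 1)).toReal := by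
  have hd : ∀ x ∈ ball (0 : EuclideanSpace ℝ (Fin d)) 1,
      HasFDerivWithinAt (fun x => x + t • (r x - x))
        (ContinuousLinearMap.id ℝ (EuclideanSpace ℝ (Fin d)) +
          t • (fderiv ℝ r x - ContinuousLinearMap.id ℝ (EuclideanSpace ℝ (Fin d))))
        (ball 0 1) x := by
    intro x hx
    have hxV : x ∈ V := hB (ball_subset_closedBall hx)
    have h1 : DifferentiableAt ℝ r x :=
      (hr.contDiffAt (hV.mem_nhds hxV)).differentiableAt (by simp)
    have h2 : HasFDerivAt r (fderiv ℝ r x) x := h1.hasFDerivAt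
    exact ((hasFDerivAt_id x).add ((h2.sub (hasFDerivAt_id x)).const_smul t)).hasFDerivWithinAt
  have key := integral_image_eq_integral_abs_det_fderiv_smul (μ := volume)
    (s := ball (0 : EuclideanSpace ℝ (Fin d)) 1) measurableSet_ball hd h3 (fun _ => (1 : ℝ))
  rw [h4] at key
  have h6 : ∫ x in ball (0 : EuclideanSpace ℝ (Fin d)) 1, (1 : ℝ)
      = (volume (ball (0 : EuclideanSpace ℝ (Fin d)) 1)).toReal := by
    simp [Measure.real]
  rw [← h6, key]
  refine setIntegral_congr_fun measurableSet_ball fun x hx => ?_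
  have := h5 x hx
  simp only [smul_eq_mul, mul_one]
  rw [abs_of_pos this]

/-- Lagrange interpolation for `det (1 + t M)`. -/
theorem det_interp (d : ℕ) (t₀ : ℝ) (ht₀ : 0 < t₀) : ∃ t c : Fin (d + 1) → ℝ,
    (∀ i, 0 ≤ t i ∧ t i ≤ t₀) ∧ ∑ i, c i = 1 ∧
    ∀ M : EuclideanSpace ℝ (Fin d) →L[ℝ] EuclideanSpace ℝ (Fin d),
      (ContinuousLinearMap.id ℝ (EuclideanSpace ℝ (Fin d)) + M).det =
        ∑ i, c i * (ContinuousLinearMap.id ℝ (EuclideanSpace ℝ (Fin d)) + t i • M).det := by
  classical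
  let t : Fin (d + 1) → ℝ := fun i => t₀ * ((i : ℕ) / (d + 1 : ℝ))
  have htinj : Function.Injective t := by
    intro i j hij
    have h1 : ((i : ℕ) / (d + 1 : ℝ)) = ((j : ℕ) / (d + 1 : ℝ)) :=
      mul_left_cancel₀ ht₀.ne' hij
    have hpos : (0 : ℝ) < (d : ℝ) + 1 := by positivity
    have h2 : ((i : ℕ) : ℝ) = ((j : ℕ) : ℝ) := by
      field_simp at h1
      exact h1
    exact Fin.ext (by exact_mod_cast h2)
  have hinj : Set.InjOn t ((Finset.univ : Finset (Fin (d + 1))) : Set (Fin (d + 1))) :=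
    htinj.injOn
  refine ⟨t, fun i => (Lagrange.basis Finset.univ t i).eval 1, fun i => ⟨by positivity, ?_⟩, ?_,
    fun M => ?_⟩
  · have h1 : ((i : ℕ) / (d + 1 : ℝ)) ≤ 1 := by
      rw [div_le_one (by positivity)]
      have : (i : ℕ) < d + 1 := i.2
      exact_mod_cast this.le
    calc t i = t₀ * ((i : ℕ) / (d + 1 : ℝ)) := rfl
      _ ≤ t₀ * 1 := by gcongr
      _ = t₀ := mul_one _
  · have h1 := Lagrange.sum_basis (s := (Finset.univ : Finset (Fin (d + 1)))) hinj
      Finset.univ_nonempty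
    have h2 := congrArg (Polynomial.eval 1) h1
    rw [Polynomial.eval_finsetSum, Polynomial.eval_one] at h2
    exact h2
  · let b := (EuclideanSpace.basisFun (Fin d) ℝ).toBasis
    let A : Matrix (Fin d) (Fin d) ℝ := LinearMap.toMatrix b b (M : _ →ₗ[ℝ] _)
    let p : Polynomial ℝ := Matrix.det ((Polynomial.X : Polynomial ℝ) • A.map Polynomial.C +
      (1 : Matrix (Fin d) (Fin d) ℝ).map Polynomial.C)
    have hp : ∀ s : ℝ, (ContinuousLinearMap.id ℝ (EuclideanSpace ℝ (Fin d)) + s • M).det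
        = p.eval s := by
      intro s
      have h1 : p.eval s = ((Polynomial.evalRingHom s).mapMatrix
          ((Polynomial.X : Polynomial ℝ) • A.map Polynomial.C +
            (1 : Matrix (Fin d) (Fin d) ℝ).map Polynomial.C)).det := by
        rw [← RingHom.map_det]
        rfl
      rw [h1, ContinuousLinearMap.det, ← LinearMap.det_toMatrix b]
      congr 1
      have h2 : (((ContinuousLinearMap.id ℝ (EuclideanSpace ℝ (Fin d)) + s • M :
          EuclideanSpace ℝ (Fin d) →L[ℝ] EuclideanSpace ℝ (Fin d))) :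
            EuclideanSpace ℝ (Fin d) →ₗ[ℝ] EuclideanSpace ℝ (Fin d))
          = LinearMap.id + s • (M : EuclideanSpace ℝ (Fin d) →ₗ[ℝ] EuclideanSpace ℝ (Fin d)) := by
        ext x
        simp
      rw [h2, map_add, map_smul, LinearMap.toMatrix_id]
      ext i j
      simp only [Matrix.add_apply, Matrix.smul_apply, RingHom.mapMatrix_apply, Matrix.map_apply,
        smul_eq_mul, map_add, Polynomial.coe_evalRingHom, Polynomial.eval_C, A]
      rw [Polynomial.eval_mul, Polynomial.eval_X, Polynomial.eval_C]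
      ring
    have hdeg : p.degree < ((Finset.univ : Finset (Fin (d + 1))).card : WithBot ℕ) := by
      have h1 := Polynomial.natDegree_det_X_add_C_le A (1 : Matrix (Fin d) (Fin d) ℝ)
      rw [Fintype.card_fin] at h1
      rw [Finset.card_univ, Fintype.card_fin]
      exact lt_of_le_of_lt (Polynomial.degree_le_of_natDegree_le h1) (by exact_mod_cast Nat.lt_succ_self d)
    have h1 := Lagrange.eq_interpolate (f := p) hinj hdeg
    have h2 := congrArg (Polynomial.eval 1) h1
    have h3 := hp 1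
    rw [one_smul] at h3
    rw [h3, h2, Lagrange.interpolate_apply, Polynomial.eval_finsetSum]
    refine Finset.sum_congr rfl fun i _ => ?_
    rw [Polynomial.eval_mul, Polynomial.eval_C, hp (t i), mul_comm]

end D7u
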