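import Pool.Agent.H.MP_d7d3dc_an.h17.Br1a
import Pool.Agent.H.MP_d7d3dc_an.h17.Br1b

/-!
MP_d7d3dc_an, upper bound for `D_m`: no C^1 retraction of the ball onto the sphere.
-/

set_option autoImplicit false

namespace D7u

open Metric MeasureTheory Set

/-- There is no C^1 retraction of the closed unit ball onto the unit sphere. -/
theorem no_C1_retraction (d : ℕ) (V : Set (EuclideanSpace ℝ (Fin d))) (hV : IsOpen V)
    (hB : closedBall (0 : EuclideanSpace ℝ (Fin d)) 1 ⊆ V)
    (r : EuclideanSpace ℝ (Fin d) → EuclideanSpace ℝ (Fin d)) (hr : ContDiffOn ℝ 1 r V)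
    (h1 : ∀ x, ‖x‖ ≤ 1 → ‖r x‖ = 1) (h2 : ∀ x, ‖x‖ = 1 → r x = x) : False := by
  obtain ⟨t₀, ht₀, himg⟩ := retr_image d V hV hB r hr h1 h2
  obtain ⟨t, c, ht, hc, hM⟩ := det_interp d t₀ ht₀
  have hcont : ContinuousOn (fderiv ℝ r) V :=
    hr.continuousOn_fderiv_of_isOpen hV le_rfl
  have hcont' : ContinuousOn (fderiv ℝ r) (closedBall 0 1) := hcont.mono hB
  have hdet : Continuous (fun A : EuclideanSpace ℝ (Fin d) →L[ℝ] EuclideanSpace ℝ (Fin d) =>
      A.det) := ContinuousLinearMap.continuous_det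
  have hint : ∀ i, IntegrableOn (fun x => c i *
      (ContinuousLinearMap.id ℝ (EuclideanSpace ℝ (Fin d)) + t i •
        (fderiv ℝ r x - ContinuousLinearMap.id ℝ (EuclideanSpace ℝ (Fin d)))).det)
      (ball (0 : EuclideanSpace ℝ (Fin d)) 1) := by
    intro i
    refine IntegrableOn.mono_set (t := closedBall 0 1) ?_ ball_subset_closedBall
    refine ContinuousOn.integrableOn_compact (isCompact_closedBall 0 1) ?_
    refine continuousOn_const.mul ?_
    refine hdet.comp_continuousOn ?_
    have hc1 : ContinuousOn (fun x => fderiv ℝ r x -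
        ContinuousLinearMap.id ℝ (EuclideanSpace ℝ (Fin d))) (closedBall 0 1) :=
      ContinuousOn.sub hcont' continuousOn_const
    have hc2 : ContinuousOn (fun x => t i • (fderiv ℝ r x -
        ContinuousLinearMap.id ℝ (EuclideanSpace ℝ (Fin d)))) (closedBall 0 1) :=
      hc1.const_smul (t i)
    exact ContinuousOn.add continuousOn_const hc2
  have hkey : ∫ x in ball (0 : EuclideanSpace ℝ (Fin d)) 1, (fderiv ℝ r x).det
      = (volume (ball (0 : EuclideanSpace ℝ (Fin d)) 1)).toReal := by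
    have e1 : ∀ x, (fderiv ℝ r x).det = ∑ i, c i *
        (ContinuousLinearMap.id ℝ (EuclideanSpace ℝ (Fin d)) + t i •
          (fderiv ℝ r x - ContinuousLinearMap.id ℝ (EuclideanSpace ℝ (Fin d)))).det := by
      intro x
      rw [← hM, add_sub_cancel]
    simp_rw [e1]
    rw [integral_finsetSum _ (fun i _ => hint i)]
    have e2 : ∀ i, ∫ x in ball (0 : EuclideanSpace ℝ (Fin d)) 1, c i *
        (ContinuousLinearMap.id ℝ (EuclideanSpace ℝ (Fin d)) + t i •
          (fderiv ℝ r x - ContinuousLinearMap.id ℝ (EuclideanSpace ℝ (Fin d)))).det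
        = c i * (volume (ball (0 : EuclideanSpace ℝ (Fin d)) 1)).toReal := by
      intro i
      rw [integral_const_mul]
      obtain ⟨a1, a2, a3⟩ := himg (t i) (ht i).1 (ht i).2
      rw [retr_volume d V hV hB r hr (t i) a1 a2 a3]
    rw [Finset.sum_congr rfl (fun i _ => e2 i), ← Finset.sum_mul, hc, one_mul]
  have hzero : ∀ x ∈ ball (0 : EuclideanSpace ℝ (Fin d)) 1, (fderiv ℝ r x).det = 0 := by
    intro x hx
    by_contra hne
    have hxV : x ∈ V := hB (ball_subset_closedBall hx)
    have hdiff : DifferentiableAt ℝ r x :=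
      (hr.contDiffAt (hV.mem_nhds hxV)).differentiableAt (by norm_num)
    have hconst : (fun y => inner ℝ (r y) (r y)) =ᶠ[nhds x] fun _ => (1 : ℝ) := by
      filter_upwards [isOpen_ball.mem_nhds hx] with y hy
      have hy' : ‖y‖ ≤ 1 := by
        have := mem_ball_zero_iff.1 hy
        exact this.le
      rw [real_inner_self_eq_norm_sq, h1 y hy']
      norm_num
    have hd : HasFDerivAt (fun y => inner ℝ (r y) (r y)) (0 : EuclideanSpace ℝ (Fin d) →L[ℝ] ℝ) x :=
      (hasFDerivAt_const (1 : ℝ) x).congr_of_eventuallyEq hconst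
    have hd2 := hdiff.hasFDerivAt.inner ℝ hdiff.hasFDerivAt
    have heq := hd2.unique hd
    let L : EuclideanSpace ℝ (Fin d) ≃L[ℝ] EuclideanSpace ℝ (Fin d) :=
      (fderiv ℝ r x).toContinuousLinearEquivOfDetNeZero hne
    have hL : fderiv ℝ r x (L.symm (r x)) = r x := by
      have h := L.apply_symm_apply (r x)
      have h' : (L : EuclideanSpace ℝ (Fin d) → EuclideanSpace ℝ (Fin d)) = fderiv ℝ r x := by
        ext v
        simp [L]
      rw [h'] at h
      exact h
    have h3 := congrArg (fun A : EuclideanSpace ℝ (Fin d) →L[ℝ] ℝ => A (L.symm (r x))) heq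
    simp only [ContinuousLinearMap.comp_apply, ContinuousLinearMap.prod_apply,
      fderivInnerCLM_apply, hL, zero_apply, real_inner_self_eq_norm_sq] at h3
    have hx' : ‖x‖ ≤ 1 := (mem_ball_zero_iff.1 hx).le
    rw [h1 x hx'] at h3
    norm_num at h3
  have h0 : ∫ x in ball (0 : EuclideanSpace ℝ (Fin d)) 1, (fderiv ℝ r x).det = 0 := by
    rw [setIntegral_congr_fun measurableSet_ball hzero]
    simp
  rw [h0] at hkey
  have hpos : 0 < (volume (ball (0 : EuclideanSpace ℝ (Fin d)) 1)).toReal :=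
    ENNReal.toReal_pos (measure_ball_pos volume _ one_pos).ne' measure_ball_lt_top.ne
  linarith

end D7u
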