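import Mathlib

/-!
MP_d7d3dc_an, upper bound for `D_m`: no C^1 retraction, part a (the homotopy).
-/

set_option autoImplicit false

namespace D7u

open Metric MeasureTheory Set

/-- for small `t` the map `x + t (r x - x)` is a bijection of the open ball. -/
theorem retr_image (d : ℕ) (V : Set (EuclideanSpace ℝ (Fin d))) (hV : IsOpen V)
    (hB : closedBall (0 : EuclideanSpace ℝ (Fin d)) 1 ⊆ V)
    (r : EuclideanSpace ℝ (Fin d) → EuclideanSpace ℝ (Fin d)) (hr : ContDiffOn ℝ 1 r V)
    (h1 : ∀ x, ‖x‖ ≤ 1 → ‖r x‖ = 1) (h2 : ∀ x, ‖x‖ = 1 → r x = x) :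
    ∃ t₀ : ℝ, 0 < t₀ ∧ ∀ t : ℝ, 0 ≤ t → t ≤ t₀ →
      InjOn (fun x => x + t • (r x - x)) (ball 0 1) ∧
      (fun x => x + t • (r x - x)) '' ball 0 1 = ball 0 1 ∧
      ∀ x ∈ ball (0 : EuclideanSpace ℝ (Fin d)) 1,
        0 < (ContinuousLinearMap.id ℝ (EuclideanSpace ℝ (Fin d)) +
          t • (fderiv ℝ r x - ContinuousLinearMap.id ℝ (EuclideanSpace ℝ (Fin d)))).det := by
  classical
  have hcda : ∀ x ∈ V, ContDiffAt ℝ 1 r x := fun x hx => hr.contDiffAt (hV.mem_nhds hx)
  have hdiff : ∀ x ∈ V, DifferentiableAt ℝ r x :=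
    fun x hx => (hcda x hx).differentiableAt (by norm_num)
  have hcont : ContinuousOn (fderiv ℝ r) V := hr.continuousOn_fderiv_of_isOpen hV le_rfl
  have hcontB : ContinuousOn (fun x => fderiv ℝ r x -
      ContinuousLinearMap.id ℝ (EuclideanSpace ℝ (Fin d))) (closedBall 0 1) :=
    (hcont.mono hB).sub continuousOn_const
  obtain ⟨C0, hC0⟩ := (isCompact_closedBall (0 : EuclideanSpace ℝ (Fin d)) 1).exists_bound_of_continuousOn
    hcontB
  set C : ℝ := max C0 1 with hCdef
  have hCpos : 0 < C := lt_of_lt_of_le one_pos (le_max_right _ _)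
  have hC : ∀ x ∈ closedBall (0 : EuclideanSpace ℝ (Fin d)) 1, ‖fderiv ℝ r x -
      ContinuousLinearMap.id ℝ (EuclideanSpace ℝ (Fin d))‖ ≤ C :=
    fun x hx => (hC0 x hx).trans (le_max_left _ _)
  -- the Lipschitz bound
  have hlip : ∀ x ∈ closedBall (0 : EuclideanSpace ℝ (Fin d)) 1,
      ∀ y ∈ closedBall (0 : EuclideanSpace ℝ (Fin d)) 1,
      ‖(r y - y) - (r x - x)‖ ≤ C * ‖y - x‖ := by
    intro x hx y hy
    have hs : Convex ℝ (closedBall (0 : EuclideanSpace ℝ (Fin d)) 1) := convex_closedBall 0 1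
    exact hs.norm_image_sub_le_of_norm_hasFDerivWithin_le
      (f := fun z => r z - z) (f' := fun z => fderiv ℝ r z -
        ContinuousLinearMap.id ℝ (EuclideanSpace ℝ (Fin d)))
      (fun z hz => (((hdiff z (hB hz)).hasFDerivAt).sub (hasFDerivAt_id z)).hasFDerivWithinAt)
      hC hx hy
  -- the determinant
  have hdet : ∃ δ : ℝ, 0 < δ ∧ ∀ A : EuclideanSpace ℝ (Fin d) →L[ℝ] EuclideanSpace ℝ (Fin d),
      ‖A‖ < δ → 0 < (ContinuousLinearMap.id ℝ (EuclideanSpace ℝ (Fin d)) + A).det := by
    have hc : Continuous (fun A : EuclideanSpace ℝ (Fin d) →L[ℝ] EuclideanSpace ℝ (Fin d) =>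
        (ContinuousLinearMap.id ℝ (EuclideanSpace ℝ (Fin d)) + A).det) :=
      ContinuousLinearMap.continuous_det.comp (continuous_const.add continuous_id)
    have h0 : (ContinuousLinearMap.id ℝ (EuclideanSpace ℝ (Fin d)) + 0).det = 1 := by
      simp [ContinuousLinearMap.det]
    have hev : ∀ᶠ A in nhds (0 : EuclideanSpace ℝ (Fin d) →L[ℝ] EuclideanSpace ℝ (Fin d)),
        0 < (ContinuousLinearMap.id ℝ (EuclideanSpace ℝ (Fin d)) + A).det := by
      have ht := hc.tendsto (0 : EuclideanSpace ℝ (Fin d) →L[ℝ] EuclideanSpace ℝ (Fin d))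
      rw [h0] at ht
      exact ht.eventually (lt_mem_nhds one_pos)
    obtain ⟨δ, hδ, hball⟩ := Metric.eventually_nhds_iff.mp hev
    exact ⟨δ, hδ, fun A hA => hball (by simpa using hA)⟩
  obtain ⟨δ, hδ, hdet⟩ := hdet
  refine ⟨min (1 / 2) (min (1 / (2 * C)) (δ / (2 * C))), by positivity, ?_⟩
  intro t ht0 ht
  have ht1 : t < 1 := by
    have := ht.trans (min_le_left _ _)
    linarith
  have htC : t * C < 1 := by
    have h := ht.trans ((min_le_right _ _).trans (min_le_left _ _))
    have h' : t * C ≤ 1 / (2 * C) * C := mul_le_mul_of_nonneg_right h hCpos.le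
    have h'' : 1 / (2 * C) * C = 1 / 2 := by field_simp
    linarith
  have htδ : t * C < δ := by
    have h := ht.trans ((min_le_right _ _).trans (min_le_right _ _))
    have h' : t * C ≤ δ / (2 * C) * C := mul_le_mul_of_nonneg_right h hCpos.le
    have h'' : δ / (2 * C) * C = δ / 2 := by field_simp
    linarith
  have hpos : ∀ x ∈ closedBall (0 : EuclideanSpace ℝ (Fin d)) 1,
        0 < (ContinuousLinearMap.id ℝ (EuclideanSpace ℝ (Fin d)) +
          t • (fderiv ℝ r x - ContinuousLinearMap.id ℝ (EuclideanSpace ℝ (Fin d)))).det := by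
    intro x hx
    apply hdet
    rw [norm_smul, Real.norm_of_nonneg ht0]
    exact lt_of_le_of_lt (mul_le_mul_of_nonneg_left (hC x hx) ht0) htδ
  have hsub : ball (0 : EuclideanSpace ℝ (Fin d)) 1 ⊆ closedBall 0 1 := ball_subset_closedBall
  refine ⟨?_, ?_, fun x hx => hpos x (hsub hx)⟩
  · intro x hx y hy hxy
    have hxy' : x + t • (r x - x) = y + t • (r y - y) := hxy
    have h3 : y - x = - (t • ((r y - y) - (r x - x))) := by
      have : y - x = t • (r x - x) - t • (r y - y) := by
        rw [sub_eq_sub_iff_add_eq_add, ← hxy']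
        abel
      rw [this, ← smul_sub, ← smul_neg, neg_sub]
    have h4 : ‖y - x‖ ≤ t * C * ‖y - x‖ := by
      calc ‖y - x‖ = t * ‖(r y - y) - (r x - x)‖ := by
            conv_lhs => rw [h3]
            rw [norm_neg, norm_smul, Real.norm_of_nonneg ht0]
        _ ≤ t * (C * ‖y - x‖) :=
            mul_le_mul_of_nonneg_left (hlip x (hsub hx) y (hsub hy)) ht0
        _ = t * C * ‖y - x‖ := by ring
    have h5 : ‖y - x‖ ≤ 0 := by
      by_contra hneg
      push Not at hneg
      nlinarith
    have h6 : y - x = 0 := norm_le_zero_iff.mp h5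
    exact (sub_eq_zero.mp h6).symm
  · set f : EuclideanSpace ℝ (Fin d) → EuclideanSpace ℝ (Fin d) :=
      fun x => x + t • (r x - x) with hf
    have hmaps : f '' ball 0 1 ⊆ ball 0 1 := by
      rintro y ⟨x, hx, rfl⟩
      rw [mem_ball_zero_iff] at hx ⊢
      have h3 : f x = (1 - t) • x + t • r x := by
        simp only [hf, smul_sub, sub_smul, one_smul]
        abel
      rw [h3]
      calc ‖(1 - t) • x + t • r x‖ ≤ ‖(1 - t) • x‖ + ‖t • r x‖ := norm_add_le _ _
        _ = (1 - t) * ‖x‖ + t * 1 := by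
            rw [norm_smul, norm_smul, Real.norm_of_nonneg ht0,
              Real.norm_of_nonneg (by linarith : (0 : ℝ) ≤ 1 - t), h1 x hx.le]
        _ < 1 := by nlinarith
    have hfc : ContinuousOn f (closedBall 0 1) := by
      have hrc : ContinuousOn r (closedBall 0 1) := hr.continuousOn.mono hB
      exact continuousOn_id.add ((hrc.sub continuousOn_id).const_smul t)
    have hopen : IsOpen (f '' ball 0 1) := by
      rw [isOpen_iff_mem_nhds]
      rintro y ⟨x, hx, rfl⟩
      have hxB := hsub hx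
      have hst : HasStrictFDerivAt r (fderiv ℝ r x) x :=
        (hcda x (hB hxB)).hasStrictFDerivAt (by norm_num)
      have hst2 : HasStrictFDerivAt f (ContinuousLinearMap.id ℝ (EuclideanSpace ℝ (Fin d)) +
          t • (fderiv ℝ r x - ContinuousLinearMap.id ℝ (EuclideanSpace ℝ (Fin d)))) x :=
        (hasStrictFDerivAt_id x).add ((hst.sub (hasStrictFDerivAt_id x)).const_smul t)
      have hne := (hpos x hxB).ne'
      set A := ContinuousLinearMap.toContinuousLinearEquivOfDetNeZero _ hne with hA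
      have hst3 : HasStrictFDerivAt f (A : EuclideanSpace ℝ (Fin d) →L[ℝ]
          EuclideanSpace ℝ (Fin d)) x := by
        rw [hA, ContinuousLinearMap.coe_toContinuousLinearEquivOfDetNeZero]
        exact hst2
      rw [← hst3.map_nhds_eq_of_equiv]
      exact Filter.image_mem_map (isOpen_ball.mem_nhds hx)
    have hcl : IsClosed (f '' closedBall 0 1) :=
      ((isCompact_closedBall _ _).image_of_continuousOn hfc).isClosed
    have hcover : ball (0 : EuclideanSpace ℝ (Fin d)) 1 ⊆
        f '' ball 0 1 ∪ (f '' closedBall 0 1)ᶜ := by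
      intro y hy
      by_cases hyc : y ∈ f '' closedBall 0 1
      · left
        obtain ⟨x, hx, hxy⟩ := hyc
        rw [mem_closedBall_zero_iff] at hx
        rcases lt_or_eq_of_le hx with h | h
        · exact ⟨x, mem_ball_zero_iff.mpr h, hxy⟩
        · exfalso
          have : f x = x := by simp [hf, h2 x h]
          rw [mem_ball_zero_iff, ← hxy, this, h] at hy
          exact lt_irrefl _ hy
      · right
        exact hyc
    have hdisj : Disjoint (f '' ball 0 1) (f '' closedBall 0 1)ᶜ := by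
      rw [disjoint_compl_right_iff_subset]
      exact image_mono hsub
    apply Subset.antisymm hmaps
    have hpc : IsPreconnected (ball (0 : EuclideanSpace ℝ (Fin d)) 1) :=
      (convex_ball 0 1).isPreconnected
    refine hpc.subset_left_of_subset_union hopen hcl.isOpen_compl hdisj hcover ?_
    have h0 : (0 : EuclideanSpace ℝ (Fin d)) ∈ ball (0 : EuclideanSpace ℝ (Fin d)) 1 := by simp
    exact ⟨f 0, hmaps ⟨0, h0, rfl⟩, ⟨0, h0, rfl⟩⟩

end D7u
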