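import Pool.Agent.H.MP_d7d3dc_an.h17.Br1

/-!
MP_d7d3dc_an, upper bound for `D_m`: Brouwer's fixed point theorem for C^1 maps of the ball.
-/

set_option autoImplicit false

namespace D7u

open Metric MeasureTheory Set

open scoped RealInnerProductSpace in
private lemma br2_alg (p q n D s : ℝ) (hq : q ≠ 0) (hs : s ^ 2 = D)
    (hD : D = p ^ 2 + q * (1 - n)) :
    n + 2 * ((-p + s) / q) * p + ((-p + s) / q) ^ 2 * q = 1 := by
  field_simp
  nlinarith [hs, hD]

open scoped RealInnerProductSpace in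
theorem brouwer_C1 (d : ℕ) (f : EuclideanSpace ℝ (Fin d) → EuclideanSpace ℝ (Fin d))
    (hf : ContDiff ℝ 1 f) (hm : ∀ x, ‖x‖ ≤ 1 → ‖f x‖ ≤ 1) : ∃ x, ‖x‖ ≤ 1 ∧ f x = x := by
  by_contra hcon
  push Not at hcon
  set u : EuclideanSpace ℝ (Fin d) → EuclideanSpace ℝ (Fin d) := fun x => x - f x with hu
  set D : EuclideanSpace ℝ (Fin d) → ℝ :=
    fun x => ⟪x, u x⟫ ^ 2 + ‖u x‖ ^ 2 * (1 - ‖x‖ ^ 2) with hDdef
  set l : EuclideanSpace ℝ (Fin d) → ℝ :=
    fun x => (-⟪x, u x⟫ + √(D x)) / ‖u x‖ ^ 2 with hl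
  have hucd : ContDiff ℝ 1 u := contDiff_id.sub hf
  have hDcd : ContDiff ℝ 1 D := by
    refine ContDiff.add ?_ ?_
    · exact (contDiff_id.inner ℝ hucd).pow 2
    · exact (hucd.norm_sq ℝ).mul (contDiff_const.sub (contDiff_id.norm_sq ℝ))
  set V : Set (EuclideanSpace ℝ (Fin d)) := {x | u x ≠ 0 ∧ 0 < D x} with hVdef
  have hV : IsOpen V := by
    have h1 : IsOpen {x | u x ≠ 0} := isOpen_ne_fun hucd.continuous continuous_const
    have h2 : IsOpen {x | 0 < D x} := isOpen_lt continuous_const hDcd.continuous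
    exact h1.inter h2
  have hu0 : ∀ x, ‖x‖ ≤ 1 → u x ≠ 0 := by
    intro x hx h0
    exact hcon x hx (sub_eq_zero.mp h0).symm
  have hp : ∀ x, ‖x‖ = 1 → 0 < ⟪x, u x⟫ := by
    intro x hx
    have h1 : ⟪x, u x⟫ = 1 - ⟪x, f x⟫ := by
      simp only [hu, inner_sub_right, real_inner_self_eq_norm_sq, hx]
      norm_num
    have h2 : 0 < ‖u x‖ ^ 2 := by
      have := norm_pos_iff.mpr (hu0 x hx.le)
      positivity
    have h3 : ‖u x‖ ^ 2 = 1 - 2 * ⟪x, f x⟫ + ‖f x‖ ^ 2 := by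
      simp only [hu]
      rw [norm_sub_sq_real, hx]
      norm_num
    have h4 : ‖f x‖ ^ 2 ≤ 1 := by
      have := hm x hx.le
      have h5 := norm_nonneg (f x)
      nlinarith
    linarith
  have hDpos : ∀ x, ‖x‖ ≤ 1 → 0 < D x := by
    intro x hx
    rcases hx.lt_or_eq with h | h
    · have h1 : 0 < ‖u x‖ := norm_pos_iff.mpr (hu0 x hx)
      have h2 : 0 < 1 - ‖x‖ ^ 2 := by
        have := norm_nonneg x
        nlinarith
      have h3 : 0 < ‖u x‖ ^ 2 * (1 - ‖x‖ ^ 2) := by positivity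
      simp only [hDdef]
      nlinarith [sq_nonneg ⟪x, u x⟫]
    · have h1 := hp x h
      simp only [hDdef]
      rw [h]
      nlinarith [sq_nonneg ⟪x, u x⟫]
  have hB : closedBall (0 : EuclideanSpace ℝ (Fin d)) 1 ⊆ V := by
    intro x hx
    have hx1 : ‖x‖ ≤ 1 := by simpa using hx
    exact ⟨hu0 x hx1, hDpos x hx1⟩
  refine no_C1_retraction d V hV hB (fun x => x + l x • u x) ?_ ?_ ?_
  · have hlu : ContDiffOn ℝ 1 l V → ContDiffOn ℝ 1 (fun x => x + l x • u x) V := fun h =>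
      contDiff_id.contDiffOn.add (h.smul hucd.contDiffOn)
    apply hlu
    simp only [hl]
    refine ContDiffOn.div ?_ (hucd.norm_sq ℝ).contDiffOn ?_
    · refine ContDiffOn.add ?_ ?_
      · exact (contDiff_id.inner ℝ hucd).neg.contDiffOn
      · exact hDcd.contDiffOn.sqrt fun x hx => hx.2.ne'
    · intro x hx
      have := norm_pos_iff.mpr hx.1
      positivity
  · intro x hx
    have hu1 := norm_pos_iff.mpr (hu0 x hx)
    have hq : ‖u x‖ ^ 2 ≠ 0 := by positivity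
    have h1 : ‖x + l x • u x‖ ^ 2 = 1 := by
      rw [norm_add_sq_real, real_inner_smul_right, norm_smul, mul_pow, Real.norm_eq_abs, sq_abs]
      have := br2_alg ⟪x, u x⟫ (‖u x‖ ^ 2) (‖x‖ ^ 2) (D x) (√(D x)) hq
        (Real.sq_sqrt (hDpos x hx).le) rfl
      simp only [hl]
      linarith
    have h2 : 0 ≤ ‖x + l x • u x‖ := norm_nonneg _
    nlinarith
  · intro x hx
    have h1 : √(D x) = ⟪x, u x⟫ := by
      have : D x = ⟪x, u x⟫ ^ 2 := by
        simp only [hDdef]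
        rw [hx]
        ring
      rw [this, Real.sqrt_sq (hp x hx).le]
    have h2 : l x = 0 := by
      simp only [hl]
      rw [h1]
      simp
    show x + l x • u x = x
    rw [h2, zero_smul, add_zero]

end D7u
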