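import Pool.Agent.H.MP_d7d3dc_an.h17.Br2

/-!
MP_d7d3dc_an, upper bound for `D_m`: Brouwer's fixed point theorem for the ball.
-/

set_option autoImplicit false

namespace D7u

open Metric MeasureTheory Set

/-- restrictions of C^1 functions to the closed ball -/
private noncomputable def Br3_alg (d : ℕ) :
    Subalgebra ℝ C(closedBall (0 : EuclideanSpace ℝ (Fin d)) 1, ℝ) where
  carrier := {g | ∃ p : EuclideanSpace ℝ (Fin d) → ℝ, ContDiff ℝ 1 p ∧
    ∀ x : closedBall (0 : EuclideanSpace ℝ (Fin d)) 1, g x = p x}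
  mul_mem' := by
    rintro a b ⟨p, hp, hp'⟩ ⟨q, hq, hq'⟩
    exact ⟨fun x => p x * q x, hp.mul hq, fun x => by simp [hp', hq']⟩
  add_mem' := by
    rintro a b ⟨p, hp, hp'⟩ ⟨q, hq, hq'⟩
    exact ⟨fun x => p x + q x, hp.add hq, fun x => by simp [hp', hq']⟩
  algebraMap_mem' := by
    intro c
    exact ⟨fun _ => c, contDiff_const, fun x => by simp⟩

private theorem Br3_sep (d : ℕ) : (Br3_alg d).SeparatesPoints := by
  intro x y hxy
  have hne : (x : EuclideanSpace ℝ (Fin d)) ≠ y := fun h => hxy (Subtype.ext h)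
  have : ∃ i, (x : EuclideanSpace ℝ (Fin d)) i ≠ (y : EuclideanSpace ℝ (Fin d)) i := by
    by_contra hcon
    push Not at hcon
    exact hne (by ext i; exact hcon i)
  obtain ⟨i, hi⟩ := this
  have hcd : ContDiff ℝ 1 (fun z : EuclideanSpace ℝ (Fin d) => z i) :=
    (EuclideanSpace.proj i : EuclideanSpace ℝ (Fin d) →L[ℝ] ℝ).contDiff
  refine ⟨fun z : closedBall (0 : EuclideanSpace ℝ (Fin d)) 1 =>
    (z : EuclideanSpace ℝ (Fin d)) i, ⟨⟨fun z => (z : EuclideanSpace ℝ (Fin d)) i,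
      hcd.continuous.comp continuous_subtype_val⟩, ?_, rfl⟩, hi⟩
  exact ⟨fun z => z i, hcd, fun z => rfl⟩

private theorem Br3_approx (d : ℕ) (f : EuclideanSpace ℝ (Fin d) → EuclideanSpace ℝ (Fin d))
    (hf : ContinuousOn f (closedBall 0 1)) (ε : ℝ) (hε : 0 < ε) :
    ∃ p : EuclideanSpace ℝ (Fin d) → EuclideanSpace ℝ (Fin d), ContDiff ℝ 1 p ∧
      ∀ x, ‖x‖ ≤ 1 → ‖p x - f x‖ ≤ ε := by
  have hε' : 0 < ε / (d + 1) := by positivity
  have key : ∀ i : Fin d, ∃ p : EuclideanSpace ℝ (Fin d) → ℝ, ContDiff ℝ 1 p ∧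
      ∀ x, ‖x‖ ≤ 1 → |p x - f x i| ≤ ε / (d + 1) := by
    intro i
    have hc : Continuous (fun z : closedBall (0 : EuclideanSpace ℝ (Fin d)) 1 => f z i) := by
      have h1 : Continuous (fun z : closedBall (0 : EuclideanSpace ℝ (Fin d)) 1 => f z) :=
        continuousOn_iff_continuous_domRestrict.1 hf
      exact (EuclideanSpace.proj i : EuclideanSpace ℝ (Fin d) →L[ℝ] ℝ).continuous.comp h1
    have : CompactSpace (closedBall (0 : EuclideanSpace ℝ (Fin d)) 1) :=
      isCompact_iff_compactSpace.1 (isCompact_closedBall 0 1)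
    obtain ⟨⟨g, p, hp, hgp⟩, hg⟩ :=
      ContinuousMap.exists_mem_subalgebra_near_continuous_of_separatesPoints (Br3_alg d)
        (Br3_sep d) _ hc _ hε'
    refine ⟨p, hp, fun x hx => ?_⟩
    have h2 := hg ⟨x, mem_closedBall_zero_iff.2 hx⟩
    rw [Real.norm_eq_abs] at h2
    have h3 := hgp ⟨x, mem_closedBall_zero_iff.2 hx⟩
    simp only at h2 h3
    rw [h3] at h2
    exact h2.le
  choose p hp hpf using key
  refine ⟨fun x => WithLp.toLp 2 fun i => p i x, ?_, fun x hx => ?_⟩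
  · exact (contDiff_euclidean (𝕜 := ℝ)).2 fun i => hp i
  · have h1 : ‖(WithLp.toLp 2 (fun i => p i x) : EuclideanSpace ℝ (Fin d)) - f x‖ ≤
        ∑ i : Fin d, |p i x - f x i| := by
      rw [EuclideanSpace.norm_eq]
      have h2 : ∑ i : Fin d, ‖((WithLp.toLp 2 (fun i => p i x) : EuclideanSpace ℝ (Fin d)) -
          f x) i‖ ^ 2 ≤ (∑ i : Fin d, |p i x - f x i|) ^ 2 := by
        have := Finset.sum_sq_le_sq_sum_of_nonneg (s := Finset.univ)
          (f := fun i : Fin d => |p i x - f x i|) (fun i _ => abs_nonneg _)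
        simpa [Real.norm_eq_abs] using this
      calc Real.sqrt _ ≤ Real.sqrt ((∑ i : Fin d, |p i x - f x i|) ^ 2) := Real.sqrt_le_sqrt h2
        _ = _ := Real.sqrt_sq (Finset.sum_nonneg fun i _ => abs_nonneg _)
    refine h1.trans ?_
    calc ∑ i : Fin d, |p i x - f x i| ≤ ∑ _i : Fin d, ε / (d + 1) :=
          Finset.sum_le_sum fun i _ => hpf i x hx
      _ = d * (ε / (d + 1)) := by simp
      _ ≤ ε := by
          rw [mul_div_assoc', div_le_iff₀ (by positivity)]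
          nlinarith

theorem brouwer_ball (d : ℕ) (f : EuclideanSpace ℝ (Fin d) → EuclideanSpace ℝ (Fin d))
    (hf : ContinuousOn f (closedBall 0 1)) (hm : ∀ x, ‖x‖ ≤ 1 → ‖f x‖ ≤ 1) :
    ∃ x, ‖x‖ ≤ 1 ∧ f x = x := by
  have hcont : ContinuousOn (fun x => ‖f x - x‖) (closedBall 0 1) :=
    (hf.sub continuousOn_id).norm
  obtain ⟨x, hx, hmin⟩ := (isCompact_closedBall (0 : EuclideanSpace ℝ (Fin d)) 1).exists_isMinOn
    ⟨0, mem_closedBall_self zero_le_one⟩ hcont
  have hx1 : ‖x‖ ≤ 1 := mem_closedBall_zero_iff.1 hx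
  refine ⟨x, hx1, ?_⟩
  have hle : ∀ ε : ℝ, 0 < ε → ‖f x - x‖ ≤ 0 + ε := by
    intro ε hε
    obtain ⟨p, hp, hpf⟩ := Br3_approx d f hf (ε / 2) (half_pos hε)
    have hpos : 0 < 1 + ε / 2 := by positivity
    obtain ⟨y, hy, hqy⟩ := brouwer_C1 d (fun z => (1 + ε / 2)⁻¹ • p z)
      (hp.const_smul _) (fun z hz => by
        rw [norm_smul, norm_inv, Real.norm_of_nonneg hpos.le, inv_mul_le_iff₀ hpos]
        calc ‖p z‖ = ‖(p z - f z) + f z‖ := by rw [sub_add_cancel]
          _ ≤ ‖p z - f z‖ + ‖f z‖ := norm_add_le _ _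
          _ ≤ ε / 2 + 1 := add_le_add (hpf z hz) (hm z hz)
          _ = (1 + ε / 2) * 1 := by ring)
    have hpy : p y = (1 + ε / 2) • y := by
      have h5 : (1 + ε / 2) • ((1 + ε / 2)⁻¹ • p y) = (1 + ε / 2) • y := by rw [hqy]
      rwa [smul_smul, mul_inv_cancel₀ hpos.ne', one_smul] at h5
    have h6 : ‖f x - x‖ ≤ ‖f y - y‖ := hmin (mem_closedBall_zero_iff.2 hy)
    have h7 : ‖f y - y‖ ≤ ε := by
      calc ‖f y - y‖ = ‖-(p y - f y) + (p y - y)‖ := by congr 1; abel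
        _ ≤ ‖-(p y - f y)‖ + ‖p y - y‖ := norm_add_le _ _
        _ ≤ ε / 2 + ε / 2 := by
            refine add_le_add (by rw [norm_neg]; exact hpf y hy) ?_
            have : p y - y = (ε / 2) • y := by
              rw [hpy, add_smul, one_smul]; abel
            rw [this, norm_smul, Real.norm_of_nonneg (by positivity)]
            nlinarith
        _ = ε := by ring
    linarith
  have h0 : ‖f x - x‖ ≤ 0 := le_of_forall_pos_le_add hle
  exact sub_eq_zero.1 (norm_le_zero_iff.1 h0)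

end D7u
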