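import Pool.Agent.H.MP_d7d3dc_an.h17.Br3

/-!
MP_d7d3dc_an, upper bound for `D_m`: Brouwer's fixed point theorem for compact convex sets.
-/

set_option autoImplicit false

namespace D7u

open Metric MeasureTheory Set

open scoped RealInnerProductSpace in
private lemma br4_proj {d : ℕ} (K : Set (EuclideanSpace ℝ (Fin d))) (hK : IsCompact K)
    (hc : Convex ℝ K) (hne : K.Nonempty) :
    ∃ π : EuclideanSpace ℝ (Fin d) → EuclideanSpace ℝ (Fin d),
      Continuous π ∧ (∀ x, π x ∈ K) ∧ ∀ x ∈ K, π x = x := by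
  have h := fun x => exists_norm_eq_iInf_of_complete_convex hne hK.isComplete hc x
  choose π hπK hπ using h
  have hchar : ∀ x, ∀ w ∈ K, ⟪x - π x, w - π x⟫ ≤ 0 := fun x =>
    (norm_eq_iInf_iff_real_inner_le_zero hc (hπK x)).mp (hπ x)
  refine ⟨π, ?_, hπK, ?_⟩
  · have hL : LipschitzWith 1 π := by
      refine LipschitzWith.of_dist_le_mul fun x y => ?_
      rw [dist_eq_norm, dist_eq_norm, NNReal.coe_one, one_mul]
      have h1 := hchar x (π y) (hπK y)
      have h2 := hchar y (π x) (hπK x)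
      have h3 : ‖π x - π y‖ ^ 2 ≤ ⟪x - y, π x - π y⟫ := by
        rw [← real_inner_self_eq_norm_sq]
        have e1 : ⟪x - π x, π y - π x⟫ = -⟪x, π x - π y⟫ + ⟪π x, π x - π y⟫ := by
          simp only [inner_sub_left, inner_sub_right]; ring
        have e2 : ⟪y - π y, π x - π y⟫ = ⟪y, π x - π y⟫ - ⟪π y, π x - π y⟫ := inner_sub_left _ _ _
        rw [inner_sub_left (π x) (π y), inner_sub_left x y]
        linarith
      have h4 : ⟪x - y, π x - π y⟫ ≤ ‖x - y‖ * ‖π x - π y‖ := real_inner_le_norm _ _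
      by_contra hcon
      push Not at hcon
      have h5 := norm_nonneg (x - y)
      nlinarith
    exact hL.continuous
  · intro x hx
    have h1 := hchar x x hx
    rw [real_inner_self_eq_norm_sq] at h1
    have h2 : ‖x - π x‖ = 0 := by
      have := norm_nonneg (x - π x)
      nlinarith
    exact (sub_eq_zero.mp (norm_eq_zero.mp h2)).symm

private lemma br4_euclid {d : ℕ} (K : Set (EuclideanSpace ℝ (Fin d))) (hK : IsCompact K)
    (hc : Convex ℝ K) (hne : K.Nonempty)
    (f : EuclideanSpace ℝ (Fin d) → EuclideanSpace ℝ (Fin d)) (hf : ContinuousOn f K)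
    (hm : MapsTo f K K) : ∃ x ∈ K, f x = x := by
  obtain ⟨π, hπc, hπK, hπ⟩ := br4_proj K hK hc hne
  obtain ⟨R, hR0, hR⟩ : ∃ R : ℝ, 0 < R ∧ ∀ x ∈ K, ‖x‖ ≤ R := by
    obtain ⟨R, hR⟩ := hK.isBounded.exists_norm_le
    exact ⟨max R 1, lt_of_lt_of_le one_pos (le_max_right _ _),
      fun x hx => (hR x hx).trans (le_max_left _ _)⟩
  obtain ⟨x, hx1, hx⟩ := brouwer_ball d (fun x => R⁻¹ • f (π (R • x))) (by
    refine Continuous.continuousOn ?_
    have h1 : Continuous fun x : EuclideanSpace ℝ (Fin d) => f (π (R • x)) := by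
      have h2 : Continuous fun x : EuclideanSpace ℝ (Fin d) => π (R • x) :=
        hπc.comp (continuous_id.const_smul R)
      rw [← continuousOn_univ]
      exact hf.comp h2.continuousOn fun x _ => hπK _
    exact h1.const_smul R⁻¹) (by
    intro x hx
    rw [norm_smul, norm_inv, Real.norm_eq_abs, abs_of_pos hR0]
    have h1 := hR _ (hm (hπK (R • x)))
    rw [inv_mul_le_iff₀ hR0]
    linarith)
  have h1 : f (π (R • x)) = R • x := by
    have h2 : R • (R⁻¹ • f (π (R • x))) = R • x := congrArg (fun y => R • y) hx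
    rwa [smul_smul, mul_inv_cancel₀ hR0.ne', one_smul] at h2
  have h2 : R • x ∈ K := h1 ▸ hm (hπK _)
  refine ⟨R • x, h2, ?_⟩
  rwa [hπ _ h2] at h1

theorem brouwer_convex {V : Type*} [NormedAddCommGroup V] [NormedSpace ℝ V]
    [FiniteDimensional ℝ V] (K : Set V) (hK : IsCompact K) (hc : Convex ℝ K) (hne : K.Nonempty)
    (f : V → V) (hf : ContinuousOn f K) (hm : MapsTo f K K) : ∃ x ∈ K, f x = x := by
  let e : V ≃L[ℝ] EuclideanSpace ℝ (Fin (Module.finrank ℝ V)) := toEuclidean
  have hc' : Convex ℝ (e '' K) := hc.linear_image e.toLinearEquiv.toLinearMap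
  obtain ⟨y, ⟨x, hx, rfl⟩, hy⟩ := br4_euclid (e '' K) (hK.image e.continuous) hc' (hne.image _)
    (fun y => e (f (e.symm y))) (by
      refine e.continuous.comp_continuousOn (hf.comp e.symm.continuous.continuousOn ?_)
      rintro _ ⟨x, hx, rfl⟩
      simpa using hx) (by
      rintro _ ⟨x, hx, rfl⟩
      refine ⟨f x, hm hx, ?_⟩
      simp)
  refine ⟨x, hx, ?_⟩
  have h1 : e (f x) = e x := by simpa using hy
  exact e.injective h1

end D7u
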