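import Pool.Agent.H.MP_d7d3dc_an.McGregor
import Pool.Agent.H.MP_d7d3dc_an.h17.Base

/-!
MP_d7d3dc_an, upper bound for `D_m`: the spaces `l_1`-sum of cubes have numerical index `1`.
-/

set_option autoImplicit false

namespace D7u

open Pool.Agent.H.MP_d7d3dc_an
open scoped ENNReal BigOperators

/-- the `l_1`-sum of the cubes `l_∞^{β⁻¹(b)}`. -/
abbrev CL {n : ℕ} (β : Fin n → Fin n) : Type :=
  PiLp 1 (fun b : Fin n => ({i : Fin n // β i = b} → ℝ))

theorem CL_finrank {n : ℕ} (β : Fin n → Fin n) : Module.finrank ℝ (CL β) = n := by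
  classical
  rw [(WithLp.linearEquiv 1 ℝ (∀ b : Fin n, ({i : Fin n // β i = b} → ℝ))).finrank_eq,
    Module.finrank_pi_fintype]
  simp only [Module.finrank_fintype_fun_eq_card]
  rw [← Fintype.card_sigma, Fintype.card_congr (Equiv.sigmaFiberEquiv β), Fintype.card_fin]

/-- on a cube, a norming functional which takes the values `±1` at all sign vectors. -/
private theorem CL_exists_functional {ι : Type} [Fintype ι] (w : ι → ℝ) :
    ∃ φ : (ι → ℝ) →L[ℝ] ℝ, (∀ v, |φ v| ≤ ‖v‖) ∧ φ w = ‖w‖ ∧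
      (Nonempty ι → ∀ e : ι → ℝ, (∀ i, e i = 1 ∨ e i = -1) → φ e = 1 ∨ φ e = -1) := by
  rcases isEmpty_or_nonempty ι with h | h
  · refine ⟨0, fun v => by simp, ?_, fun h' => ?_⟩
    · have : w = 0 := Subsingleton.elim _ _
      rw [this]; simp
    · exact absurd h' (not_nonempty_iff.2 h)
  · obtain ⟨i, hi⟩ := Finite.exists_max fun i => |w i|
    have hw : ‖w‖ = |w i| := by
      refine le_antisymm ?_ ?_
      · exact (pi_norm_le_iff_of_nonneg (abs_nonneg _)).2 fun j => hi j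
      · exact norm_le_pi_norm w i
    rcases le_total 0 (w i) with h0 | h0
    · refine ⟨ContinuousLinearMap.proj i, fun v => norm_le_pi_norm v i, ?_, fun _ e he => ?_⟩
      · rw [hw, abs_of_nonneg h0]; rfl
      · exact he i
    · refine ⟨-ContinuousLinearMap.proj i, fun v => ?_, ?_, fun _ e he => ?_⟩
      · have := norm_le_pi_norm v i
        simpa using this
      · rw [hw, abs_of_nonpos h0]; rfl
      · rcases he i with h1 | h1
        · right
          simp [h1]
        · left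
          simp [h1]

/-- the vector with one given block. -/
private noncomputable def CL_single {n : ℕ} (β : Fin n → Fin n) (b : Fin n)
    (v : {i : Fin n // β i = b} → ℝ) : CL β := WithLp.toLp 1 (Pi.single b v)

private theorem CL_norm_single {n : ℕ} (β : Fin n → Fin n) (b : Fin n)
    (v : {i : Fin n // β i = b} → ℝ) : ‖CL_single β b v‖ = ‖v‖ := by
  unfold CL_single
  exact PiLp.norm_toLp_single 1 (fun b : Fin n => ({i : Fin n // β i = b} → ℝ)) b v

private theorem CL_sum_single {n : ℕ} (β : Fin n → Fin n) (y : CL β) :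
    y = ∑ b, CL_single β b (y b) := by
  unfold CL_single
  refine PiLp.ext fun c => ?_
  have h1 : (∑ b, WithLp.toLp 1 (Pi.single b (y b)) : CL β) =
      WithLp.toLp 1 (∑ b, Pi.single b (y b) : ∀ b : Fin n, ({i : Fin n // β i = b} → ℝ)) := by
    rw [WithLp.toLp_sum]
  rw [h1, PiLp.toLp_apply, Finset.univ_sum_single]

private noncomputable def CL_lin {n : ℕ} (β : Fin n → Fin n) (b : Fin n) :
    ({i : Fin n // β i = b} → ℝ) →ₗ[ℝ] CL β :=
  (WithLp.linearEquiv 1 ℝ (∀ b : Fin n, ({i : Fin n // β i = b} → ℝ))).symm.toLinearMap ∘ₗ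
    LinearMap.single ℝ (fun b : Fin n => ({i : Fin n // β i = b} → ℝ)) b

private theorem CL_lin_apply {n : ℕ} (β : Fin n → Fin n) (b : Fin n)
    (v : {i : Fin n // β i = b} → ℝ) : CL_lin β b v = CL_single β b v := rfl

private theorem CL_block_bound {n : ℕ} (β : Fin n → Fin n) (T : CL β →L[ℝ] CL β) (b : Fin n)
    {c : ℝ} (hc : ∀ e : {i : Fin n // β i = b} → ℝ, (∀ i, e i = 1 ∨ e i = -1) →
      ‖T (CL_single β b e)‖ ≤ c) (v : {i : Fin n // β i = b} → ℝ) :
    ‖T (CL_single β b v)‖ ≤ c * ‖v‖ := by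
  classical
  set P : Seminorm ℝ ({i : Fin n // β i = b} → ℝ) :=
    (normSeminorm ℝ (CL β)).comp ((T : CL β →ₗ[ℝ] CL β) ∘ₗ CL_lin β b) with hP
  have hPv : ∀ v, P v = ‖T (CL_single β b v)‖ := fun v => rfl
  have hsum : ∀ v : {i : Fin n // β i = b} → ℝ,
      ∑ i, v i • (Pi.single i (1 : ℝ) : {i : Fin n // β i = b} → ℝ) = v := by
    intro v
    ext j
    simp [Finset.sum_apply, Pi.single_apply]
  have h1 : ∀ v : {i : Fin n // β i = b} → ℝ, (∀ i, |v i| ≤ 1) → P v ≤ c := by
    intro v hv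
    have := seminorm_cube_le P Finset.univ
      (fun i => (Pi.single i (1 : ℝ) : {i : Fin n // β i = b} → ℝ)) c
      (fun e he => by rw [hsum, hPv]; exact hc e he) v hv
    rwa [hsum] at this
  rcases eq_or_ne v 0 with h0 | h0
  · subst h0
    rw [← hPv]; simp
  · have hn : 0 < ‖v‖ := norm_pos_iff.2 h0
    have h2 := h1 (‖v‖⁻¹ • v) fun i => by
      rw [Pi.smul_apply, smul_eq_mul, abs_mul, abs_of_pos (inv_pos.2 hn)]
      have := norm_le_pi_norm v i
      rw [Real.norm_eq_abs] at this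
      rw [inv_mul_le_iff₀ hn, mul_one]
      exact this
    rw [map_smul_eq_mul, Real.norm_of_nonneg (inv_pos.2 hn).le, inv_mul_le_iff₀ hn] at h2
    rw [← hPv, mul_comm]
    exact h2

private theorem CL_exists_vertex {n : ℕ} (hn : 1 ≤ n) (β : Fin n → Fin n)
    (T : CL β →L[ℝ] CL β) (hT : ‖T‖ = 1) :
    ∃ (b : Fin n) (e : {i : Fin n // β i = b} → ℝ), Nonempty {i : Fin n // β i = b} ∧
      (∀ i, e i = 1 ∨ e i = -1) ∧ ‖T (CL_single β b e)‖ = 1 := by
  classical
  have : Nonempty (Fin n) := ⟨⟨0, hn⟩⟩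
  have : Nonempty (Σ b : Fin n, ({i : Fin n // β i = b} → Bool)) :=
    ⟨⟨⟨0, hn⟩, fun _ => true⟩⟩
  let sg : Bool → ℝ := fun s => if s then 1 else -1
  have hsg : ∀ s, sg s = 1 ∨ sg s = -1 := by
    intro s; cases s <;> simp [sg]
  obtain ⟨x, hx⟩ := Finite.exists_max
    fun x : (Σ b : Fin n, ({i : Fin n // β i = b} → Bool)) =>
      ‖T (CL_single β x.1 fun i => sg (x.2 i))‖
  set c : ℝ := ‖T (CL_single β x.1 fun i => sg (x.2 i))‖ with hc
  have hc1 : ∀ (b : Fin n) (e : {i : Fin n // β i = b} → ℝ), (∀ i, e i = 1 ∨ e i = -1) →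
      ‖T (CL_single β b e)‖ ≤ c := by
    intro b e he
    have h1 : e = fun i => sg (decide (e i = 1)) := by
      ext i
      rcases he i with h | h
      · simp [sg, h]
      · simp only [sg, h]
        norm_num
    rw [h1]
    exact hx ⟨b, fun i => decide (e i = 1)⟩
  have hc2 : ‖T‖ ≤ c := by
    refine ContinuousLinearMap.opNorm_le_bound _ (norm_nonneg _) fun y => ?_
    conv_lhs => rw [CL_sum_single β y]
    rw [map_sum, PiLp.norm_eq_of_L1 y, Finset.mul_sum]
    exact (norm_sum_le _ _).trans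
      (Finset.sum_le_sum fun b _ => CL_block_bound β T b (hc1 b) (y b))
  have hne : Nonempty {i : Fin n // β i = x.1} := by
    by_contra hcon
    have := not_nonempty_iff.1 hcon
    have h0 : CL_single β x.1 (fun i => sg (x.2 i)) = 0 := by
      have : (fun i => sg (x.2 i)) = (0 : {i : Fin n // β i = x.1} → ℝ) := Subsingleton.elim _ _
      rw [this]
      rw [← CL_lin_apply, map_zero]
    rw [hT, hc, h0] at hc2
    simp at hc2
    linarith
  refine ⟨x.1, fun i => sg (x.2 i), hne, fun i => hsg _, le_antisymm ?_ ?_⟩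
  · calc ‖T (CL_single β x.1 fun i => sg (x.2 i))‖
        ≤ ‖T‖ * ‖CL_single β x.1 fun i => sg (x.2 i)‖ := T.le_opNorm _
      _ ≤ 1 * 1 := by
        rw [hT, CL_norm_single]
        refine mul_le_mul_of_nonneg_left ?_ zero_le_one
        refine (pi_norm_le_iff_of_nonneg zero_le_one).2 fun i => ?_
        rcases hsg (x.2 i) with h | h <;> simp [h]
      _ = 1 := one_mul 1
  · rw [← hT]; exact hc2

private theorem CL_norm_sign {n : ℕ} (β : Fin n → Fin n) (b : Fin n)
    (e : {i : Fin n // β i = b} → ℝ) (hne : Nonempty {i : Fin n // β i = b})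
    (he : ∀ i, e i = 1 ∨ e i = -1) : ‖CL_single β b e‖ = 1 := by
  rw [CL_norm_single]
  refine le_antisymm ((pi_norm_le_iff_of_nonneg zero_le_one).2 fun i => ?_) ?_
  · rcases he i with h | h <;> simp [h]
  · obtain ⟨i⟩ := hne
    have := norm_le_pi_norm e i
    rcases he i with h | h <;> simpa [h] using this

private theorem CL_functional {n : ℕ} (β : Fin n → Fin n) (w : CL β) :
    ∃ f : StrongDual ℝ (CL β), (∀ y, |f y| ≤ ‖y‖) ∧ f w = ‖w‖ ∧
      ∀ (b : Fin n) (e : {i : Fin n // β i = b} → ℝ), Nonempty {i : Fin n // β i = b} →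
      (∀ i, e i = 1 ∨ e i = -1) → f (CL_single β b e) = 1 ∨ f (CL_single β b e) = -1 := by
  classical
  choose φ h1 h2 h3 using fun b : Fin n => CL_exists_functional (w b)
  set f : StrongDual ℝ (CL β) := ∑ b, (φ b).comp
    (PiLp.proj 1 (fun b : Fin n => ({i : Fin n // β i = b} → ℝ)) b) with hf
  have hfy : ∀ y : CL β, f y = ∑ b, φ b (y b) := by
    intro y
    rw [hf, sum_apply]
    rfl
  refine ⟨f, fun y => ?_, ?_, fun b e hne he => ?_⟩
  · rw [hfy, PiLp.norm_eq_of_L1]
    exact (Finset.abs_sum_le_sum_abs _ _).trans (Finset.sum_le_sum fun b _ => h1 b (y b))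
  · rw [hfy, PiLp.norm_eq_of_L1]
    exact Finset.sum_congr rfl fun b _ => h2 b
  · have h4 : f (CL_single β b e) = φ b e := by
      rw [hfy, Finset.sum_eq_single b]
      · unfold CL_single
        rw [PiLp.toLp_apply, Pi.single_eq_same]
      · intro c _ hcb
        unfold CL_single
        rw [PiLp.toLp_apply, Pi.single_eq_of_ne hcb, map_zero]
      · simp
    rw [h4]
    exact h3 b hne e he

private theorem CL_numRadius {n : ℕ} (hn : 1 ≤ n) (β : Fin n → Fin n) (T : CL β →L[ℝ] CL β)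
    (hT : ‖T‖ = 1) : numRadius T = 1 := by
  obtain ⟨b, e, hne, he, h1⟩ := CL_exists_vertex hn β T hT
  obtain ⟨f, hf1, hf2, hf3⟩ := CL_functional β (T (CL_single β b e))
  rw [h1] at hf2
  have hu := CL_norm_sign β b e hne he
  have hfn : ‖f‖ = 1 := by
    refine le_antisymm (ContinuousLinearMap.opNorm_le_bound _ zero_le_one fun y => ?_) ?_
    · rw [one_mul]; exact hf1 y
    · have := f.le_opNorm (T (CL_single β b e))
      rw [h1, hf2, mul_one] at this
      simpa using this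
  have hb : ∀ r ∈ {r : ℝ | ∃ (u : CL β) (f : StrongDual ℝ (CL β)),
      ‖u‖ = 1 ∧ ‖f‖ = 1 ∧ f u = 1 ∧ r = |f (T u)|}, r ≤ 1 := by
    rintro r ⟨u, g, hu, hg, -, rfl⟩
    calc |g (T u)| = ‖g (T u)‖ := rfl
      _ ≤ ‖g‖ * ‖T u‖ := g.le_opNorm _
      _ ≤ 1 * (‖T‖ * ‖u‖) := by rw [hg]; exact mul_le_mul_of_nonneg_left (T.le_opNorm _) zero_le_one
      _ = 1 := by rw [hT, hu]; norm_num
  have hmem : (1 : ℝ) ∈ {r : ℝ | ∃ (u : CL β) (f : StrongDual ℝ (CL β)),
      ‖u‖ = 1 ∧ ‖f‖ = 1 ∧ f u = 1 ∧ r = |f (T u)|} := by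
    rcases hf3 b e hne he with h | h
    · exact ⟨CL_single β b e, f, hu, hfn, h, by rw [hf2, abs_one]⟩
    · refine ⟨CL_single β b e, -f, hu, by rw [norm_neg]; exact hfn, ?_, ?_⟩
      · rw [neg_apply, h, neg_neg]
      · rw [neg_apply, hf2, abs_neg, abs_one]
  exact le_antisymm (csSup_le ⟨1, hmem⟩ hb) (le_csSup ⟨1, hb⟩ hmem)

theorem CL_numIndex {n : ℕ} (hn : 1 ≤ n) (β : Fin n → Fin n) : numIndex (CL β) = 1 := by
  have hset : {r : ℝ | ∃ T : CL β →L[ℝ] CL β, ‖T‖ = 1 ∧ r = numRadius T} = {1} := by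
    ext r
    constructor
    · rintro ⟨T, hT, rfl⟩
      exact CL_numRadius hn β T hT
    · rintro rfl
      have : Nontrivial (CL β) := by
        refine Module.nontrivial_of_finrank_pos (R := ℝ) ?_
        rw [CL_finrank]; exact hn
      exact ⟨ContinuousLinearMap.id ℝ (CL β), ContinuousLinearMap.norm_id,
        (CL_numRadius hn β _ ContinuousLinearMap.norm_id).symm⟩
  unfold numIndex
  rw [hset, csInf_singleton]

end D7u
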