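import Pool.Agent.H.MP_d7d3dc_an.h98.PL
import Pool.Agent.H.MP_d7d3dc_an.h17.Base

/-!
MP_d7d3dc_an, upper bound for `D_m`: Gaussian concentration for seminorms.
-/

set_option autoImplicit false

namespace D7u

open D546neg MeasureTheory ProbabilityTheory Set
open scoped RealInnerProductSpace BigOperators ENNReal

private lemma conc_pointwise (m : ℕ) (P : Seminorm ℝ (E m)) (c : ℝ)
    (hP : ∀ x, P x ≤ c * ‖x‖) (x y : E m) :
    (Real.exp (P x - c ^ 2) * dens m x) * (Real.exp (-P y) * dens m y) ≤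
      dens m ((1 / 2 : ℝ) • x + (1 / 2 : ℝ) • y) ^ 2 := by
  have h1 : P x - P y ≤ c * ‖x - y‖ := by
    have h2 := map_add_le_add P (x - y) y
    rw [sub_add_cancel] at h2
    have h3 := hP (x - y)
    linarith
  have h2 : c * ‖x - y‖ ≤ c ^ 2 + ‖x - y‖ ^ 2 / 4 := by
    nlinarith [sq_nonneg (c - ‖x - y‖ / 2)]
  have h3 : ‖(1 / 2 : ℝ) • x + (1 / 2 : ℝ) • y‖ ^ 2 = ‖x + y‖ ^ 2 / 4 := by
    rw [← smul_add, norm_smul]
    rw [Real.norm_of_nonneg (by norm_num)]
    ring
  have h4 : ‖x + y‖ ^ 2 + ‖x - y‖ ^ 2 = 2 * ‖x‖ ^ 2 + 2 * ‖y‖ ^ 2 := by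
    have := parallelogram_law_with_norm ℝ x y
    nlinarith [this]
  unfold dens
  rw [h3]
  set K : ℝ := ((Real.pi / (1/2)) ^ ((m:ℝ) / 2))⁻¹ with hK
  have e1 : (Real.exp (P x - c ^ 2) * (K * Real.exp (-(1/2) * ‖x‖ ^ 2))) *
      (Real.exp (-P y) * (K * Real.exp (-(1/2) * ‖y‖ ^ 2))) =
      K ^ 2 * Real.exp ((P x - c ^ 2) + (-(1/2) * ‖x‖ ^ 2) + (-P y) + (-(1/2) * ‖y‖ ^ 2)) := by
    rw [Real.exp_add, Real.exp_add, Real.exp_add]
    ring
  have e2 : (K * Real.exp (-(1/2) * (‖x + y‖ ^ 2 / 4))) ^ 2 =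
      K ^ 2 * Real.exp (-(‖x + y‖ ^ 2 / 4)) := by
    rw [mul_pow, ← Real.exp_nat_mul]
    congr 2
    push_cast
    ring
  rw [e1, e2]
  refine mul_le_mul_of_nonneg_left (Real.exp_le_exp.2 ?_) (sq_nonneg _)
  nlinarith [h1, h2, h4]

private lemma conc_lint (m : ℕ) (f : E m → ℝ≥0∞) (hf : Measurable f) :
    ∫⁻ g, f g ∂(γ m) = ∫⁻ x, f x * ENNReal.ofReal (dens m x) := by
  have hd : Measurable fun x : E m => ENNReal.ofReal (dens m x) :=
    ENNReal.measurable_ofReal.comp dens_continuous.measurable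
  rw [gamma_eq, lintegral_withDensity_eq_lintegral_mul _ hd hf]
  refine lintegral_congr fun x => ?_
  simp only [Pi.mul_apply]
  rw [mul_comm]

private lemma conc_transfer (m : ℕ) (f : E m → ℝ≥0∞) (hf : Measurable f) :
    ∫⁻ v : Fin m → ℝ, f (WithLp.toLp 2 v) = ∫⁻ x, f x :=
  (PiLp.volume_preserving_toLp (Fin m)).lintegral_comp hf

private lemma conc_rpow (a : ℝ≥0∞) : (a ^ (1 / 2 : ℝ)) * (a ^ (1 / 2 : ℝ)) = a := by
  rw [← ENNReal.rpow_add_of_nonneg _ _ (by norm_num) (by norm_num)]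
  norm_num

theorem gauss_conc (m : ℕ) (P : Seminorm ℝ (E m)) (c : ℝ) (hc : 0 ≤ c)
    (hP : ∀ x, P x ≤ c * ‖x‖) :
    ∫⁻ g, ENNReal.ofReal (Real.exp (P g)) ∂(γ m)
      ≤ ENNReal.ofReal (Real.exp (∫ g, P g ∂(γ m) + c ^ 2)) := by
  have hPc : Continuous P := seminorm_continuous P
  have hdm : Measurable fun x : E m => ENNReal.ofReal (dens m x) :=
    ENNReal.measurable_ofReal.comp dens_continuous.measurable
  have hem : Measurable fun x : E m => ENNReal.ofReal (Real.exp (P x)) :=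
    ENNReal.measurable_ofReal.comp (Real.continuous_exp.comp hPc).measurable
  have hnm : Measurable fun x : E m => ENNReal.ofReal (Real.exp (-P x)) :=
    ENNReal.measurable_ofReal.comp (Real.continuous_exp.comp hPc.neg).measurable
  set F : E m → ℝ≥0∞ := fun x => ENNReal.ofReal (Real.exp (P x - c ^ 2) * dens m x) with hF
  set G : E m → ℝ≥0∞ := fun x => ENNReal.ofReal (Real.exp (-P x) * dens m x) with hG
  have hFm : Measurable F := ENNReal.measurable_ofReal.comp
    ((Real.continuous_exp.comp (hPc.sub continuous_const)).mul dens_continuous).measurable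
  have hGm : Measurable G := ENNReal.measurable_ofReal.comp
    ((Real.continuous_exp.comp hPc.neg).mul dens_continuous).measurable
  have hto : Measurable (WithLp.toLp 2 : (Fin m → ℝ) → E m) :=
    (PiLp.volume_preserving_toLp (Fin m)).measurable
  have hPL := Pool.Agent.H.MP_d7d3dc_an.PL98.prekopa_leindler
    (f := fun v : Fin m → ℝ => F (WithLp.toLp 2 v)) (g := fun v => G (WithLp.toLp 2 v))
    (h := fun v => ENNReal.ofReal (dens m (WithLp.toLp 2 v)))
    (hFm.comp hto) (hGm.comp hto) (hdm.comp hto)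
    (a := 1 / 2) (b := 1 / 2) (by norm_num) (by norm_num) (by norm_num) (fun x y => by
      have h1 := conc_pointwise m P c hP (WithLp.toLp 2 x) (WithLp.toLp 2 y)
      have hA : 0 ≤ Real.exp (P (WithLp.toLp 2 x) - c ^ 2) * dens m (WithLp.toLp 2 x) :=
        mul_nonneg (Real.exp_pos _).le (dens_nonneg _)
      have hB : 0 ≤ Real.exp (-P (WithLp.toLp 2 y)) * dens m (WithLp.toLp 2 y) :=
        mul_nonneg (Real.exp_pos _).le (dens_nonneg _)
      show (ENNReal.ofReal _) ^ (1 / 2 : ℝ) * (ENNReal.ofReal _) ^ (1 / 2 : ℝ) ≤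
        ENNReal.ofReal (dens m (WithLp.toLp 2 ((1 / 2 : ℝ) • x + (1 / 2 : ℝ) • y)))
      rw [← ENNReal.mul_rpow_of_nonneg _ _ (by norm_num), ← ENNReal.ofReal_mul hA,
        ENNReal.ofReal_rpow_of_nonneg (mul_nonneg hA hB) (by norm_num)]
      refine ENNReal.ofReal_le_ofReal ?_
      rw [← Real.sqrt_eq_rpow]
      refine Real.sqrt_le_iff.2 ⟨dens_nonneg _, ?_⟩
      exact h1)
  have hI1 : ∫⁻ x : E m, ENNReal.ofReal (dens m x) = 1 := by
    rw [← ofReal_integral_eq_lintegral_ofReal integrable_dens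
      (Filter.Eventually.of_forall fun x => dens_nonneg x), integral_dens, ENNReal.ofReal_one]
  have t1 := conc_transfer m F hFm
  have t2 := conc_transfer m G hGm
  have t3 := conc_transfer m (fun x => ENNReal.ofReal (dens m x)) hdm
  rw [t1, t2, t3, hI1] at hPL
  set A : ℝ≥0∞ := ∫⁻ g, ENNReal.ofReal (Real.exp (P g)) ∂(γ m) with hAdef
  have hFA : ∫⁻ x, F x = ENNReal.ofReal (Real.exp (-c ^ 2)) * A := by
    rw [hAdef, conc_lint m _ hem]
    have e0 : ENNReal.ofReal (Real.exp (-c ^ 2)) *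
        ∫⁻ x : E m, ENNReal.ofReal (Real.exp (P x)) * ENNReal.ofReal (dens m x) =
        ∫⁻ x : E m, ENNReal.ofReal (Real.exp (-c ^ 2)) *
          (ENNReal.ofReal (Real.exp (P x)) * ENNReal.ofReal (dens m x)) :=
      (lintegral_const_mul _ (hem.mul hdm)).symm
    rw [e0]
    refine lintegral_congr fun x => ?_
    rw [hF]
    simp only
    rw [← ENNReal.ofReal_mul (Real.exp_pos _).le, ← ENNReal.ofReal_mul (Real.exp_pos _).le]
    congr 1
    rw [← mul_assoc, ← Real.exp_add]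
    congr 2
    ring
  have hGB : ∫⁻ x, G x = ∫⁻ g, ENNReal.ofReal (Real.exp (-P g)) ∂(γ m) := by
    rw [conc_lint m _ hnm]
    refine lintegral_congr fun x => ?_
    rw [hG]
    simp only
    rw [← ENNReal.ofReal_mul (Real.exp_pos _).le]
  have hBge : ENNReal.ofReal (Real.exp (-∫ g, P g ∂(γ m))) ≤ ∫⁻ x, G x := by
    rw [hGB]
    have hint : Integrable (fun g => Real.exp (-P g)) (γ m) := by
      refine Integrable.mono' (integrable_const (1 : ℝ))
        (Real.continuous_exp.comp hPc.neg).aestronglyMeasurable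
        (Filter.Eventually.of_forall fun g => ?_)
      rw [Real.norm_of_nonneg (Real.exp_pos _).le]
      exact Real.exp_le_one_iff.2 (by have := apply_nonneg P g; linarith)
    rw [← ofReal_integral_eq_lintegral_ofReal hint
      (Filter.Eventually.of_forall fun g => (Real.exp_pos _).le)]
    refine ENNReal.ofReal_le_ofReal ?_
    set μ : ℝ := ∫ g, P g ∂(γ m) with hμ
    have hPi : Integrable (fun g => P g) (γ m) := integrable_seminorm P
    have h1 : ∫ g, Real.exp (-μ) * (1 + (μ - P g)) ∂(γ m) = Real.exp (-μ) := by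
      have e1 : ∫ g, (1 + (μ - P g)) ∂(γ m) = ∫ g, (1 : ℝ) ∂(γ m) + ∫ g, (μ - P g) ∂(γ m) :=
        integral_add (integrable_const _) ((integrable_const _).sub hPi)
      have e2 : ∫ g, (μ - P g) ∂(γ m) = ∫ g, μ ∂(γ m) - ∫ g, P g ∂(γ m) :=
        integral_sub (integrable_const _) hPi
      rw [integral_const_mul, e1, e2, ← hμ]
      simp
    calc Real.exp (-μ) = ∫ g, Real.exp (-μ) * (1 + (μ - P g)) ∂(γ m) := h1.symm
      _ ≤ ∫ g, Real.exp (-P g) ∂(γ m) := by
        refine integral_mono ?_ hint fun g => ?_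
        · exact (((integrable_const _).add ((integrable_const _).sub hPi)).const_mul _)
        · show Real.exp (-μ) * (1 + (μ - P g)) ≤ Real.exp (-P g)
          have h2 : 1 + (μ - P g) ≤ Real.exp (μ - P g) := by
            have := Real.add_one_le_exp (μ - P g)
            linarith
          calc Real.exp (-μ) * (1 + (μ - P g)) ≤ Real.exp (-μ) * Real.exp (μ - P g) :=
                mul_le_mul_of_nonneg_left h2 (Real.exp_pos _).le
            _ = Real.exp (-P g) := by rw [← Real.exp_add]; congr 1; ring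
  have hprod : (∫⁻ x, F x) * (∫⁻ x, G x) ≤ 1 := by
    calc (∫⁻ x, F x) * (∫⁻ x, G x)
        = ((∫⁻ x, F x) ^ (1 / 2 : ℝ) * (∫⁻ x, G x) ^ (1 / 2 : ℝ)) *
          ((∫⁻ x, F x) ^ (1 / 2 : ℝ) * (∫⁻ x, G x) ^ (1 / 2 : ℝ)) := by
          rw [mul_mul_mul_comm, conc_rpow, conc_rpow]
      _ ≤ 1 * 1 := mul_le_mul' hPL hPL
      _ = 1 := one_mul 1
  rw [hFA] at hprod
  set μ : ℝ := ∫ g, P g ∂(γ m) with hμ
  calc A = ENNReal.ofReal (Real.exp (μ + c ^ 2)) *
        ((ENNReal.ofReal (Real.exp (-c ^ 2)) * A) * ENNReal.ofReal (Real.exp (-μ))) := by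
        have h1 : ENNReal.ofReal (Real.exp (μ + c ^ 2)) * (ENNReal.ofReal (Real.exp (-c ^ 2)) *
            ENNReal.ofReal (Real.exp (-μ))) = 1 := by
          rw [← ENNReal.ofReal_mul (Real.exp_pos _).le, ← ENNReal.ofReal_mul (Real.exp_pos _).le,
            ← Real.exp_add, ← Real.exp_add]
          rw [show μ + c ^ 2 + (-c ^ 2 + -μ) = 0 by ring, Real.exp_zero, ENNReal.ofReal_one]
        calc A = 1 * A := (one_mul A).symm
          _ = (ENNReal.ofReal (Real.exp (μ + c ^ 2)) * (ENNReal.ofReal (Real.exp (-c ^ 2)) *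
            ENNReal.ofReal (Real.exp (-μ)))) * A := by rw [h1]
          _ = _ := by ring
    _ ≤ ENNReal.ofReal (Real.exp (μ + c ^ 2)) *
        ((ENNReal.ofReal (Real.exp (-c ^ 2)) * A) * ∫⁻ x, G x) := by gcongr
    _ ≤ ENNReal.ofReal (Real.exp (μ + c ^ 2)) * 1 := by gcongr
    _ = ENNReal.ofReal (Real.exp (μ + c ^ 2)) := mul_one _

end D7u
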