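import Pool.Agent.H.MP_d7d3dc_an.h17.Base

/-!
MP_d7d3dc_an, upper bound for `D_m`: Gaussian contraction principle and marginals.
-/

set_option autoImplicit false

namespace D7u

open D546neg MeasureTheory ProbabilityTheory Set
open scoped RealInnerProductSpace BigOperators

private noncomputable def contrOp {n : ℕ} (e : OrthonormalBasis (Fin n) ℝ (E n))
    (v : Fin n → E n) (c : Fin n → ℝ) : E n →L[ℝ] E n :=
  ∑ i, c i • (innerSL ℝ (e i)).smulRight (v i)

private lemma contrOp_apply {n : ℕ} (e : OrthonormalBasis (Fin n) ℝ (E n))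
    (v : Fin n → E n) (c : Fin n → ℝ) (g : E n) :
    contrOp e v c g = ∑ i, (c i * ⟪e i, g⟫) • v i := by
  simp [contrOp, smul_smul]

private lemma contrOp_add {n : ℕ} (e : OrthonormalBasis (Fin n) ℝ (E n))
    (v : Fin n → E n) (c c' : Fin n → ℝ) :
    contrOp e v (c + c') = contrOp e v c + contrOp e v c' := by
  simp [contrOp, add_smul, Finset.sum_add_distrib]

private lemma contrOp_smul {n : ℕ} (e : OrthonormalBasis (Fin n) ℝ (E n))
    (v : Fin n → E n) (a : ℝ) (c : Fin n → ℝ) :
    contrOp e v (a • c) = a • contrOp e v c := by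
  simp [contrOp, mul_smul, Finset.smul_sum]

/-- contraction principle. -/
theorem gauss_contraction (n : ℕ) (N : Seminorm ℝ (E n)) (e : OrthonormalBasis (Fin n) ℝ (E n))
    (v : Fin n → E n) (c : Fin n → ℝ) (hc : ∀ i, |c i| ≤ 1) :
    ∫ g, N (∑ i, (c i * ⟪e i, g⟫) • v i) ∂(γ n) ≤ ∫ g, N (∑ i, ⟪e i, g⟫ • v i) ∂(γ n) := by
  classical
  let P : Seminorm ℝ (Fin n → ℝ) := Seminorm.of (fun c => ell N (contrOp e v c))
    (fun x y => by rw [contrOp_add]; exact ell_add_le N _ _)
    (fun a x => by rw [contrOp_smul, ell_smul]; rfl)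
  have hP : ∀ c : Fin n → ℝ, P c = ell N (contrOp e v c) := fun _ => rfl
  have hdec : ∀ c : Fin n → ℝ, (∑ i, c i • (Pi.single i (1 : ℝ) : Fin n → ℝ)) = c := by
    intro c
    ext j
    simp [Finset.sum_apply, Pi.single_apply]
  have hsign : ∀ ε : Fin n → ℝ, (∀ i, ε i = 1 ∨ ε i = -1) →
      P (∑ i, ε i • (Pi.single i (1 : ℝ) : Fin n → ℝ)) ≤ P (fun _ => 1) := by
    intro ε hε
    rw [hdec, hP, hP]
    let F : EuclideanSpace ℝ (Fin n) ≃ₗᵢ[ℝ] EuclideanSpace ℝ (Fin n) :=
      LinearIsometryEquiv.piLpCongrRight 2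
        (fun i => if ε i = 1 then LinearIsometryEquiv.refl ℝ ℝ else LinearIsometryEquiv.neg ℝ)
    have hF : ∀ (x : EuclideanSpace ℝ (Fin n)) (i : Fin n), F x i = ε i * x i := by
      intro x i
      have : F x i = (if ε i = 1 then LinearIsometryEquiv.refl ℝ ℝ
        else LinearIsometryEquiv.neg ℝ) (x i) := rfl
      rw [this]
      rcases hε i with h | h
      · simp [h]
      · have h' : ¬ ((-1 : ℝ) = 1) := by norm_num
        simp [h, h']
    let R : E n ≃ₗᵢ[ℝ] E n := (e.repr.trans F).trans e.repr.symm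
    have hR : ∀ g : E n, contrOp e v (fun _ => 1) (R g) = contrOp e v ε g := by
      intro g
      rw [contrOp_apply, contrOp_apply]
      refine Finset.sum_congr rfl fun i _ => ?_
      have h1 : ⟪e i, R g⟫ = ε i * ⟪e i, g⟫ := by
        rw [← e.repr_apply_apply, ← e.repr_apply_apply]
        have : e.repr (R g) = F (e.repr g) := by simp [R]
        rw [this, hF]
      rw [h1, one_mul]
    have h2 := ell_comp_isometry N (contrOp e v (fun _ => 1)) R
    simp_rw [hR] at h2
    exact h2.le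
  have key := seminorm_cube_le P Finset.univ (fun i => (Pi.single i (1 : ℝ) : Fin n → ℝ))
    (P (fun _ => 1)) hsign c hc
  rw [hdec, hP, hP] at key
  unfold ell at key
  simp_rw [contrOp_apply] at key
  simpa using key

/-- marginals of the standard Gaussian measure. -/
theorem gauss_marginal (m n : ℕ) (f : Fin m → E n) (hf : Orthonormal ℝ f) :
    (γ n).map (fun g => (WithLp.toLp 2 fun a => ⟪f a, g⟫ : E m)) = γ m := by
  have hcont : Continuous (fun g : E n => (WithLp.toLp 2 fun a => ⟪f a, g⟫ : E m)) := by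
    refine (PiLp.continuous_toLp 2 _).comp ?_
    exact continuous_pi fun a => (continuous_const.inner continuous_id)
  have h1 := hcont.measurable
  have : IsProbabilityMeasure ((γ n).map
      (fun g => (WithLp.toLp 2 fun a => ⟪f a, g⟫ : E m))) :=
    Measure.isProbabilityMeasure_map h1.aemeasurable
  apply Measure.ext_of_charFun
  ext t
  rw [charFun_stdGaussian, charFun_apply, integral_map h1.aemeasurable (by fun_prop)]
  have h2 : ∀ g : E n, ⟪(WithLp.toLp 2 fun a => ⟪f a, g⟫ : E m), t⟫ = ⟪g, ∑ a, t a • f a⟫ := by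
    intro g
    rw [inner_sum, PiLp.inner_apply]
    refine Finset.sum_congr rfl fun a _ => ?_
    rw [real_inner_smul_right, real_inner_comm (f a) g]
    simp
  simp_rw [h2]
  rw [← charFun_apply, charFun_stdGaussian]
  have h3 : ‖∑ a, t a • f a‖ ^ 2 = ‖t‖ ^ 2 := by
    rw [← real_inner_self_eq_norm_sq, hf.inner_sum, EuclideanSpace.norm_sq_eq]
    refine Finset.sum_congr rfl fun a _ => ?_
    simp
    ring
  congr 1
  have h4 : ((‖∑ a, t a • f a‖ : ℂ)) ^ 2 = (‖t‖ : ℂ) ^ 2 := by
    rw [← Complex.ofReal_pow, ← Complex.ofReal_pow, h3]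
  rw [h4]

end D7u
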