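import Pool.Agent.H.MP_d7d3dc_an.h17.Contr

/-!
MP_d7d3dc_an, upper bound for `D_m`: ell-norms of spectral groups.
-/

set_option autoImplicit false

namespace D7u

open D546neg MeasureTheory ProbabilityTheory Set
open scoped RealInnerProductSpace BigOperators

theorem group_ell (n : ℕ) (N : Seminorm ℝ (E n)) (e : OrthonormalBasis (Fin n) ℝ (E n))
    (s : Fin n → ℝ) (G : Finset (Fin n)) :
    ∫ g, N (∑ i ∈ G, (s i * ⟪e i, g⟫) • e i) ∂(γ n) ≤ ell N (dg e s) := by
  classical
  have h := gauss_contraction n N e (fun i => s i • e i) (fun i => if i ∈ G then 1 else 0)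
    (fun i => by split_ifs <;> simp)
  have h1 : ∀ g : E n, ∑ i, ((if i ∈ G then (1 : ℝ) else 0) * ⟪e i, g⟫) • (s i • e i) =
      ∑ i ∈ G, (s i * ⟪e i, g⟫) • e i := by
    intro g
    rw [← Finset.sum_filter_add_sum_filter_not Finset.univ (fun i => i ∈ G)]
    rw [Finset.sum_eq_zero (s := Finset.univ.filter (fun i => ¬ i ∈ G)), add_zero]
    · have h2 : Finset.univ.filter (fun i => i ∈ G) = G := by ext i; simp
      rw [h2]
      refine Finset.sum_congr rfl fun i hi => ?_
      rw [if_pos hi, smul_smul, one_mul, mul_comm]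
    · intro i hi
      rw [Finset.mem_filter] at hi
      rw [if_neg hi.2, zero_mul, zero_smul]
  have h2 : ∀ g : E n, ∑ i, ⟪e i, g⟫ • (s i • e i) = dg e s g := by
    intro g
    rw [dg_apply]
    refine Finset.sum_congr rfl fun i _ => ?_
    rw [smul_smul, mul_comm]
  simp_rw [h1, h2] at h
  exact h

theorem group_dual (n : ℕ) (N : Seminorm ℝ (E n)) (hN : Definite N)
    (e : OrthonormalBasis (Fin n) ℝ (E n)) (s w : Fin n → ℝ) (hs : ∀ i, 0 < s i)
    (G : Finset (Fin n)) (w₀ : ℝ) (hw₀ : 0 < w₀) (hw : ∀ i ∈ G, w₀ ≤ w i) :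
    ∫ g, dualN N (∑ i ∈ G, ((s i)⁻¹ * ⟪e i, g⟫) • e i) ∂(γ n)
      ≤ w₀⁻¹ * ∫ g, dualN N (dg e (fun i => w i / s i) g) ∂(γ n) := by
  classical
  have h := gauss_contraction n (dualS N hN) e (fun i => (w i / s i) • e i)
    (fun i => if i ∈ G then w₀ / w i else 0) (fun i => by
      by_cases hi : i ∈ G
      · rw [if_pos hi]
        have hwi : 0 < w i := lt_of_lt_of_le hw₀ (hw i hi)
        rw [abs_of_nonneg (by positivity), div_le_one hwi]
        exact hw i hi
      · rw [if_neg hi]; simp)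
  have h1 : ∀ g : E n, ∑ i, ((if i ∈ G then w₀ / w i else 0) * ⟪e i, g⟫) • ((w i / s i) • e i) =
      w₀ • ∑ i ∈ G, ((s i)⁻¹ * ⟪e i, g⟫) • e i := by
    intro g
    rw [← Finset.sum_filter_add_sum_filter_not Finset.univ (fun i => i ∈ G)]
    rw [Finset.sum_eq_zero (s := Finset.univ.filter (fun i => ¬ i ∈ G)), add_zero]
    · have h2 : Finset.univ.filter (fun i => i ∈ G) = G := by ext i; simp
      rw [h2, Finset.smul_sum]
      refine Finset.sum_congr rfl fun i hi => ?_
      have hwi : 0 < w i := lt_of_lt_of_le hw₀ (hw i hi)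
      have hsi := hs i
      rw [if_pos hi, smul_smul, smul_smul]
      congr 1
      field_simp
    · intro i hi
      rw [Finset.mem_filter] at hi
      rw [if_neg hi.2, zero_mul, zero_smul]
  have h2 : ∀ g : E n, ∑ i, ⟪e i, g⟫ • ((w i / s i) • e i) = dg e (fun i => w i / s i) g := by
    intro g
    rw [dg_apply]
    refine Finset.sum_congr rfl fun i _ => ?_
    rw [smul_smul, mul_comm]
  simp_rw [h1, h2, dualS_apply, dualN_smul hN, abs_of_pos hw₀] at h
  rw [integral_const_mul] at h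
  rw [← div_eq_inv_mul, le_div_iff₀ hw₀, mul_comm]
  exact h

end D7u
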