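import Pool.Agent.H.MP_d7d3dc_an.h17.Rot

/-!
MP_d7d3dc_an, upper bound for `D_m`: a random orthonormal basis and two seminorms.
-/

set_option autoImplicit false

namespace D7u

open D546neg MeasureTheory ProbabilityTheory Set
open scoped RealInnerProductSpace BigOperators

/-- a vector from its coordinates. -/
private noncomputable def coreVec {m : ℕ} (a : Fin m → ℝ) : E m :=
  ∑ i, a i • EuclideanSpace.single i (1 : ℝ)

private lemma coreVec_apply {m : ℕ} (a : Fin m → ℝ) (j : Fin m) : coreVec a j = a j := by
  unfold coreVec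
  rw [WithLp.ofLp_sum, Finset.sum_apply, Finset.sum_eq_single j]
  · simp
  · intro i _ hi
    simp [Ne.symm hi]
  · simp

private lemma coreVec_norm {m : ℕ} (a : Fin m → ℝ) (ha : ∀ i, a i = 0 ∨ a i ^ 2 = 1) (r : ℕ)
    (hr : (Finset.univ.filter (fun i => a i ≠ 0)).card ≤ r) : ‖coreVec a‖ ≤ √r := by
  rw [EuclideanSpace.norm_eq]
  refine Real.sqrt_le_sqrt ?_
  have h1 : ∑ i, ‖coreVec a i‖ ^ 2 = ∑ i, if a i ≠ 0 then (1 : ℝ) else 0 := by
    refine Finset.sum_congr rfl fun i _ => ?_
    rw [coreVec_apply, Real.norm_eq_abs, sq_abs]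
    rcases ha i with h | h
    · simp [h]
    · have : a i ≠ 0 := by
        intro h0
        rw [h0] at h
        norm_num at h
      rw [if_pos this, h]
  rw [h1, Finset.sum_boole]
  exact_mod_cast hr

private lemma core_R {m : ℕ} (R : E m ≃ₗᵢ[ℝ] E m) (a : Fin m → ℝ) :
    R (coreVec a) = ∑ i, a i • R (EuclideanSpace.single i (1 : ℝ)) := by
  unfold coreVec
  rw [map_sum]
  refine Finset.sum_congr rfl fun i _ => ?_
  rw [map_smul]

private def coreSg (b : Bool) : ℝ := if b then 1 else -1

private lemma coreSg_sq (b : Bool) : coreSg b ^ 2 = 1 := by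
  unfold coreSg
  split_ifs <;> norm_num

private lemma coreSg_ne (b : Bool) : coreSg b ≠ 0 := by
  unfold coreSg
  split_ifs <;> norm_num

private lemma coreSg_decide {x : ℝ} (h : x = 1 ∨ x = -1) : coreSg (decide (x = 1)) = x := by
  unfold coreSg
  rcases h with h | h
  · simp [h]
  · rw [h]
    norm_num

theorem core_basis (m l k : ℕ) (hl : 1 ≤ l) (hlm : l ≤ m) (hk : 1 ≤ k) (hkm : k ≤ m)
    (hlk : m ≤ l * k) (P Q : Seminorm ℝ (E m)) (LP LQ : ℝ) (hLP : 0 < LP) (hLQ : 0 < LQ)
    (hP : ∀ x, P x ≤ LP * ‖x‖) (hQ : ∀ x, Q x ≤ LQ * ‖x‖) :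
    ∃ (R : E m ≃ₗᵢ[ℝ] E m) (β : Fin m → Fin m),
      (∀ (b : Fin m) (ε : Fin m → ℝ), (∀ i, ε i = 1 ∨ ε i = -1) →
        P (∑ i ∈ Finset.univ.filter (fun i => β i = b), ε i • R (EuclideanSpace.single i (1 : ℝ)))
          ≤ √l * √(3 / m) * (∫ g, P g ∂(γ m) + 2 * LP * (√l * √(Real.log (6 * m))))) ∧
      (∀ (τ : Fin m → Fin m) (ε : Fin m → ℝ), (∀ i, ε i = 1 ∨ ε i = -1) →
        (∀ b ∈ Finset.univ.image β, β (τ b) = b) →
        Q (∑ b ∈ Finset.univ.image β, ε b • R (EuclideanSpace.single (τ b) (1 : ℝ)))
          ≤ √k * √(3 / m) * (∫ g, Q g ∂(γ m) + 2 * LQ * (√k * √(Real.log (6 * m))))) := by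
  classical
  have hm : 1 ≤ m := hl.trans hlm
  have hmR : (1 : ℝ) ≤ m := by exact_mod_cast hm
  have hlog : 0 < Real.log (6 * m) := Real.log_pos (by linarith)
  have hlpos : 0 < l := hl
  -- index maps
  let md : Fin m → Fin l := fun i => ⟨i.val % l, Nat.mod_lt _ hlpos⟩
  let dv : Fin m → Fin k := fun i => ⟨i.val / l, by
    rw [Nat.div_lt_iff_lt_mul hlpos]
    calc i.val < m := i.isLt
      _ ≤ l * k := hlk
      _ = k * l := mul_comm _ _⟩
  let β : Fin m → Fin m := fun i => ⟨i.val / l, lt_of_le_of_lt (Nat.div_le_self _ _) i.isLt⟩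
  have hinj : ∀ i j : Fin m, i.val / l = j.val / l → i.val % l = j.val % l → i = j := by
    intro i j h1 h2
    apply Fin.ext
    rw [← Nat.div_add_mod i.val l, ← Nat.div_add_mod j.val l, h1, h2]
  -- the finite sets
  let f1 : Fin m × (Fin l → Bool) → E m := fun p =>
    coreVec (fun i => if β i = p.1 then coreSg (p.2 (md i)) else 0)
  let f2 : (Fin k → Fin l × Bool) → E m := fun c =>
    coreVec (fun i => if md i = (c (dv i)).1 then coreSg (c (dv i)).2 else 0)
  let Θ₁ : Finset (E m) := Finset.univ.image f1
  let Θ₂ : Finset (E m) := Finset.univ.image f2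
  have hexp : ∀ r : ℕ, Real.exp ((√r * √(Real.log (6 * m))) ^ 2) = (6 * (m : ℝ)) ^ r := by
    intro r
    rw [mul_pow, Real.sq_sqrt (Nat.cast_nonneg r), Real.sq_sqrt hlog.le, Real.exp_nat_mul,
      Real.exp_log (by linarith)]
  obtain ⟨R, hR1, hR2⟩ := exists_rotation m hm P Q LP LQ hLP hLQ hP hQ Θ₁ Θ₂ (√l) (√k)
    (by
      intro θ hθ
      obtain ⟨p, -, rfl⟩ := Finset.mem_image.1 hθ
      refine coreVec_norm _ (fun i => ?_) l ?_
      · by_cases h : β i = p.1
        · right
          rw [if_pos h]
          exact coreSg_sq _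
        · left
          rw [if_neg h]
      · have : (Finset.univ.filter (fun i : Fin m =>
            (if β i = p.1 then coreSg (p.2 (md i)) else 0) ≠ 0)).card
            ≤ (Finset.univ : Finset (Fin l)).card := by
          refine Finset.card_le_card_of_injOn md (fun i _ => Finset.mem_coe.2 (Finset.mem_univ _)) ?_
          intro i hi j hj hij
          have hi' := (Finset.mem_filter.1 (Finset.mem_coe.1 hi)).2
          have hj' := (Finset.mem_filter.1 (Finset.mem_coe.1 hj)).2
          have h1 : β i = p.1 := by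
            by_contra h
            exact hi' (if_neg h)
          have h2 : β j = p.1 := by
            by_contra h
            exact hj' (if_neg h)
          refine hinj i j ?_ (congrArg Fin.val hij)
          exact congrArg Fin.val (h1.trans h2.symm)
        simpa using this)
    (by
      intro θ hθ
      obtain ⟨c, -, rfl⟩ := Finset.mem_image.1 hθ
      refine coreVec_norm _ (fun i => ?_) k ?_
      · by_cases h : md i = (c (dv i)).1
        · right
          rw [if_pos h]
          exact coreSg_sq _
        · left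
          rw [if_neg h]
      · have : (Finset.univ.filter (fun i : Fin m =>
            (if md i = (c (dv i)).1 then coreSg (c (dv i)).2 else 0) ≠ 0)).card
            ≤ (Finset.univ : Finset (Fin k)).card := by
          refine Finset.card_le_card_of_injOn dv (fun i _ => Finset.mem_coe.2 (Finset.mem_univ _)) ?_
          intro i hi j hj hij
          have hi' := (Finset.mem_filter.1 (Finset.mem_coe.1 hi)).2
          have hj' := (Finset.mem_filter.1 (Finset.mem_coe.1 hj)).2
          have h1 : md i = (c (dv i)).1 := by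
            by_contra h
            exact hi' (if_neg h)
          have h2 : md j = (c (dv j)).1 := by
            by_contra h
            exact hj' (if_neg h)
          rw [← hij] at h2
          refine hinj i j (congrArg Fin.val hij) ?_
          exact congrArg Fin.val (h1.trans h2.symm)
        simpa using this)
    (√l * √(Real.log (6 * m))) (√k * √(Real.log (6 * m)))
    (by
      have : (0 : ℝ) < l := by exact_mod_cast hlpos
      positivity)
    (by
      have : (0 : ℝ) < k := by exact_mod_cast hk
      positivity)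
    (by
      rw [hexp]
      have h1 : Θ₁.card ≤ m * 2 ^ l := by
        refine Finset.card_image_le.trans ?_
        simp [Fintype.card_prod]
      have h2 : (Θ₁.card : ℝ) ≤ m * 2 ^ l := by exact_mod_cast h1
      obtain ⟨r, rfl⟩ : ∃ r, l = r + 1 := ⟨l - 1, by omega⟩
      have h3 : (2 : ℝ) ^ r ≤ (6 * (m : ℝ)) ^ r := pow_le_pow_left₀ (by norm_num) (by linarith) r
      calc 3 * (Θ₁.card : ℝ) ≤ 3 * (m * 2 ^ (r + 1)) := by linarith
        _ = (6 * m) * 2 ^ r := by ring
        _ ≤ (6 * m) * (6 * (m : ℝ)) ^ r := mul_le_mul_of_nonneg_left h3 (by positivity)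
        _ = (6 * (m : ℝ)) ^ (r + 1) := by ring)
    (by
      rw [hexp]
      have h1 : Θ₂.card ≤ (l * 2) ^ k := by
        refine Finset.card_image_le.trans ?_
        simp [Fintype.card_prod]
      have h2 : (Θ₂.card : ℝ) ≤ (l * 2) ^ k := by exact_mod_cast h1
      have h3 : ((l : ℝ) * 2) ^ k ≤ (2 * (m : ℝ)) ^ k := by
        refine pow_le_pow_left₀ (by positivity) ?_ k
        have : (l : ℝ) ≤ m := by exact_mod_cast hlm
        linarith
      have h4 : (3 : ℝ) ≤ 3 ^ k := by
        calc (3 : ℝ) = 3 ^ 1 := by norm_num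
          _ ≤ 3 ^ k := pow_le_pow_right₀ (by norm_num) hk
      calc 3 * (Θ₂.card : ℝ) ≤ 3 * (2 * (m : ℝ)) ^ k := by linarith
        _ ≤ 3 ^ k * (2 * (m : ℝ)) ^ k := mul_le_mul_of_nonneg_right h4 (by positivity)
        _ = (6 * (m : ℝ)) ^ k := by rw [← mul_pow]; ring)
  refine ⟨R, β, ?_, ?_⟩
  · intro b ε hε
    let w : Fin l → Bool := fun r =>
      if h : b.val * l + r.val < m then decide (ε ⟨b.val * l + r.val, h⟩ = 1) else true
    have h1 := hR1 (f1 (b, w)) (Finset.mem_image.2 ⟨_, Finset.mem_univ _, rfl⟩)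
    have h2 : R (f1 (b, w)) = ∑ i ∈ Finset.univ.filter (fun i => β i = b),
        ε i • R (EuclideanSpace.single i (1 : ℝ)) := by
      rw [core_R, Finset.sum_filter]
      refine Finset.sum_congr rfl fun i _ => ?_
      by_cases h : β i = b
      · have hb : b.val = i.val / l := by rw [← h]
        have hi : b.val * l + (md i).val = i.val := by
          rw [hb]
          exact Nat.div_add_mod' i.val l
        have hw : w (md i) = decide (ε i = 1) := by
          have h5 : b.val * l + (md i).val < m := by rw [hi]; exact i.isLt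
          have h6 : (⟨b.val * l + (md i).val, h5⟩ : Fin m) = i := Fin.ext hi
          simp only [w]
          rw [dif_pos h5, h6]
        simp only [if_pos h]
        rw [hw, coreSg_decide (hε i)]
      · simp only [if_neg h]
        rw [zero_smul]
    rw [← h2]
    exact h1
  · intro τ ε hε hτ
    let c : Fin k → Fin l × Bool := fun j =>
      (md (τ ⟨j.val, lt_of_lt_of_le j.isLt hkm⟩),
        decide (ε ⟨j.val, lt_of_lt_of_le j.isLt hkm⟩ = 1))
    have h1 := hR2 (f2 c) (Finset.mem_image.2 ⟨_, Finset.mem_univ _, rfl⟩)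
    have h2 : R (f2 c) = ∑ b ∈ Finset.univ.image β,
        ε b • R (EuclideanSpace.single (τ b) (1 : ℝ)) := by
      have h3 : ∀ b ∈ Finset.univ.image β, ε b • R (EuclideanSpace.single (τ b) (1 : ℝ))
          = ∑ i ∈ Finset.univ.filter (fun i => β i = b),
            (if i = τ b then ε b else 0) • R (EuclideanSpace.single i (1 : ℝ)) := by
        intro b hb
        rw [Finset.sum_eq_single (τ b)]
        · rw [if_pos rfl]
        · intro i _ hi
          rw [if_neg hi, zero_smul]
        · intro h
          exact (h (Finset.mem_filter.2 ⟨Finset.mem_univ (τ b), hτ b hb⟩)).elim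
      rw [Finset.sum_congr rfl h3, core_R]
      rw [← Finset.sum_fiberwise_of_maps_to (s := Finset.univ) (t := Finset.univ.image β) (g := β)
        (fun i _ => Finset.mem_image_of_mem β (Finset.mem_univ i))]
      refine Finset.sum_congr rfl fun b hb => Finset.sum_congr rfl fun i hi => ?_
      have hib : β i = b := (Finset.mem_filter.1 hi).2
      have hdv : (⟨(dv i).val, lt_of_lt_of_le (dv i).isLt hkm⟩ : Fin m) = b := by
        rw [← hib]
      have hc : c (dv i) = (md (τ b), decide (ε b = 1)) := by
        simp only [c]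
        rw [hdv]
      rw [hc]
      have hcase : md i = md (τ b) ↔ i = τ b := by
        constructor
        · intro h
          refine hinj i (τ b) ?_ (congrArg Fin.val h)
          have := (hib.trans (hτ b hb).symm)
          exact congrArg Fin.val this
        · intro h
          rw [← h]
      by_cases h : i = τ b
      · rw [if_pos (hcase.2 h), if_pos h]
        simp only
        rw [coreSg_decide (hε b)]
      · rw [if_neg (fun h' => h (hcase.1 h')), if_neg h]
    rw [← h2]
    exact h1

end D7u
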