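import Pool.Agent.H.MP_d546a0_lc.neg.GaussPosition
import Pool.Agent.H.MP_d7d3dc_an.h17.Base

/-!
MP_d7d3dc_an, upper bound for `D_m`: the dual bound from K-convexity.
-/

set_option autoImplicit false

namespace D7u

open D546neg MeasureTheory ProbabilityTheory Set
open scoped RealInnerProductSpace BigOperators

open Filter Topology in
theorem dual_bound (n n₀ : ℕ) (hn₀ : 1 ≤ n₀) (N : Seminorm ℝ (E n)) (h1 : ∀ x, ‖x‖ ≤ N x)
    (h2 : ∀ x, N x ≤ 4 ^ n₀ * ‖x‖) (A : E n →L[ℝ] E n)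
    (hA : ∀ v : E n →L[ℝ] E n,
      LinearMap.trace ℝ (E n) ((A.comp v : E n →L[ℝ] E n) : E n →ₗ[ℝ] E n) ≤ ell N v) :
    ∫ g, dualN N (ContinuousLinearMap.adjoint A g) ∂(γ n) ≤ 6 * (n₀ : ℝ) ^ 2 := by
  have hdef : Definite N := ⟨1, one_pos, fun x => by simpa using h1 x⟩
  choose Φ hΦ1 hΦ2 using fun s : E n => exists_dualN hdef (ContinuousLinearMap.adjoint A s)
  -- the discrete ell-norms of the operators `W_M` are bounded
  have hW : ∀ M : ℕ, 1 ≤ M →
      cavg (fun w : Fin n × Fin M → Bool => N (Lewis.Wop M Φ (Sv w))) ≤ 6 * (n₀ : ℝ) ^ 2 := by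
    intro M hM
    have := kconv n₀ hn₀ N h1 h2 (fun w : Fin n × Fin M → Bool => Φ (Sv w)) (fun w => hΦ1 _)
    refine le_trans (le_of_eq ?_) this
    congr 1
    funext w
    rw [Lewis.Wop_Sv hM]
  have hnorm : ∀ M : ℕ, 1 ≤ M → ‖Lewis.Wop M Φ‖ ≤ √3 * (6 * (n₀ : ℝ) ^ 2) := by
    intro M hM
    refine (Lewis.norm_le_ell hM h1 _).trans ?_
    exact mul_le_mul_of_nonneg_left (hW M hM) (by positivity)
  have htr : ∀ M : ℕ, LinearMap.trace ℝ (E n)
      ((A.comp (Lewis.Wop M Φ) : E n →L[ℝ] E n) : E n →ₗ[ℝ] E n)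
      = cavg (fun w : Fin n × Fin M → Bool =>
          dualN N (ContinuousLinearMap.adjoint A (Sv w))) := by
    intro M
    rw [Lewis.trace_comp_Wop]
    congr 1
    funext w
    rw [← hΦ2, ContinuousLinearMap.adjoint_inner_right, real_inner_comm]
  -- a convergent subsequence
  have : ProperSpace (E n →L[ℝ] E n) := FiniteDimensional.proper_real _
  obtain ⟨W, -, φ, hφ, hlim⟩ := tendsto_subseq_of_bounded
    (Metric.isBounded_closedBall (x := (0 : E n →L[ℝ] E n)) (r := √3 * (6 * (n₀ : ℝ) ^ 2)))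
    (x := fun k => Lewis.Wop (k + 1) Φ) (fun k => by
      rw [mem_closedBall_zero_iff]
      exact hnorm _ (Nat.le_add_left 1 k))
  have hlim' : Tendsto (fun k => Lewis.Wop (φ k + 1) Φ) atTop (𝓝 W) := hlim
  have hMk : Tendsto (fun k => φ k + 1) atTop atTop :=
    (tendsto_add_atTop_nat 1).comp hφ.tendsto_atTop
  have hellW : ell N W ≤ 6 * (n₀ : ℝ) ^ 2 :=
    gp_key N (4 ^ n₀) (by positivity) h2 W _ hlim' (fun k => φ k + 1) hMk
      (fun k => Nat.le_add_left 1 _) _ (fun k => hW (φ k + 1) (Nat.le_add_left 1 _))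
  have htrW := (hA W).trans hellW
  -- continuity of the trace
  let L : (E n →L[ℝ] E n) →ₗ[ℝ] ℝ :=
    { toFun := fun V => LinearMap.trace ℝ (E n) ((A.comp V : E n →L[ℝ] E n) : E n →ₗ[ℝ] E n)
      map_add' := by
        intro V V'
        rw [ContinuousLinearMap.comp_add, ContinuousLinearMap.toLinearMap_add, map_add]
      map_smul' := by
        intro c V
        rw [ContinuousLinearMap.comp_smul, ContinuousLinearMap.toLinearMap_smul, map_smul]
        rfl }
  have hLc : Continuous L := LinearMap.continuous_of_finiteDimensional L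
  have hLt : Tendsto (fun k => L (Lewis.Wop (φ k + 1) Φ)) atTop (𝓝 (L W)) :=
    (hLc.tendsto _).comp hlim'
  refine le_of_forall_pos_le_add fun ε hε => ?_
  have hev : ∀ᶠ k in atTop, L (Lewis.Wop (φ k + 1) Φ) < 6 * (n₀ : ℝ) ^ 2 + ε :=
    hLt.eventually_lt_const (lt_of_le_of_lt htrW (by linarith))
  obtain ⟨k₀, hk₀⟩ := eventually_atTop.1 hev
  refine gp_key (dualS N hdef) 1 zero_le_one (fun x => ?_) (ContinuousLinearMap.adjoint A)
    (fun _ => ContinuousLinearMap.adjoint A) tendsto_const_nhds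
    (fun k => φ (k + k₀) + 1) (hMk.comp (tendsto_add_atTop_nat k₀))
    (fun k => Nat.le_add_left 1 _) _ (fun k => ?_)
  · have := dualN_le_norm (N := N) one_pos (fun x => by simpa using h1 x) x
    simpa using this
  · have h := (hk₀ (k + k₀) (Nat.le_add_left _ _)).le
    refine le_trans (le_of_eq ?_) h
    exact (htr _).symm

end D7u
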