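import Pool.Agent.H.MP_d7d3dc_an.h17.KKb

/-!
MP_d7d3dc_an, upper bound for `D_m`: continuous functional calculus for symmetric operators.
-/

set_option autoImplicit false

namespace D7u

open D546neg MeasureTheory ProbabilityTheory Set
open scoped RealInnerProductSpace BigOperators

private lemma fc_dg_sub {n : ℕ} (e : OrthonormalBasis (Fin n) ℝ (E n)) (c d : Fin n → ℝ) :
    dg e c - dg e d = dg e (fun i => c i - d i) := by
  refine ext_basis e fun i => ?_
  rw [sub_apply, dg_basis, dg_basis, dg_basis, sub_smul]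

private lemma fc_dg_norm {n : ℕ} (e : OrthonormalBasis (Fin n) ℝ (E n)) (c : Fin n → ℝ) (M : ℝ)
    (hM : 0 ≤ M) (hc : ∀ i, |c i| ≤ M) : ‖dg e c‖ ≤ M := by
  refine ContinuousLinearMap.opNorm_le_bound _ hM fun x => ?_
  have h1 : ‖dg e c x‖ ^ 2 ≤ (M * ‖x‖) ^ 2 := by
    rw [← sum_inner_sq e (dg e c x), mul_pow, ← sum_inner_sq e x, Finset.mul_sum]
    refine Finset.sum_le_sum fun i _ => ?_
    rw [inner_dg, mul_pow]
    refine mul_le_mul_of_nonneg_right ?_ (sq_nonneg _)
    exact sq_le_sq' (by have := (abs_le.1 (hc i)).1; linarith) (abs_le.1 (hc i)).2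
  exact le_of_sq_le_sq h1 (by positivity)

private lemma fc_pow {n : ℕ} (e : OrthonormalBasis (Fin n) ℝ (E n)) (s : Fin n → ℝ) (k : ℕ)
    (i : Fin n) : ((dg e s) ^ k) (e i) = (s i) ^ k • e i := by
  induction k with
  | zero => simp
  | succ k ih =>
    rw [pow_succ, mul_apply_eq_comp, dg_basis, map_smul, ih, smul_smul, pow_succ,
      mul_comm]

private lemma fc_aeval {n : ℕ} (e : OrthonormalBasis (Fin n) ℝ (E n)) (s : Fin n → ℝ)
    (p : Polynomial ℝ) : Polynomial.aeval (dg e s) p = dg e (fun i => p.eval (s i)) := by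
  refine ext_basis e fun i => ?_
  rw [dg_basis]
  induction p using Polynomial.induction_on' with
  | add p q hp hq =>
    rw [map_add, add_apply, hp, hq, Polynomial.eval_add, add_smul]
  | monomial k a =>
    rw [Polynomial.aeval_monomial, Polynomial.eval_monomial, mul_apply_eq_comp,
      fc_pow, map_smul]
    rw [Algebra.algebraMap_eq_smul_one, ContinuousLinearMap.smul_apply,
      ContinuousLinearMap.one_apply, smul_smul, mul_comm]

theorem exists_fc (n : ℕ) (a b : ℝ) (f : ℝ → ℝ) (hf : ContinuousOn f (Icc a b)) :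
    ∃ Φ : (E n →L[ℝ] E n) → (E n →L[ℝ] E n), ContinuousOn Φ (KK n a b) ∧
      ∀ T ∈ KK n a b, ∀ (x : E n) (s : ℝ), T x = s • x → Φ T x = f s • x := by
  classical
  have hW : ∀ k : ℕ, ∃ p : Polynomial ℝ, ∀ x ∈ Set.Icc a b, |p.eval x - f x| < 1 / ((k : ℝ) + 1) :=
    fun k => exists_polynomial_near_of_continuousOn a b f hf _ (by positivity)
  choose p hp using hW
  have hS : ∀ T : E n →L[ℝ] E n, ∃ es : OrthonormalBasis (Fin n) ℝ (E n) × (Fin n → ℝ),
      T ∈ KK n a b → (∀ i, a ≤ es.2 i ∧ es.2 i ≤ b) ∧ T = dg es.1 es.2 := by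
    intro T
    by_cases hT : T ∈ KK n a b
    · obtain ⟨e, s, h1, h2⟩ := KK_spectral n a b T hT
      exact ⟨(e, s), fun _ => ⟨h1, h2⟩⟩
    · exact ⟨(EuclideanSpace.basisFun (Fin n) ℝ, fun _ => 0), fun h => absurd h hT⟩
  choose es hes using hS
  refine ⟨fun T => dg (es T).1 (fun i => f ((es T).2 i)), ?_, ?_⟩
  · have hu : TendstoUniformlyOn (fun (k : ℕ) (T : E n →L[ℝ] E n) => Polynomial.aeval T (p k))
        (fun T => dg (es T).1 (fun i => f ((es T).2 i))) Filter.atTop (KK n a b) := by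
      rw [Metric.tendstoUniformlyOn_iff]
      intro ε hε
      obtain ⟨N, hN⟩ := exists_nat_one_div_lt hε
      refine Filter.eventually_atTop.2 ⟨N, fun k hk T hT => ?_⟩
      obtain ⟨h1, h2⟩ := hes T hT
      have h3 : Polynomial.aeval T (p k)
          = dg (es T).1 (fun i => (p k).eval ((es T).2 i)) := by
        conv_lhs => rw [h2]
        exact fc_aeval _ _ _
      show dist (dg (es T).1 (fun i => f ((es T).2 i))) (Polynomial.aeval T (p k)) < ε
      rw [h3, dist_comm, dist_eq_norm, fc_dg_sub]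
      refine lt_of_le_of_lt (fc_dg_norm _ _ (1 / ((k : ℝ) + 1)) (by positivity) fun i => ?_) ?_
      · exact (hp k _ ⟨(h1 i).1, (h1 i).2⟩).le
      · refine lt_of_le_of_lt ?_ hN
        exact Nat.one_div_le_one_div hk
    exact hu.continuousOn (Filter.Frequently.of_forall fun k =>
      ((p k).continuous_aeval).continuousOn)
  · intro T hT x t hx
    obtain ⟨h1, h2⟩ := hes T hT
    have h3 : ∀ i, (es T).2 i * ⟪(es T).1 i, x⟫ = t * ⟪(es T).1 i, x⟫ := by
      intro i
      rw [← inner_dg, ← h2, hx, real_inner_smul_right]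
    show dg (es T).1 (fun i => f ((es T).2 i)) x = f t • x
    have h4 : x = ∑ i, ⟪(es T).1 i, x⟫ • (es T).1 i := ((es T).1.sum_repr' x).symm
    rw [dg_apply]
    conv_rhs => rw [h4]
    rw [Finset.smul_sum]
    refine Finset.sum_congr rfl fun i _ => ?_
    rw [smul_smul]
    congr 1
    by_cases h0 : ⟪(es T).1 i, x⟫ = 0
    · rw [h0, mul_zero, mul_zero]
    · rw [mul_right_cancel₀ h0 (h3 i)]

end D7u
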