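import Pool.Agent.H.MP_d546a0_lc.neg.Defs

/-!
MP_d7d3dc_an, upper bound for `D_m`: John's theorem.
-/

set_option autoImplicit false

namespace D7u

open D546neg
open scoped RealInnerProductSpace BigOperators

private noncomputable def johnU (n : ℕ) (e : E n) (a b : ℝ) : E n →L[ℝ] E n :=
  b • ContinuousLinearMap.id ℝ (E n) + (a - b) • (innerSL ℝ e).smulRight e

private lemma johnU_apply (n : ℕ) (e : E n) (a b : ℝ) (x : E n) :
    johnU n e a b x = b • x + ((a - b) * ⟪e, x⟫) • e := by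
  simp [johnU, smul_smul]

private lemma johnU_det (n : ℕ) (hn : 1 ≤ n) (e : E n) (he : ‖e‖ = 1) (a b : ℝ) (hb : b ≠ 0) :
    (johnU n e a b).det = a * b ^ (n - 1) := by
  classical
  let B := (EuclideanSpace.basisFun (Fin n) ℝ).toBasis
  have h0 : (johnU n e a b).det = LinearMap.det (johnU n e a b : E n →ₗ[ℝ] E n) := rfl
  rw [h0, ← LinearMap.det_toMatrix B]
  have h1 : LinearMap.toMatrix B B (johnU n e a b : E n →ₗ[ℝ] E n)
      = b • (1 + Matrix.replicateCol Unit (fun i => ((a - b) / b) * e i)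
          * Matrix.replicateRow Unit (fun i => e i)) := by
    ext i j
    rw [LinearMap.toMatrix_apply]
    have h2 : (B j : E n) = EuclideanSpace.single j (1 : ℝ) := by
      simp [B]
    have h3 : ⟪e, EuclideanSpace.single j (1 : ℝ)⟫ = e j := by
      simp [EuclideanSpace.inner_single_right]
    have h4 : B.repr (johnU n e a b (B j)) i = (johnU n e a b (B j)) i := by
      simp [B]
    rw [ContinuousLinearMap.coe_coe, h4, h2, johnU_apply, h3]
    simp only [PiLp.add_apply, PiLp.smul_apply, PiLp.single_apply, smul_eq_mul,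
      Matrix.smul_apply, Matrix.add_apply, Matrix.one_apply, Matrix.mul_apply,
      Matrix.replicateCol_apply, Matrix.replicateRow_apply, Finset.univ_unique,
      Finset.sum_singleton]
    field_simp
  rw [h1, Matrix.det_smul, Matrix.det_one_add_replicateCol_mul_replicateRow]
  have h5 : (fun i => e i) ⬝ᵥ (fun i => ((a - b) / b) * e i) = (a - b) / b := by
    have h6 : ∑ i, (e i) ^ 2 = 1 := by
      have := EuclideanSpace.norm_sq_eq e
      rw [he] at this
      simpa using this.symm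
    simp only [dotProduct]
    rw [show (∑ i, e i * ((a - b) / b * e i)) = ((a - b) / b) * ∑ i, (e i) ^ 2 from by
      rw [Finset.mul_sum]; exact Finset.sum_congr rfl fun i _ => by ring]
    rw [h6, mul_one]
  rw [h5, Fintype.card_fin]
  obtain ⟨k, rfl⟩ : ∃ k, n = k + 1 := ⟨n - 1, by omega⟩
  simp only [Nat.add_sub_cancel, pow_succ]
  field_simp
  ring

private lemma john_norm (n : ℕ) (e x : E n) (he : ‖e‖ = 1) (hx : ‖x‖ = 1) (b s : ℝ) :
    ‖b • x + s • e‖ ^ 2 = b ^ 2 + 2 * b * s * ⟪e, x⟫ + s ^ 2 := by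
  rw [norm_add_sq_real, norm_smul, norm_smul, he, hx, inner_smul_left, inner_smul_right,
    real_inner_comm]
  simp only [Real.norm_eq_abs, mul_one, sq_abs, conj_trivial]
  ring

private lemma john_core (n : ℕ) (N : Seminorm ℝ (E n)) (h1 : ∀ x, N x ≤ ‖x‖) (e : E n)
    (he : ‖e‖ = 1) (r : ℝ) (hr : 1 < r) (hN : N (r • e) ≤ 1) (ε a b : ℝ) (hε0 : 0 < ε)
    (hε1 : ε < 1) (ha : 0 ≤ a) (ha2 : a ^ 2 = 1 + ε * (r ^ 2 - 1)) (hb2 : b ^ 2 = 1 - ε)
    (x : E n) (hx : ‖x‖ = 1) (hc : 0 ≤ ⟪e, x⟫) : N (johnU n e a b x) ≤ 1 := by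
  set c := ⟪e, x⟫ with hcdef
  have hc1 : c ≤ 1 := by
    have := real_inner_le_norm e x
    rw [he, hx] at this
    linarith
  have hr2 : 0 < r ^ 2 - 1 := by nlinarith
  have ha1 : 1 ≤ a := by
    have h2 : 0 < ε * (r ^ 2 - 1) := mul_pos hε0 hr2
    nlinarith
  have har : a ≤ r := by
    have h2 : ε * (r ^ 2 - 1) ≤ r ^ 2 - 1 := by nlinarith
    nlinarith
  rw [johnU_apply, ← hcdef]
  by_cases hX : r * c ≤ 1
  · refine (h1 _).trans ?_
    have h2 := john_norm n e x he hx b ((a - b) * c)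
    rw [← hcdef] at h2
    have h3 : ‖b • x + ((a - b) * c) • e‖ ^ 2 ≤ 1 := by
      rw [h2]
      have h4 : b ^ 2 + 2 * b * ((a - b) * c) * c + ((a - b) * c) ^ 2
          = b ^ 2 + (a ^ 2 - b ^ 2) * c ^ 2 := by ring
      rw [h4, ha2, hb2]
      have h5 : (r * c) ^ 2 ≤ 1 := by
        have : 0 ≤ r * c := by positivity
        nlinarith
      have h6 : 1 - ε + (1 + ε * (r ^ 2 - 1) - (1 - ε)) * c ^ 2
          = 1 - ε + ε * (r * c) ^ 2 := by ring
      rw [h6]
      nlinarith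
    have h7 := norm_nonneg (b • x + ((a - b) * c) • e)
    nlinarith
  · push Not at hX
    set τ := (a * (r * c) - 1) / (r ^ 2 - 1) with hτ
    have hXr : r * c ≤ r := by nlinarith
    have hτ0 : 0 ≤ τ := by
      apply div_nonneg _ hr2.le
      nlinarith
    have hτ1 : τ ≤ 1 := by
      rw [hτ, div_le_one hr2]
      nlinarith
    have hτm : τ * (r ^ 2 - 1) = a * (r * c) - 1 := by
      rw [hτ]; field_simp
    have h2 : b • x + ((a - b) * c) • e
        = τ • (r • e) + (b • x + ((a - b) * c - τ * r) • e) := by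
      rw [smul_smul, sub_smul ((a - b) * c)]
      abel
    rw [h2]
    have h3 : N (τ • (r • e)) ≤ τ := by
      rw [map_smul_eq_mul, Real.norm_of_nonneg hτ0]
      nlinarith
    have h4 := john_norm n e x he hx b ((a - b) * c - τ * r)
    rw [← hcdef] at h4
    have h5 : ‖b • x + ((a - b) * c - τ * r) • e‖ ^ 2 ≤ (1 - τ) ^ 2 := by
      rw [h4]
      have h6 : b ^ 2 + 2 * b * ((a - b) * c - τ * r) * c + ((a - b) * c - τ * r) ^ 2
          = (a * c - τ * r) ^ 2 + b ^ 2 * (1 - c ^ 2) := by ring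
      rw [h6]
      have h7 : (1 - τ) ^ 2 - ((a * c - τ * r) ^ 2 + b ^ 2 * (1 - c ^ 2))
          = 1 - a ^ 2 * c ^ 2 - b ^ 2 * (1 - c ^ 2) + 2 * τ * (a * (r * c) - 1)
            - τ * (τ * (r ^ 2 - 1)) := by ring
      have h8 : (1 - τ) ^ 2 - ((a * c - τ * r) ^ 2 + b ^ 2 * (1 - c ^ 2))
          = τ * (a * (r * c) - 1) - ε * ((r * c) ^ 2 - 1) := by
        rw [h7, hτm, ha2, hb2]; ring
      have h9 : (r ^ 2 - 1) * (τ * (a * (r * c) - 1) - ε * ((r * c) ^ 2 - 1))
          = (r * c - a) ^ 2 := by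
        have e1 : (r ^ 2 - 1) * (τ * (a * (r * c) - 1) - ε * ((r * c) ^ 2 - 1))
            = (τ * (r ^ 2 - 1)) * (a * (r * c) - 1)
              - (ε * (r ^ 2 - 1)) * ((r * c) ^ 2 - 1) := by ring
        have e2 : ε * (r ^ 2 - 1) = a ^ 2 - 1 := by linarith
        rw [e1, hτm, e2]; ring
      have h10 : 0 ≤ τ * (a * (r * c) - 1) - ε * ((r * c) ^ 2 - 1) := by
        by_contra hneg
        push Not at hneg
        have : (r ^ 2 - 1) * (τ * (a * (r * c) - 1) - ε * ((r * c) ^ 2 - 1)) < 0 :=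
          mul_neg_of_pos_of_neg hr2 hneg
        rw [h9] at this
        have := sq_nonneg (r * c - a)
        linarith
      linarith
    have h11 : ‖b • x + ((a - b) * c - τ * r) • e‖ ≤ 1 - τ := by
      have h12 := norm_nonneg (b • x + ((a - b) * c - τ * r) • e)
      have h13 : 0 ≤ 1 - τ := by linarith
      exact le_of_sq_le_sq_of_nonneg' h5 h13
    have h14 := map_add_le_add N (τ • (r • e)) (b • x + ((a - b) * c - τ * r) • e)
    have h15 := h1 (b • x + ((a - b) * c - τ * r) • e)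
    linarith
where
  le_of_sq_le_sq_of_nonneg' {u v : ℝ} (h : u ^ 2 ≤ v ^ 2) (hv : 0 ≤ v) : u ≤ v :=
    le_of_sq_le_sq h hv

/-- the volume increasing operator: if `1 + r⁻² ...`; see the job text. -/
theorem john_step (n : ℕ) (N : Seminorm ℝ (E n)) (h1 : ∀ x, N x ≤ ‖x‖) (e : E n)
    (he : ‖e‖ = 1) (r : ℝ) (hr : √n < r) (hN : N (r • e) ≤ 1) :
    ∃ u : E n →L[ℝ] E n, (∀ x, N (u x) ≤ ‖x‖) ∧ 1 < u.det := by
  have hn : 1 ≤ n := by
    by_contra h
    have h0 : n = 0 := by omega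
    subst h0
    have : e = 0 := Subsingleton.elim _ _
    rw [this, norm_zero] at he
    exact zero_ne_one he
  have hn' : (1 : ℝ) ≤ n := by exact_mod_cast hn
  have hsn : 1 ≤ √(n : ℝ) := by
    rw [show (1 : ℝ) = √1 from by simp]
    exact Real.sqrt_le_sqrt hn'
  have hr1 : 1 < r := lt_of_le_of_lt hsn hr
  have hrn : (n : ℝ) < r ^ 2 := by
    have : √(n : ℝ) ^ 2 = n := Real.sq_sqrt (by linarith)
    nlinarith
  set ε : ℝ := (r ^ 2 - n) / (2 * n * r ^ 2) with hε
  have hden : 0 < 2 * (n : ℝ) * r ^ 2 := by positivity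
  have hε0 : 0 < ε := div_pos (by linarith) hden
  have hεm : ε * (2 * n * r ^ 2) = r ^ 2 - n := by
    rw [hε]; field_simp
  have hε1 : ε < 1 := by
    rw [hε, div_lt_one hden]
    nlinarith
  set a : ℝ := √(1 + ε * (r ^ 2 - 1)) with ha
  set b : ℝ := √(1 - ε) with hb
  have hr2 : 0 < r ^ 2 - 1 := by nlinarith
  have ha2 : a ^ 2 = 1 + ε * (r ^ 2 - 1) := Real.sq_sqrt (by positivity)
  have hb2 : b ^ 2 = 1 - ε := Real.sq_sqrt (by linarith)
  have hb0 : 0 < b := Real.sqrt_pos.mpr (by linarith)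
  have ha0 : 0 < a := Real.sqrt_pos.mpr (by positivity)
  refine ⟨johnU n e a b, fun x => ?_, ?_⟩
  · have core : ∀ y : E n, ‖y‖ = 1 → N (johnU n e a b y) ≤ 1 := by
      intro y hy
      rcases le_total 0 ⟪e, y⟫ with hc | hc
      · exact john_core n N h1 e he r hr1 hN ε a b hε0 hε1 ha0.le ha2 hb2 y hy hc
      · have h2 := john_core n N h1 e he r hr1 hN ε a b hε0 hε1 ha0.le ha2 hb2 (-y)
          (by rw [norm_neg]; exact hy) (by rw [inner_neg_right]; linarith)
        rw [map_neg, map_neg_eq_map] at h2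
        exact h2
    by_cases hx : x = 0
    · simp [hx]
    · have hx' : ‖x‖ ≠ 0 := norm_ne_zero_iff.mpr hx
      have h3 := core (‖x‖⁻¹ • x) (by rw [norm_smul, norm_inv, norm_norm]; field_simp)
      rw [map_smul, map_smul_eq_mul, norm_inv, norm_norm, inv_mul_le_iff₀ (by positivity),
        mul_one] at h3
      exact h3
  · rw [johnU_det n hn e he a b hb0.ne']
    have h4 : 1 < (a * b ^ (n - 1)) ^ 2 := by
      have h5 : (a * b ^ (n - 1)) ^ 2 = a ^ 2 * (b ^ 2) ^ (n - 1) := by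
        rw [mul_pow, ← pow_mul, ← pow_mul, mul_comm (n - 1) 2]
      rw [h5, ha2, hb2]
      have h6 : 1 + ((n - 1 : ℕ) : ℝ) * (-ε) ≤ (1 + (-ε)) ^ (n - 1) :=
        one_add_mul_le_pow (by linarith) (n - 1)
      have h7 : ((n - 1 : ℕ) : ℝ) = n - 1 := by
        rw [Nat.cast_sub hn]; simp
      rw [h7, ← sub_eq_add_neg] at h6
      have h8 : 0 < 1 + ε * (r ^ 2 - 1) := by positivity
      refine lt_of_lt_of_le ?_ (mul_le_mul_of_nonneg_left h6 h8.le)
      have h9 : (1 + ε * (r ^ 2 - 1)) * (1 + ((n : ℝ) - 1) * -ε)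
          = 1 + ε * ((r ^ 2 - n) - ε * (r ^ 2 - 1) * (n - 1)) := by ring
      rw [h9]
      have h10 : ε * (r ^ 2 - 1) * (n - 1) ≤ ε * (r ^ 2 * n) := by
        rw [mul_assoc]
        apply mul_le_mul_of_nonneg_left _ hε0.le
        nlinarith
      have h11 : ε * (r ^ 2 * n) = (r ^ 2 - n) / 2 := by
        rw [← hεm]; ring
      have h12 : 0 < (r ^ 2 - n) - ε * (r ^ 2 - 1) * (n - 1) := by linarith
      have := mul_pos hε0 h12
      linarith
    have h13 : 0 < a * b ^ (n - 1) := by positivity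
    nlinarith

private lemma john_det_smul {n : ℕ} (c : ℝ) (A : E n →L[ℝ] E n) :
    (c • A).det = c ^ n * A.det := by
  have h : (c • A).det = LinearMap.det (c • (A : E n →ₗ[ℝ] E n)) := rfl
  rw [h, LinearMap.det_smul]
  simp [ContinuousLinearMap.det]

private lemma john_exists_max (n : ℕ) (N : Seminorm ℝ (E n)) (hd : Definite N) :
    ∃ S : E n →L[ℝ] E n, (∀ x, N (S x) ≤ ‖x‖) ∧ 0 < S.det ∧
      ∀ T : E n →L[ℝ] E n, (∀ x, N (T x) ≤ ‖x‖) → T.det ≤ S.det := by
  obtain ⟨c, hc, hcN⟩ := hd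
  obtain ⟨d, hd, hdN⟩ := seminorm_le_norm N
  have hcomp : IsCompact {A : E n →L[ℝ] E n | ∀ x, N (A x) ≤ ‖x‖} := by
    refine Metric.isCompact_of_isClosed_isBounded ?_ ?_
    · rw [Set.ofPred_forall]
      refine isClosed_iInter fun x => ?_
      refine isClosed_le ?_ continuous_const
      exact (seminorm_continuous N).comp (ContinuousLinearMap.apply ℝ (E n) x).continuous
    · refine (Metric.isBounded_closedBall (x := (0 : E n →L[ℝ] E n)) (r := c⁻¹)).subset ?_
      intro A hA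
      simp only [mem_closedBall_zero_iff]
      refine ContinuousLinearMap.opNorm_le_bound _ (by positivity) fun x => ?_
      have h1 := hcN (A x)
      have h2 := hA x
      rw [inv_mul_eq_div, le_div_iff₀ hc]
      linarith
  obtain ⟨S, hS, hmax⟩ := hcomp.exists_isMaxOn ⟨0, by simp⟩
    (f := fun A : E n →L[ℝ] E n => A.det) ContinuousLinearMap.continuous_det.continuousOn
  have hmax' : ∀ A : E n →L[ℝ] E n, (∀ x, N (A x) ≤ ‖x‖) → A.det ≤ S.det :=
    fun A hA => hmax hA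
  refine ⟨S, hS, ?_, hmax'⟩
  have h2 : ∀ x, N ((d⁻¹ • ContinuousLinearMap.id ℝ (E n)) x) ≤ ‖x‖ := by
    intro x
    have h3 := hdN x
    simp only [smul_apply, ContinuousLinearMap.id_apply]
    rw [map_smul_eq_mul, norm_inv, Real.norm_of_nonneg hd.le, inv_mul_le_iff₀ hd]
    exact h3
  refine lt_of_lt_of_le ?_ (hmax' _ h2)
  rw [john_det_smul]
  have : (ContinuousLinearMap.id ℝ (E n)).det = 1 := by
    simp [ContinuousLinearMap.det]
  rw [this]
  positivity

/-- John's theorem: distance at most `√n` to the Euclidean space. -/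
theorem john (n : ℕ) (X : Type) [NormedAddCommGroup X] [NormedSpace ℝ X]
    [FiniteDimensional ℝ X] (hX : Module.finrank ℝ X = n) :
    ∃ u : E n ≃L[ℝ] X, ∀ x, ‖x‖ ≤ ‖u x‖ ∧ ‖u x‖ ≤ √n * ‖x‖ := by
  have hfr : Module.finrank ℝ (E n) = Module.finrank ℝ X := by simp [hX]
  let u₀ : E n ≃L[ℝ] X := ContinuousLinearEquiv.ofFinrankEq hfr
  rcases Nat.eq_zero_or_pos n with h0 | hpos
  · refine ⟨u₀, fun x => ?_⟩
    subst h0
    have : x = 0 := Subsingleton.elim _ _
    simp [this]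
  let N₀ : Seminorm ℝ (E n) := (normSeminorm ℝ X).comp (u₀ : E n →ₗ[ℝ] X)
  have hN₀ : ∀ x, N₀ x = ‖u₀ x‖ := fun x => rfl
  have hdef : Definite N₀ := by
    obtain ⟨K, hK, hKb⟩ := (u₀.symm : X →L[ℝ] E n).bound
    refine ⟨K⁻¹, inv_pos.mpr hK, fun x => ?_⟩
    rw [hN₀, inv_mul_le_iff₀ hK]
    have := hKb (u₀ x)
    simpa using this
  obtain ⟨S, hS1, hS2, hS3⟩ := john_exists_max n N₀ hdef
  let s : E n ≃L[ℝ] E n := S.toContinuousLinearEquivOfDetNeZero hS2.ne'
  have hs : ∀ x, s x = S x := fun x => by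
    show (s : E n →L[ℝ] E n) x = S x
    rw [show (s : E n →L[ℝ] E n) = S from
      ContinuousLinearMap.coe_toContinuousLinearEquivOfDetNeZero _ _]
  let w : E n ≃L[ℝ] X := s.trans u₀
  have hw : ∀ x, w x = u₀ (S x) := fun x => by
    show u₀ (s x) = _
    rw [hs]
  have hw1 : ∀ x, ‖w x‖ ≤ ‖x‖ := fun x => by
    rw [hw]; exact hS1 x
  have hsq : 0 < √(n : ℝ) := Real.sqrt_pos.mpr (by exact_mod_cast hpos)
  have key : ∀ x, ‖x‖ ≤ √n * ‖w x‖ := by
    intro x
    by_contra hcon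
    push Not at hcon
    have hx : x ≠ 0 := by
      rintro rfl
      simp at hcon
    have hxn : 0 < ‖x‖ := norm_pos_iff.mpr hx
    let N : Seminorm ℝ (E n) := (normSeminorm ℝ X).comp (w : E n →ₗ[ℝ] X)
    have hN : ∀ y, N y = ‖w y‖ := fun y => rfl
    have hwx : 0 < ‖w x‖ := by
      rw [norm_pos_iff]
      intro h
      exact hx (w.injective (by rw [h, map_zero]))
    obtain ⟨u, hu1, hu2⟩ := john_step n N (fun y => hw1 y) (‖x‖⁻¹ • x)
      (by rw [norm_smul, norm_inv, norm_norm]; field_simp) (‖x‖ / ‖w x‖)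
      (by rw [lt_div_iff₀ hwx]; exact hcon)
      (by
        rw [hN, smul_smul, map_smul, norm_smul]
        rw [Real.norm_of_nonneg (by positivity)]
        apply le_of_eq
        field_simp)
    have h5 : (S.comp u).det = S.det * u.det := by
      simp only [ContinuousLinearMap.det, ContinuousLinearMap.toLinearMap_comp]
      exact LinearMap.det_comp _ _
    have h6 := hS3 (S.comp u) (fun y => by
      have := hu1 y
      rw [hN, hw] at this
      exact this)
    rw [h5] at h6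
    nlinarith
  have hne : √(n : ℝ) ≠ 0 := hsq.ne'
  let v : E n ≃L[ℝ] X := (ContinuousLinearEquiv.smulLeft (Units.mk0 (√(n : ℝ)) hne)).trans w
  refine ⟨v, fun x => ?_⟩
  have hv : ‖v x‖ = √n * ‖w x‖ := by
    have : v x = √(n : ℝ) • w x := by
      have h7 : v x = w (√(n : ℝ) • x) := rfl
      rw [h7, map_smul]
    rw [this, norm_smul, Real.norm_of_nonneg hsq.le]
  rw [hv]
  exact ⟨key x, mul_le_mul_of_nonneg_left (hw1 x) hsq.le⟩

end D7u
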