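import Pool.Agent.H.MP_d7d3dc_an.h17.Base
import Pool.Agent.H.MP_d7d3dc_an.h17.CL

/-!
MP_d7d3dc_an, upper bound for `D_m`: from a biorthogonal system to the Banach-Mazur distance.
-/

set_option autoImplicit false

namespace D7u

open D546neg Pool.Agent.H.MP_d7d3dc_an
open scoped RealInnerProductSpace ENNReal BigOperators

/-- expansion in a biorthogonal system. -/
private lemma Sys_expand {n : ℕ} (x y : Fin n → E n)
    (hxy : ∀ i j, ⟪x i, y j⟫ = if i = j then (1 : ℝ) else 0) (z : E n) :
    ∑ i, ⟪z, y i⟫ • x i = z := by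
  have hli : LinearIndependent ℝ x := by
    rw [Fintype.linearIndependent_iff]
    intro g hg i
    have h1 : ⟪∑ j, g j • x j, y i⟫ = 0 := by rw [hg, inner_zero_left]
    rw [sum_inner] at h1
    simpa [real_inner_smul_left, hxy] using h1
  have hspan : Submodule.span ℝ (Set.range x) = ⊤ :=
    hli.span_eq_top_of_card_eq_finrank' (by simp)
  have hz : z ∈ Submodule.span ℝ (Set.range x) := by rw [hspan]; trivial
  obtain ⟨c, hc⟩ := (Submodule.mem_span_range_iff_exists_fun ℝ).1 hz
  have h2 : ∀ i, ⟪z, y i⟫ = c i := by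
    intro i
    rw [← hc, sum_inner]
    simp [real_inner_smul_left, hxy]
  rw [Finset.sum_congr rfl fun i _ => by rw [h2 i]]
  exact hc

/-- sum over all indices of a function grouped in blocks. -/
private lemma Sys_group {n : ℕ} {V : Type*} [AddCommMonoid V] (β : Fin n → Fin n) (f : Fin n → V) :
    ∑ i, f i = ∑ b, ∑ i ∈ Finset.univ.filter (fun i => β i = b), f i :=
  (Finset.sum_fiberwise _ _ _).symm

theorem bmDist_le_of_system {n : ℕ} (X : Type) [NormedAddCommGroup X] [NormedSpace ℝ X]
    (u : E n ≃L[ℝ] X) (x y : Fin n → E n)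
    (hxy : ∀ i j, ⟪x i, y j⟫ = if i = j then (1 : ℝ) else 0) (β : Fin n → Fin n)
    (A : Fin n → ℝ) (hA : ∀ b, 0 < A b)
    (h1 : ∀ (b : Fin n) (ε : Fin n → ℝ), (∀ i, ε i = 1 ∨ ε i = -1) →
      ‖u (∑ i ∈ Finset.univ.filter (fun i => β i = b), ε i • x i)‖ ≤ A b)
    (C : ℝ) (h2 : ∀ z, ∑ b, A b * ‖(fun i => ⟪z, y i⟫ : {i : Fin n // β i = b} → ℝ)‖
      ≤ C * ‖u z‖) :
    bmDist X (CL β) ≤ ENNReal.ofReal C := by
  classical
  -- the map `F : X → CL β`
  let F : X →ₗ[ℝ] CL β :=
    { toFun := fun w => WithLp.toLp 1 (fun b => (fun i => A b * ⟪u.symm w, y i⟫))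
      map_add' := by
        intro v w
        ext b i
        simp [inner_add_left, mul_add]
      map_smul' := by
        intro c w
        ext b i
        simp [real_inner_smul_left]
        ring }
  let G : CL β →ₗ[ℝ] X :=
    { toFun := fun c => u (∑ i, (c (β i) ⟨i, rfl⟩ / A (β i)) • x i)
      map_add' := by
        intro v w
        rw [← map_add, ← Finset.sum_add_distrib]
        congr 1
        refine Finset.sum_congr rfl fun i _ => ?_
        rw [← add_smul]
        simp [add_div]
      map_smul' := by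
        intro c w
        rw [RingHom.id_apply, ← map_smul, Finset.smul_sum]
        congr 1
        refine Finset.sum_congr rfl fun i _ => ?_
        rw [smul_smul]
        simp [mul_div_assoc] }
  have hFapp : ∀ w b i, F w b i = A b * ⟪u.symm w, y i⟫ := fun _ _ _ => rfl
  have hGapp : ∀ c, G c = u (∑ i, (c (β i) ⟨i, rfl⟩ / A (β i)) • x i) := fun _ => rfl
  have hGF : ∀ w, G (F w) = w := by
    intro w
    rw [hGapp]
    have : ∀ i, (F w (β i) ⟨i, rfl⟩ / A (β i)) = ⟪u.symm w, y i⟫ := by
      intro i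
      rw [hFapp]
      field_simp [(hA (β i)).ne']
    simp_rw [this]
    rw [Sys_expand x y hxy, ContinuousLinearEquiv.apply_symm_apply]
  have hFG : ∀ c, F (G c) = c := by
    intro c
    ext b ⟨i, hi⟩
    subst hi
    rw [hFapp, hGapp, ContinuousLinearEquiv.symm_apply_apply, sum_inner]
    simp only [real_inner_smul_left, hxy]
    simp only [mul_ite, mul_one, mul_zero, Finset.sum_ite_eq', Finset.mem_univ, if_true]
    field_simp [(hA (β i)).ne']
  have hFnorm : ∀ w, ‖F w‖ ≤ C * ‖w‖ := by
    intro w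
    have h3 : ‖F w‖ = ∑ b, ‖F w b‖ := PiLp.norm_eq_of_L1 _
    rw [h3]
    have h4 : ∀ b, ‖F w b‖ = A b * ‖(fun i => ⟪u.symm w, y i⟫ : {i : Fin n // β i = b} → ℝ)‖ := by
      intro b
      have : F w b = A b • (fun i => ⟪u.symm w, y i⟫ : {i : Fin n // β i = b} → ℝ) := by
        ext i
        simp [hFapp]
      rw [this, norm_smul, Real.norm_of_nonneg (hA b).le]
    simp_rw [h4]
    have := h2 (u.symm w)
    rwa [ContinuousLinearEquiv.apply_symm_apply] at this
  let P : Seminorm ℝ (E n) := (normSeminorm ℝ X).comp (u : E n →ₗ[ℝ] X)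
  have hP : ∀ z, P z = ‖u z‖ := fun z => rfl
  have hGnorm : ∀ c, ‖G c‖ ≤ 1 * ‖c‖ := by
    intro c
    rw [hGapp, Sys_group β, map_sum, one_mul, PiLp.norm_eq_of_L1]
    refine (norm_sum_le _ _).trans (Finset.sum_le_sum fun b _ => ?_)
    -- one block
    rcases eq_or_lt_of_le (norm_nonneg (c b)) with h0 | h0
    · have h5 : c b = 0 := norm_eq_zero.1 h0.symm
      have h6 : ∀ i ∈ Finset.univ.filter (fun i => β i = b),
          (c (β i) ⟨i, rfl⟩ / A (β i)) • x i = 0 := by
        intro i hi
        have hb : β i = b := (Finset.mem_filter.1 hi).2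
        subst hb
        rw [h5]
        simp
      rw [Finset.sum_congr rfl h6]
      simp
    · set ρ : ℝ := ‖c b‖ with hρ
      let e : Fin n → ℝ := fun i => if h : β i = b then c b ⟨i, h⟩ / ρ else 0
      have he : ∀ i, |e i| ≤ 1 := by
        intro i
        by_cases h : β i = b
        · have h7 : e i = c b ⟨i, h⟩ / ρ := by simp [e, h]
          rw [h7, abs_div, abs_of_pos h0, div_le_one h0]
          exact norm_le_pi_norm (c b) ⟨i, h⟩
        · simp [e, h]
      have h8 := seminorm_cube_le P (Finset.univ.filter (fun i => β i = b)) x (A b)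
        (fun ε hε => by rw [hP]; exact h1 b ε hε) e he
      have h9 : ∑ i ∈ Finset.univ.filter (fun i => β i = b), (c (β i) ⟨i, rfl⟩ / A (β i)) • x i
          = (ρ / A b) • ∑ i ∈ Finset.univ.filter (fun i => β i = b), e i • x i := by
        rw [Finset.smul_sum]
        refine Finset.sum_congr rfl fun i hi => ?_
        have hb : β i = b := (Finset.mem_filter.1 hi).2
        rw [smul_smul]
        congr 1
        subst hb
        have h7 : e i = c (β i) ⟨i, rfl⟩ / ρ := by simp [e]
        rw [h7]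
        have := h0.ne'
        have := (hA (β i)).ne'
        field_simp
      rw [h9, map_smul, norm_smul, Real.norm_of_nonneg (div_nonneg h0.le (hA b).le)]
      calc ρ / A b * ‖u (∑ i ∈ Finset.univ.filter (fun i => β i = b), e i • x i)‖
          ≤ ρ / A b * A b := by
            refine mul_le_mul_of_nonneg_left ?_ (div_nonneg h0.le (hA b).le)
            rw [← hP]; exact h8
        _ = ρ := by field_simp [(hA b).ne']
  let Fc : X →L[ℝ] CL β := F.mkContinuous C hFnorm
  let Gc : CL β →L[ℝ] X := G.mkContinuous 1 hGnorm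
  let T : X ≃L[ℝ] CL β := ContinuousLinearEquiv.equivOfInverse Fc Gc hGF hFG
  have hT1 : ‖(T : X →L[ℝ] CL β)‖ ≤ max C 0 := by
    have : (T : X →L[ℝ] CL β) = Fc := by ext1 w; rfl
    rw [this]
    exact F.mkContinuous_norm_le' hFnorm
  have hT2 : ‖(T.symm : CL β →L[ℝ] X)‖ ≤ 1 := by
    have : (T.symm : CL β →L[ℝ] X) = Gc := by ext1 w; rfl
    rw [this]
    exact G.mkContinuous_norm_le zero_le_one hGnorm
  refine (iInf_le _ T).trans ?_
  have h10 : ‖(T : X →L[ℝ] CL β)‖ * ‖(T.symm : CL β →L[ℝ] X)‖ ≤ max C 0 * 1 :=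
    mul_le_mul hT1 hT2 (norm_nonneg _) (le_max_right _ _)
  rw [mul_one] at h10
  rcases le_total 0 C with hC | hC
  · rw [max_eq_left hC] at h10
    exact ENNReal.ofReal_le_ofReal h10
  · rw [max_eq_right hC] at h10
    rw [ENNReal.ofReal_of_nonpos h10]
    exact bot_le

end D7u
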