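import Pool.Agent.H.MP_d7d3dc_an.h17.System
import Pool.Agent.H.MP_d7d3dc_an.h17.Sys
import Pool.Agent.H.MP_d7d3dc_an.h17.John

/-!
MP_d7d3dc_an, upper bound for `D_m`.
-/

set_option autoImplicit false

namespace D7u

open D546neg MeasureTheory ProbabilityTheory Set Pool.Agent.H.MP_d7d3dc_an
open scoped RealInnerProductSpace ENNReal BigOperators

private lemma final_clog (m : ℕ) (hm : 1 ≤ m) :
    ((Nat.clog 2 m + 1 : ℕ) : ℝ) ≤ 3 * (1 + Real.log m) := by
  have hm1 : (1 : ℝ) ≤ m := by exact_mod_cast hm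
  have hlog : 0 ≤ Real.log m := Real.log_nonneg hm1
  have h2 : 2 ^ Nat.clog 2 m ≤ 2 * m := by
    rcases Nat.lt_or_ge 1 m with h | h
    · have h3 := Nat.pow_pred_clog_lt_self (b := 2) (by norm_num) h
      have h4 : 0 < Nat.clog 2 m := Nat.clog_pos (by norm_num) h
      obtain ⟨k, hk⟩ := Nat.exists_eq_succ_of_ne_zero h4.ne'
      rw [hk] at h3 ⊢
      rw [Nat.pow_succ]
      simp only [Nat.succ_eq_add_one, Nat.pred_succ] at h3
      have h5 : 2 ^ k < m := by simpa using h3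
      omega
    · have : m = 1 := by omega
      subst this
      simp
  have h3 : (Nat.clog 2 m : ℝ) * Real.log 2 ≤ Real.log 2 + Real.log m := by
    rw [← Real.log_pow, ← Real.log_mul (by norm_num) (by positivity)]
    refine Real.log_le_log (by positivity) ?_
    exact_mod_cast h2
  have h4 : (0.69 : ℝ) < Real.log 2 := by
    have := Real.log_two_gt_d9
    linarith
  have h5 : (0 : ℝ) ≤ (Nat.clog 2 m : ℝ) := Nat.cast_nonneg _
  have h6 : (Nat.clog 2 m : ℝ) ≤ 1 + 2 * Real.log m := by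
    by_contra hcon
    push Not at hcon
    have h7 : (1 + 2 * Real.log m) * Real.log 2 < (Nat.clog 2 m : ℝ) * Real.log 2 :=
      mul_lt_mul_of_pos_right hcon (by linarith)
    nlinarith
  push_cast
  linarith

private lemma final_logb (m : ℕ) (hm : 1 ≤ m) :
    Real.logb 2 (4 * (m : ℝ) ^ 2 / (1 / (2 * √m))) ≤ 4 * (1 + Real.log m) := by
  have hm1 : (1 : ℝ) ≤ m := by exact_mod_cast hm
  have hm0 : (0 : ℝ) < m := by linarith
  have hlog : 0 ≤ Real.log m := Real.log_nonneg hm1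
  have hs : 0 < √(m : ℝ) := Real.sqrt_pos.2 hm0
  have e1 : 4 * (m : ℝ) ^ 2 / (1 / (2 * √m)) = 2 ^ 3 * (m : ℝ) ^ 2 * √m := by
    field_simp
    ring
  have h4 : (0.69 : ℝ) < Real.log 2 := by
    have := Real.log_two_gt_d9
    linarith
  rw [e1, Real.logb, Real.log_mul (by positivity) (by positivity),
    Real.log_mul (by positivity) (by positivity), Real.log_pow, Real.log_pow, Real.log_sqrt hm0.le,
    div_le_iff₀ (by linarith)]
  push_cast
  nlinarith

private lemma final_lam (m : ℕ) (hm : 1 ≤ m) :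
    √(Real.log (6 * m)) ≤ 2 * (1 + Real.log m) := by
  have hm1 : (1 : ℝ) ≤ m := by exact_mod_cast hm
  have hm0 : (0 : ℝ) < m := by linarith
  have hlog : 0 ≤ Real.log m := Real.log_nonneg hm1
  have h6 : Real.log 6 ≤ 2 := by
    have h7 : (6 : ℝ) ≤ Real.exp 1 ^ 2 := by
      have := Real.exp_one_gt_d9
      nlinarith
    calc Real.log 6 ≤ Real.log (Real.exp 1 ^ 2) := Real.log_le_log (by norm_num) h7
      _ = 2 := by rw [Real.log_pow, Real.log_exp]; norm_num
  rw [Real.log_mul (by norm_num) hm0.ne', Real.sqrt_le_iff]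
  refine ⟨by linarith, ?_⟩
  nlinarith

private lemma final_numeric (m : ℕ) (hm : 1 ≤ m) (J : ℕ)
    (hJ : J = ⌈((Nat.clog 2 m + 1 : ℕ) : ℝ) *
      Real.logb 2 (4 * (m : ℝ) ^ 2 / (1 / (2 * √m)))⌉₊) :
    (J + 1) * (51 * √m * ((J + 1 : ℝ) + 12 * √(Real.log (6 * m))) *
          (6 * ((Nat.clog 2 m + 1 : ℕ) : ℝ) ^ 2 + √(Real.log (6 * m))) *
          (1 + √(Real.log (6 * m)))) ≤ 5000000 * √m * (1 + Real.log m) ^ 7 := by
  have hm1 : (1 : ℝ) ≤ m := by exact_mod_cast hm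
  have hm0 : (0 : ℝ) < m := by linarith
  have hlog : 0 ≤ Real.log m := Real.log_nonneg hm1
  set t : ℝ := 1 + Real.log m with ht
  have ht1 : 1 ≤ t := by linarith
  have hL := final_clog m hm
  have hB := final_logb m hm
  have hΛ := final_lam m hm
  rw [← ht] at hL hB hΛ
  set L : ℝ := ((Nat.clog 2 m + 1 : ℕ) : ℝ) with hLdef
  set Λ : ℝ := √(Real.log (6 * m)) with hΛdef
  have hL0 : 0 ≤ L := Nat.cast_nonneg _
  have hΛ0 : 0 ≤ Λ := Real.sqrt_nonneg _
  have hJ1 : (J : ℝ) + 1 ≤ 14 * t ^ 2 := by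
    have h1 : (J : ℝ) ≤ 12 * t ^ 2 + 1 := by
      rcases le_or_gt (L * Real.logb 2 (4 * (m : ℝ) ^ 2 / (1 / (2 * √m)))) 0 with h | h
      · rw [hJ, Nat.ceil_eq_zero.2 h]
        push_cast
        positivity
      · rw [hJ]
        have h2 := (Nat.ceil_lt_add_one h.le).le
        have h3 : L * Real.logb 2 (4 * (m : ℝ) ^ 2 / (1 / (2 * √m))) ≤ 3 * t * (4 * t) := by
          have h4 : 0 ≤ Real.logb 2 (4 * (m : ℝ) ^ 2 / (1 / (2 * √m))) := by
            by_contra hc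
            push Not at hc
            nlinarith
          exact mul_le_mul hL hB h4 (by positivity)
        nlinarith
    nlinarith
  have hJ0 : (0 : ℝ) ≤ (J : ℝ) + 1 := by positivity
  have h1 : (J : ℝ) + 1 + 12 * Λ ≤ 38 * t ^ 2 := by nlinarith
  have h2 : 6 * L ^ 2 + Λ ≤ 56 * t ^ 2 := by nlinarith
  have h3 : 1 + Λ ≤ 3 * t := by linarith
  have hs : 0 ≤ √(m : ℝ) := Real.sqrt_nonneg _
  calc ((J : ℝ) + 1) * (51 * √m * ((J : ℝ) + 1 + 12 * Λ) * (6 * L ^ 2 + Λ) * (1 + Λ))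
      ≤ (14 * t ^ 2) * (51 * √m * (38 * t ^ 2) * (56 * t ^ 2) * (3 * t)) := by gcongr
    _ = 4558176 * √m * t ^ 7 := by ring
    _ ≤ 5000000 * √m * t ^ 7 := by gcongr; norm_num

theorem maxDist_upper : ∃ C : ℝ, 0 < C ∧ ∀ m : ℕ, 1 ≤ m →
    maxDist m ≤ ENNReal.ofReal (C * √m * (1 + Real.log m) ^ 7) := by
  refine ⟨5000000, by norm_num, fun m hm => ?_⟩
  refine iSup_le fun X => ?_
  obtain ⟨u, hu⟩ := john m X.carrier X.finrank_eq
  set N : Seminorm ℝ (E m) := (normSeminorm ℝ X.carrier).comp (u : E m →ₗ[ℝ] X.carrier) with hN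
  have hNu : ∀ x, N x = ‖u x‖ := fun x => rfl
  obtain ⟨x, y, β, A, hxy, hA, h1, h2⟩ := exists_system m hm N
    (fun x => by rw [hNu]; exact (hu x).1) (fun x => by rw [hNu]; exact (hu x).2)
    (Nat.clog 2 m + 1) _ rfl (Nat.le_ceil _)
  have hdist := bmDist_le_of_system X.carrier u x y hxy β A hA h1 _ h2
  let Y : NSpace m := ⟨CL β, CL_finrank β⟩
  have hY : numIndex Y.carrier = 1 := CL_numIndex hm β
  refine (iInf_le_of_le Y (iInf_le_of_le hY ?_))
  refine hdist.trans (ENNReal.ofReal_le_ofReal ?_)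
  exact final_numeric m hm _ rfl

end D7u
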