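import Mathlib

/-!
MP_d7d3dc_an, upper bound for `D_m`: hat functions on a logarithmic scale.
-/

set_option autoImplicit false

namespace D7u

open Set
open scoped BigOperators

/-- the hat function number `j` on the logarithmic scale with spacing `1/L`. -/
noncomputable def hat (L : ℕ) (a : ℝ) {J : ℕ} (j : Fin (J + 1)) (t : ℝ) : ℝ :=
  max 0 (1 - |L * Real.logb 2 (t / a) - (j : ℕ)|)

theorem hat_continuousOn (L : ℕ) (a b : ℝ) (ha : 0 < a) {J : ℕ} (j : Fin (J + 1)) :
    ContinuousOn (hat L a j) (Icc a b) := by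
  unfold hat
  have h1 : ContinuousOn (fun t : ℝ => Real.logb 2 (t / a)) (Icc a b) := by
    unfold Real.logb
    refine ContinuousOn.div_const ?_ _
    refine ContinuousOn.log (continuousOn_id.div_const _) fun t ht => ?_
    have : 0 < t := lt_of_lt_of_le ha ht.1
    exact (div_pos this ha).ne'
  exact continuousOn_const.sup
    (continuousOn_const.sub (((continuousOn_const.mul h1).sub continuousOn_const).abs))

theorem hat_nonneg (L : ℕ) (a : ℝ) {J : ℕ} (j : Fin (J + 1)) (t : ℝ) : 0 ≤ hat L a j t :=
  le_max_left _ _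

private theorem hats_aux (J : ℕ) : ∀ y : ℝ, 0 ≤ y → y ≤ J →
    ∑ j ∈ Finset.range (J + 1), max 0 (1 - |y - (j : ℝ)|) = 1 := by
  induction J with
  | zero =>
    intro y h0 h1
    have : y = 0 := le_antisymm (by simpa using h1) h0
    simp [this]
  | succ J ih =>
    intro y h0 h1
    rw [Finset.sum_range_succ]
    rcases le_or_gt y J with h | h
    · rw [ih y h0 h]
      have h2 : max 0 (1 - |y - ((J + 1 : ℕ) : ℝ)|) = 0 := by
        refine max_eq_left ?_
        push_cast
        have : |y - ((J : ℝ) + 1)| = (J : ℝ) + 1 - y := by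
          rw [abs_sub_comm]
          exact abs_of_nonneg (by linarith)
        rw [this]
        linarith
      rw [h2, add_zero]
    · rw [Finset.sum_range_succ]
      have hz : ∑ j ∈ Finset.range J, max 0 (1 - |y - (j : ℝ)|) = 0 := by
        refine Finset.sum_eq_zero fun j hj => ?_
        have hj' : (j : ℝ) + 1 ≤ J := by exact_mod_cast Finset.mem_range.1 hj
        refine max_eq_left ?_
        rw [abs_of_nonneg (by linarith)]
        linarith
      push_cast at h1
      have e1 : max 0 (1 - |y - (J : ℝ)|) = 1 - (y - J) := by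
        rw [abs_of_nonneg (by linarith)]
        exact max_eq_right (by linarith)
      have e2 : max 0 (1 - |y - ((J + 1 : ℕ) : ℝ)|) = 1 - (J + 1 - y) := by
        push_cast
        rw [abs_sub_comm, abs_of_nonneg (by linarith)]
        exact max_eq_right (by linarith)
      rw [hz, e1, e2]
      ring

theorem hat_sum (L : ℕ) (a b : ℝ) (ha : 0 < a) {J : ℕ} (hJ : L * Real.logb 2 (b / a) ≤ J)
    (t : ℝ) (ht : t ∈ Icc a b) : ∑ j : Fin (J + 1), hat L a j t = 1 := by
  unfold hat
  rw [Fin.sum_univ_eq_sum_range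
    (fun j : ℕ => max 0 (1 - |L * Real.logb 2 (t / a) - (j : ℝ)|)) (J + 1)]
  have h1 : 1 ≤ t / a := (one_le_div ha).2 ht.1
  have h2 : t / a ≤ b / a := div_le_div_of_nonneg_right ht.2 ha.le
  have h3 : 0 ≤ Real.logb 2 (t / a) := Real.logb_nonneg one_lt_two h1
  have h4 : Real.logb 2 (t / a) ≤ Real.logb 2 (b / a) :=
    Real.logb_le_logb_of_le one_lt_two (by linarith) h2
  refine hats_aux J _ (by positivity) (le_trans ?_ hJ)
  exact mul_le_mul_of_nonneg_left h4 (Nat.cast_nonneg L)

end D7u
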