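import Pool.Agent.H.MP_d7d3dc_an.h17.Base
import Pool.Agent.H.MP_d7d3dc_an.h17.Hats

/-!
MP_d7d3dc_an, upper bound for `D_m`: grouping the spectrum.
-/

set_option autoImplicit false

namespace D7u

open Set
open scoped BigOperators

/-- distance of two levels. -/
private def gd {J : ℕ} (j k : Fin (J + 1)) : ℕ := (((j : ℕ) : ℤ) - ((k : ℕ) : ℤ)).natAbs

private lemma gd_self {J : ℕ} (j : Fin (J + 1)) : gd j j = 0 := by simp [gd]

private lemma gd_tri {J : ℕ} (i j k : Fin (J + 1)) : gd i k ≤ gd i j + gd j k := by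
  unfold gd; omega

private lemma gd_cast {J : ℕ} (j k : Fin (J + 1)) :
    ((gd j k : ℕ) : ℝ) = |((j : ℕ) : ℝ) - ((k : ℕ) : ℝ)| := by
  unfold gd
  rw [Nat.cast_natAbs]
  push_cast
  rfl

/-- choice of the dominating level. -/
private lemma group_exists_star {J : ℕ} (N : Fin (J + 1) → ℝ) (hN : ∀ j, 0 ≤ N j) :
    ∃ T : Fin (J + 1) → Fin (J + 1),
      (∀ j j', N j' * 2 ^ (gd j (T j)) ≤ N (T j) * 2 ^ (gd j j')) ∧ ∀ j, T (T j) = T j := by
  classical
  have hex : ∀ j : Fin (J + 1), ∃ t : Fin (J + 1),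
      ∀ j', N j' * 2 ^ (gd j t) ≤ N t * 2 ^ (gd j j') := by
    intro j
    obtain ⟨t, -, ht⟩ := Finset.exists_max_image Finset.univ
      (fun t : Fin (J + 1) => N t / 2 ^ (gd j t)) ⟨0, Finset.mem_univ _⟩
    refine ⟨t, fun j' => ?_⟩
    have h1 := ht j' (Finset.mem_univ _)
    have h2 : (0 : ℝ) < 2 ^ (gd j j') := by positivity
    have h3 : (0 : ℝ) < 2 ^ (gd j t) := by positivity
    rwa [div_le_div_iff₀ h2 h3] at h1
  choose t0 ht0 using hex
  refine ⟨fun j => if ∀ j', N j' * 2 ^ (gd j j) ≤ N j * 2 ^ (gd j j') then j else t0 j, ?_, ?_⟩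
  · intro j
    by_cases h : ∀ j', N j' * 2 ^ (gd j j) ≤ N j * 2 ^ (gd j j')
    · simp only [if_pos h]; exact h
    · simp only [if_neg h]; exact ht0 j
  · intro j
    have key : ∀ j', N j' * 2 ^ (gd (t0 j) (t0 j)) ≤ N (t0 j) * 2 ^ (gd (t0 j) j') := by
      intro j'
      have h1 := ht0 j j'
      have h2 : (2 : ℝ) ^ (gd j j') ≤ 2 ^ (gd j (t0 j)) * 2 ^ (gd (t0 j) j') := by
        rw [← pow_add]
        exact pow_le_pow_right₀ (by norm_num) (gd_tri _ _ _)
      have h3 : N j' * 2 ^ (gd j (t0 j)) ≤ (N (t0 j) * 2 ^ (gd (t0 j) j')) * 2 ^ (gd j (t0 j)) := by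
        calc N j' * 2 ^ (gd j (t0 j)) ≤ N (t0 j) * 2 ^ (gd j j') := h1
          _ ≤ N (t0 j) * (2 ^ (gd j (t0 j)) * 2 ^ (gd (t0 j) j')) :=
            mul_le_mul_of_nonneg_left h2 (hN _)
          _ = _ := by ring
      have h4 := le_of_mul_le_mul_right h3 (by positivity)
      rw [gd_self, pow_zero, mul_one]
      exact h4
    by_cases h : ∀ j', N j' * 2 ^ (gd j j) ≤ N j * 2 ^ (gd j j')
    · simp only [if_pos h]
    · simp only [if_neg h, if_pos key]

private lemma group_card_two {J : ℕ} (j : Fin (J + 1)) :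
    (Finset.univ.filter fun j' : Fin (J + 1) => gd j j' = 1).card ≤ 2 := by
  classical
  have h : ((Finset.univ.filter fun j' : Fin (J + 1) => gd j j' = 1).image
      (fun j' : Fin (J + 1) => ((j' : ℕ) : ℤ))) ⊆ {((j : ℕ) : ℤ) - 1, ((j : ℕ) : ℤ) + 1} := by
    intro x hx
    simp only [Finset.mem_image, Finset.mem_filter, Finset.mem_univ, true_and] at hx
    obtain ⟨j', h1, rfl⟩ := hx
    simp only [Finset.mem_insert, Finset.mem_singleton]
    unfold gd at h1
    omega
  have h2 := Finset.card_le_card h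
  rw [Finset.card_image_of_injective] at h2
  · exact h2.trans Finset.card_le_two
  · intro x y hxy
    have hxy' : ((x : ℕ) : ℤ) = ((y : ℕ) : ℤ) := hxy
    exact Fin.ext (by exact_mod_cast hxy')

/-- every positive eigenvalue list is grouped such that inside a group the eigenvalues differ by a
factor at most `4` and the weights are at least `√(n / (6 * size of the group)) / 2`. -/
theorem exists_groups (n : ℕ) (hn : 1 ≤ n) (L : ℕ) (hL : L = Nat.clog 2 n + 1) (a b : ℝ)
    (ha : 0 < a) (J : ℕ) (hJ : L * Real.logb 2 (b / a) ≤ J) (s : Fin n → ℝ)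
    (hs : ∀ i, a ≤ s i ∧ s i ≤ b) :
    ∃ t : Fin n → Fin (J + 1), (∀ i k, t i = t k → s i ≤ 4 * s k) ∧
      ∀ i, √(n / (6 * ((Finset.univ.filter fun k => t k = t i).card : ℝ))) / 2
        ≤ om n (fun j : Fin (J + 1) => hat L a j) s i := by
  classical
  have hspos : ∀ i, 0 < s i := fun i => ha.trans_le (hs i).1
  have hL1 : 1 ≤ L := by omega
  have hLr : (1 : ℝ) ≤ (L : ℝ) := by exact_mod_cast hL1
  -- logarithmic positions
  set y : Fin n → ℝ := fun i => L * Real.logb 2 (s i / a) with hy
  have hy0 : ∀ i, 0 ≤ y i := by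
    intro i
    have h1 : 1 ≤ s i / a := by rw [le_div_iff₀ ha]; linarith [(hs i).1]
    have h2 : 0 ≤ Real.logb 2 (s i / a) := Real.logb_nonneg (by norm_num) h1
    positivity
  have hyJ : ∀ i, y i ≤ J := by
    intro i
    refine le_trans ?_ hJ
    have h1 : s i / a ≤ b / a := by
      rw [div_le_div_iff_of_pos_right ha]; exact (hs i).2
    have h0 : 0 < s i / a := div_pos (hspos i) ha
    have h2 : Real.logb 2 (s i / a) ≤ Real.logb 2 (b / a) :=
      Real.logb_le_logb_of_le (by norm_num) h0 h1
    exact mul_le_mul_of_nonneg_left h2 (by positivity)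
  -- nearest integers
  have hfl : ∀ i, ⌊y i + 1 / 2⌋₊ < J + 1 := by
    intro i
    rw [Nat.floor_lt (by linarith [hy0 i])]
    push_cast
    linarith [hyJ i]
  set c : Fin n → Fin (J + 1) := fun i => ⟨⌊y i + 1 / 2⌋₊, hfl i⟩ with hc
  have hyc : ∀ i, |y i - ((c i : ℕ) : ℝ)| ≤ 1 / 2 := by
    intro i
    have h1 : ((c i : ℕ) : ℝ) ≤ y i + 1 / 2 := Nat.floor_le (by linarith [hy0 i])
    have h2 : y i + 1 / 2 < ((c i : ℕ) : ℝ) + 1 := Nat.lt_floor_add_one _
    rw [abs_le]; constructor <;> linarith
  -- counts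
  set N : Fin (J + 1) → ℕ := fun j => (Finset.univ.filter fun i => c i = j).card with hNdef
  have hNn : ∀ j, N j ≤ n := by
    intro j
    have h := Finset.card_filter_le (Finset.univ : Finset (Fin n)) (fun i => c i = j)
    simpa using h
  have hNc : ∀ i, 1 ≤ N (c i) := by
    intro i
    apply Finset.card_pos.mpr
    exact ⟨i, by simp⟩
  obtain ⟨T, hT1, hT2⟩ := group_exists_star (fun j => (N j : ℝ)) (fun j => by positivity)
  -- distance to the dominating level
  have hTd : ∀ i, gd (c i) (T (c i)) ≤ Nat.clog 2 n := by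
    intro i
    have h1 := hT1 (c i) (c i)
    rw [gd_self, pow_zero, mul_one] at h1
    have h2 : (1 : ℝ) ≤ (N (c i) : ℝ) := by exact_mod_cast hNc i
    have h3 : ((N (T (c i)) : ℕ) : ℝ) ≤ n := by exact_mod_cast hNn _
    have h4 : (2 : ℝ) ^ (gd (c i) (T (c i))) ≤ n := by
      have h5 : (0 : ℝ) ≤ 2 ^ (gd (c i) (T (c i))) := by positivity
      nlinarith
    have h5 : 2 ^ (gd (c i) (T (c i))) ≤ n := by exact_mod_cast h4
    have h6 : gd (c i) (T (c i)) ≤ Nat.log 2 n := Nat.le_log_of_pow_le (by norm_num) h5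
    exact h6.trans (Nat.log_le_clog _ _)
  refine ⟨fun i => T (c i), ?_, ?_⟩
  · intro i k hik
    have h1 : ((gd (c i) (T (c i)) : ℕ) : ℝ) ≤ (Nat.clog 2 n : ℝ) := by exact_mod_cast hTd i
    have h2 : ((gd (c k) (T (c k)) : ℕ) : ℝ) ≤ (Nat.clog 2 n : ℝ) := by exact_mod_cast hTd k
    rw [gd_cast] at h1 h2
    simp only at hik
    rw [← hik] at h2
    have h3 := hyc i
    have h4 := hyc k
    have hLc : (L : ℝ) = (Nat.clog 2 n : ℝ) + 1 := by rw [hL]; push_cast; ring
    rw [abs_le] at h1 h2 h3 h4
    have h5 : y i - y k ≤ 2 * L := by linarith [h1.1, h1.2, h2.1, h2.2, h3.1, h3.2, h4.1, h4.2]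
    have h6 : y i - y k = L * Real.logb 2 (s i / s k) := by
      simp only [hy]
      rw [← mul_sub, ← Real.logb_div (div_pos (hspos i) ha).ne' (div_pos (hspos k) ha).ne']
      congr 2
      field_simp
    rw [h6] at h5
    have h7 : Real.logb 2 (s i / s k) ≤ 2 := by
      have h8 : (L : ℝ) * Real.logb 2 (s i / s k) ≤ L * 2 := by linarith
      exact le_of_mul_le_mul_left h8 (by linarith)
    have h9 : s i / s k ≤ 4 := by
      have hpos : 0 < s i / s k := div_pos (hspos i) (hspos k)
      rw [Real.logb_le_iff_le_rpow (by norm_num) hpos] at h7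
      have : (2 : ℝ) ^ (2 : ℝ) = 4 := by norm_num
      rwa [this] at h7
    rwa [div_le_iff₀ (hspos k)] at h9
  · intro i
    set t := T (c i) with ht
    -- number of members
    have hm : N t ≤ (Finset.univ.filter fun k => T (c k) = t).card := by
      apply Finset.card_le_card
      intro k hk
      simp only [Finset.mem_filter, Finset.mem_univ, true_and] at hk ⊢
      rw [hk, ht, hT2]
    have hN1 : 1 ≤ N t := by
      have h1 := hT1 (c i) (c i)
      rw [gd_self, pow_zero, mul_one] at h1
      have h2 : (1 : ℝ) ≤ (N (c i) : ℝ) := by exact_mod_cast hNc i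
      have h5 : (1 : ℝ) ≤ 2 ^ (gd (c i) (T (c i))) := one_le_pow₀ (by norm_num)
      have h3 : (1 : ℝ) ≤ (N t : ℝ) := by
        rw [ht]; nlinarith
      exact_mod_cast h3
    have hN1r : (1 : ℝ) ≤ (N t : ℝ) := by exact_mod_cast hN1
    -- neighbours
    have hnb : ∀ j', gd (c i) j' ≤ 1 → (N j' : ℝ) ≤ (if j' = c i then 1 else 2) * (N t : ℝ) := by
      intro j' hj'
      have h1 := hT1 (c i) j'
      have h5 : (1 : ℝ) ≤ 2 ^ (gd (c i) (T (c i))) := one_le_pow₀ (by norm_num)
      have h6 : (0 : ℝ) ≤ (N j' : ℝ) := by positivity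
      have h7 : (N j' : ℝ) ≤ (N t : ℝ) * 2 ^ (gd (c i) j') := by
        rw [ht]; nlinarith
      by_cases hj : j' = c i
      · rw [if_pos hj]
        rw [hj, gd_self, pow_zero, mul_one] at h7
        rw [hj]; linarith
      · rw [if_neg hj]
        have h8 : (2 : ℝ) ^ (gd (c i) j') ≤ 2 := by
          calc (2 : ℝ) ^ (gd (c i) j') ≤ 2 ^ 1 := pow_le_pow_right₀ (by norm_num) hj'
            _ = 2 := by norm_num
        nlinarith
    -- the sum of the hat function number c i
    have hsum : ∑ k, hat L a (c i) (s k) ≤ 5 * (N t : ℝ) := by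
      have h1 : ∀ k, hat L a (c i) (s k) ≤ if gd (c i) (c k) ≤ 1 then 1 else 0 := by
        intro k
        by_cases hk : gd (c i) (c k) ≤ 1
        · rw [if_pos hk]
          unfold hat
          apply max_le (by norm_num)
          have := abs_nonneg (L * Real.logb 2 (s k / a) - ((c i : ℕ) : ℝ))
          linarith
        · rw [if_neg hk]
          unfold hat
          apply max_le le_rfl
          have h2 : ((2 : ℕ) : ℝ) ≤ ((gd (c i) (c k) : ℕ) : ℝ) := by
            exact_mod_cast (by omega : 2 ≤ gd (c i) (c k))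
          rw [gd_cast] at h2
          have h3 := hyc k
          have h4 : |((c i : ℕ) : ℝ) - ((c k : ℕ) : ℝ)| ≤
              |y k - ((c i : ℕ) : ℝ)| + |y k - ((c k : ℕ) : ℝ)| := by
            have := abs_sub_le ((c i : ℕ) : ℝ) (y k) ((c k : ℕ) : ℝ)
            rw [abs_sub_comm ((c i : ℕ) : ℝ) (y k)] at this
            exact this
          push_cast at h2
          have h5 : 1 ≤ |y k - ((c i : ℕ) : ℝ)| := by linarith
          have h6 : |y k - ((c i : ℕ) : ℝ)| = |L * Real.logb 2 (s k / a) - ((c i : ℕ) : ℝ)| := rfl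
          rw [← h6]; linarith
      have h2 : ∑ k, hat L a (c i) (s k) ≤ ∑ k : Fin n, if gd (c i) (c k) ≤ 1 then (1 : ℝ) else 0 :=
        Finset.sum_le_sum fun k _ => h1 k
      have h3 : (∑ k : Fin n, if gd (c i) (c k) ≤ 1 then (1 : ℝ) else 0)
          = ∑ j' ∈ Finset.univ.filter (fun j' : Fin (J + 1) => gd (c i) j' ≤ 1), (N j' : ℝ) := by
        rw [← Finset.sum_filter, Finset.sum_const, nsmul_eq_mul, mul_one]
        rw [Finset.card_eq_sum_card_fiberwise (f := c)
          (t := Finset.univ.filter (fun j' : Fin (J + 1) => gd (c i) j' ≤ 1))]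
        · push_cast
          refine Finset.sum_congr rfl fun j' hj' => ?_
          simp only [Finset.mem_filter, Finset.mem_univ, true_and] at hj'
          congr 2
          ext k
          simp only [Finset.mem_filter, Finset.mem_univ, true_and]
          constructor
          · rintro ⟨_, h⟩; exact h
          · intro h; exact ⟨by rw [h]; exact hj', h⟩
        · intro k hk
          simpa using hk
      have h4 : ∑ j' ∈ Finset.univ.filter (fun j' : Fin (J + 1) => gd (c i) j' ≤ 1), (N j' : ℝ)
          ≤ ∑ j' ∈ Finset.univ.filter (fun j' : Fin (J + 1) => gd (c i) j' ≤ 1),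
            (if j' = c i then 1 else 2) * (N t : ℝ) := by
        refine Finset.sum_le_sum fun j' hj' => hnb j' ?_
        simpa using hj'
      have h5 : ∑ j' ∈ Finset.univ.filter (fun j' : Fin (J + 1) => gd (c i) j' ≤ 1),
            (if j' = c i then (1 : ℝ) else 2) * (N t : ℝ) ≤ 5 * (N t : ℝ) := by
        rw [← Finset.sum_mul]
        apply mul_le_mul_of_nonneg_right _ (by positivity)
        have h6 : Finset.univ.filter (fun j' : Fin (J + 1) => gd (c i) j' ≤ 1)
            ⊆ insert (c i) (Finset.univ.filter fun j' : Fin (J + 1) => gd (c i) j' = 1) := by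
          intro j' hj'
          simp only [Finset.mem_filter, Finset.mem_univ, true_and, Finset.mem_insert] at hj' ⊢
          by_cases h : gd (c i) j' = 1
          · right; exact h
          · left
            have h0 : gd (c i) j' = 0 := by omega
            apply Fin.ext
            unfold gd at h0
            omega
        have h7 : c i ∉ (Finset.univ.filter fun j' : Fin (J + 1) => gd (c i) j' = 1) := by
          simp [gd_self]
        calc ∑ j' ∈ Finset.univ.filter (fun j' : Fin (J + 1) => gd (c i) j' ≤ 1),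
              (if j' = c i then (1 : ℝ) else 2)
            ≤ ∑ j' ∈ insert (c i) (Finset.univ.filter fun j' : Fin (J + 1) => gd (c i) j' = 1),
              (if j' = c i then (1 : ℝ) else 2) := by
              apply Finset.sum_le_sum_of_subset_of_nonneg h6
              intro j' _ _
              split_ifs <;> norm_num
          _ = 1 + ∑ j' ∈ (Finset.univ.filter fun j' : Fin (J + 1) => gd (c i) j' = 1),
              (if j' = c i then (1 : ℝ) else 2) := by
              rw [Finset.sum_insert h7, if_pos rfl]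
          _ ≤ 1 + ∑ j' ∈ (Finset.univ.filter fun j' : Fin (J + 1) => gd (c i) j' = 1), (2 : ℝ) := by
              gcongr with j' hj'
              split_ifs <;> norm_num
          _ = 1 + ((Finset.univ.filter fun j' : Fin (J + 1) => gd (c i) j' = 1).card : ℝ) * 2 := by
              rw [Finset.sum_const, nsmul_eq_mul]
          _ ≤ 1 + 2 * 2 := by
              have := group_card_two (c i)
              have h8 : ((Finset.univ.filter fun j' : Fin (J + 1) => gd (c i) j' = 1).card : ℝ)
                ≤ 2 := by exact_mod_cast this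
              linarith
          _ = 5 := by norm_num
      linarith [h2, h3.le, h4, h5]
    have hsum0 : 0 ≤ ∑ k, hat L a (c i) (s k) :=
      Finset.sum_nonneg fun k _ => hat_nonneg L a (c i) (s k)
    -- one term of om
    have hterm : √(n / (1 + ∑ k, hat L a (c i) (s k))) * hat L a (c i) (s i)
        ≤ om n (fun j : Fin (J + 1) => hat L a j) s i := by
      unfold om
      exact Finset.single_le_sum
        (f := fun j : Fin (J + 1) => √(n / (1 + ∑ k, hat L a j (s k))) * hat L a j (s i))
        (fun j _ => mul_nonneg (Real.sqrt_nonneg _) (hat_nonneg L a j (s i)))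
        (Finset.mem_univ (c i))
    refine le_trans ?_ hterm
    have hhat : 1 / 2 ≤ hat L a (c i) (s i) := by
      unfold hat
      apply le_max_of_le_right
      have h1 := hyc i
      have h6 : |y i - ((c i : ℕ) : ℝ)| = |L * Real.logb 2 (s i / a) - ((c i : ℕ) : ℝ)| := rfl
      rw [← h6]; linarith
    have hsq : √(n / (6 * ((Finset.univ.filter fun k => T (c k) = t).card : ℝ)))
        ≤ √(n / (1 + ∑ k, hat L a (c i) (s k))) := by
      apply Real.sqrt_le_sqrt
      have hmr : (N t : ℝ) ≤ ((Finset.univ.filter fun k => T (c k) = t).card : ℝ) := by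
        exact_mod_cast hm
      apply div_le_div_of_nonneg_left (by positivity) (by linarith)
      linarith
    calc √(n / (6 * ((Finset.univ.filter fun k => T (c k) = t).card : ℝ))) / 2
        = √(n / (6 * ((Finset.univ.filter fun k => T (c k) = t).card : ℝ))) * (1 / 2) := by ring
      _ ≤ √(n / (1 + ∑ k, hat L a (c i) (s k))) * hat L a (c i) (s i) :=
        mul_le_mul hsq hhat (by norm_num) (Real.sqrt_nonneg _)

end D7u
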