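import Mathlib

/-!
MP_d7d3dc_an, upper bound for `D_m`: the numerical case lemma.
-/

set_option autoImplicit false

namespace D7u

private lemma num_s2 : √(2:ℝ) ≤ 17 / 12 := by
  rw [Real.sqrt_le_left (by norm_num)]; norm_num

private lemma num_s2s : √(2:ℝ) * √2 = 2 := Real.mul_self_sqrt (by norm_num)

private lemma num_s3s : √(3:ℝ) * √3 = 3 := Real.mul_self_sqrt (by norm_num)

private lemma num_s6 : √(6:ℝ) = √2 * √3 := by
  rw [← Real.sqrt_mul (by norm_num)]; norm_num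

private lemma num_s3 : √(3:ℝ) ≤ 7 / 4 := by
  rw [Real.sqrt_le_left (by norm_num)]; norm_num

private lemma num_s3' : 1 ≤ √(3:ℝ) := by
  rw [Real.one_le_sqrt]; norm_num

private lemma num_s2' : 1 ≤ √(2:ℝ) := by
  rw [Real.one_le_sqrt]; norm_num

private lemma num_le_of_sq {a b : ℝ} (hb : 0 ≤ b) (h : a * a ≤ b * b) : a ≤ b := by
  by_contra hc
  push Not at hc
  have := mul_self_lt_mul_self hb hc
  linarith

private lemma num_lt_of_sq {a b : ℝ} (hb : 0 ≤ b) (h : a * a < b * b) : a < b := by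
  by_contra hc
  push Not at hc
  have := mul_self_le_mul_self hb hc
  linarith

private lemma num_aux1 {s3 Λ : ℝ} (h : 1 ≤ s3) : 1 + 2 * s3 * Λ ≤ 2 * s3 * (1 + Λ) := by
  have e : 2 * s3 * (1 + Λ) = 2 * s3 + 2 * s3 * Λ := by ring
  rw [e]
  linarith

private lemma num_aux2 {c κ Λ : ℝ} (h : 1 ≤ c) (hΛ : 0 ≤ Λ) :
    2 * c * κ + 2 * Λ ≤ 2 * c * (κ + Λ) := by
  have e : 2 * c * (κ + Λ) = 2 * c * κ + 2 * (c * Λ) := by ring
  have h1 : 1 * Λ ≤ c * Λ := mul_le_mul_of_nonneg_right h hΛ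
  rw [e]
  linarith

private lemma num_aux3 {a D Λ : ℝ} (ha : 0 ≤ a) (hΛ : 0 ≤ Λ) :
    a * D + 8 * a * Λ ≤ a * (D + 12 * Λ) := by
  have e : a * (D + 12 * Λ) = a * D + 12 * (a * Λ) := by ring
  have h1 : 0 ≤ a * Λ := mul_nonneg ha hΛ
  have e2 : 8 * a * Λ = 8 * (a * Λ) := by ring
  rw [e, e2]
  linarith

private lemma num_aux4 {s3 κ Λ : ℝ} (k4 : s3 ≤ 7 / 4) (hκ : 0 ≤ κ) (hΛ : 0 ≤ Λ) :
    3 * (2 * (2 * s3 * κ + 2 * Λ)) ≤ 51 * ((κ + Λ) * (1 + Λ)) := by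
  have h2 : s3 * κ ≤ 7 / 4 * κ := mul_le_mul_of_nonneg_right k4 hκ
  have h3 : (κ + Λ) * 1 ≤ (κ + Λ) * (1 + Λ) :=
    mul_le_mul_of_nonneg_left (by linarith) (by linarith)
  have e : 3 * (2 * (2 * s3 * κ + 2 * Λ)) = 12 * (s3 * κ) + 12 * Λ := by ring
  rw [e]
  generalize (κ + Λ) * (1 + Λ) = P at h3 ⊢
  generalize s3 * κ = Q at h2 ⊢
  linarith

private lemma num_aux5 {s2 s3 : ℝ} (h2 : 1 ≤ s2) (h3 : 1 ≤ s3) : 1 ≤ s2 * s3 :=
  one_le_mul_of_one_le_of_one_le h2 h3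

private lemma num_aux6 {σ x s2 a : ℝ} (k2 : s2 * s2 = 2) (h0 : 0 ≤ s2 * a)
    (h : x * x * σ ^ 2 ≤ 2 * (a * a)) : σ * x ≤ s2 * a := by
  refine num_le_of_sq h0 ?_
  have e1 : σ * x * (σ * x) = x * x * σ ^ 2 := by ring
  have e2 : s2 * a * (s2 * a) = s2 * s2 * (a * a) := by ring
  rw [e1, e2, k2]
  exact h

private lemma num_aux7 {x y s2 b : ℝ} (k2 : s2 * s2 = 2) (h0 : 0 ≤ s2 * b)
    (h : x * x * (y * y) ≤ 2 * (b * b)) : x * y ≤ s2 * b := by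
  refine num_le_of_sq h0 ?_
  have e1 : x * y * (x * y) = x * x * (y * y) := by ring
  have e2 : s2 * b * (s2 * b) = s2 * s2 * (b * b) := by ring
  rw [e1, e2, k2]
  exact h

private lemma num_aux8 {σ x a : ℝ} (h0 : 0 ≤ σ * x) (h : a * a ≤ x * x * σ ^ 2) :
    a ≤ σ * x := by
  refine num_le_of_sq h0 ?_
  have e1 : σ * x * (σ * x) = x * x * σ ^ 2 := by ring
  rw [e1]
  exact h

/-- choice of the block size. `D, κ, Λ ≥ 0`; `σ` = smallest eigenvalue in the group. -/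
theorem block_size (n m : ℕ) (hm : 1 ≤ m) (hmn : m ≤ n) (D κ Λ σ : ℝ) (hD : 1 ≤ D) (hκ : 0 ≤ κ)
    (hΛ : 0 ≤ Λ) (hσ : 0 < σ) :
    ∃ l k : ℕ, 1 ≤ l ∧ l ≤ m ∧ 1 ≤ k ∧ k ≤ m ∧ m ≤ l * k ∧
      (√l * √(3 / m) * (D * n + 2 * min (4 * σ * √n) (√3 * (D * n)) * (√l * Λ))) *
      (√k * √(3 / m) * (2 * κ * √(6 * m / n) +
        2 * min (1 / σ) (√3 * (2 * κ * √(6 * m / n))) * (√k * Λ)))
      ≤ 51 * √n * (D + 12 * Λ) * (κ + Λ) * (1 + Λ) := by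
  have hmR : (1 : ℝ) ≤ m := by exact_mod_cast hm
  have hnR : (1 : ℝ) ≤ n := by exact_mod_cast hm.trans hmn
  have hmp : (0 : ℝ) < m := by linarith
  have hnp : (0 : ℝ) < n := by linarith
  obtain ⟨a, ha⟩ : ∃ a : ℝ, a = √(n : ℝ) := ⟨_, rfl⟩
  obtain ⟨b, hb⟩ : ∃ b : ℝ, b = √(m : ℝ) := ⟨_, rfl⟩
  have hap : 0 < a := by rw [ha]; exact Real.sqrt_pos.mpr hnp
  have hbp : 0 < b := by rw [hb]; exact Real.sqrt_pos.mpr hmp
  have ha2 : (n : ℝ) = a * a := by rw [ha, Real.mul_self_sqrt hnp.le]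
  have hb2 : (m : ℝ) = b * b := by rw [hb, Real.mul_self_sqrt hmp.le]
  have e3 : √(3 / (m : ℝ)) = √3 / b := by rw [Real.sqrt_div (by norm_num), hb]
  have e6 : √(6 * (m : ℝ) / n) = √2 * √3 * b / a := by
    rw [Real.sqrt_div (by positivity), Real.sqrt_mul (by norm_num), ha, hb, num_s6]
  have hs2p : 0 < √(2:ℝ) := by positivity
  have hs3p : 0 < √(3:ℝ) := by positivity
  rw [e3, e6, ← ha]
  obtain ⟨s2, hs2⟩ : ∃ s2 : ℝ, s2 = √(2 : ℝ) := ⟨_, rfl⟩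
  obtain ⟨s3, hs3⟩ : ∃ s3 : ℝ, s3 = √(3 : ℝ) := ⟨_, rfl⟩
  have k1 := num_s2
  have k2 := num_s2s
  have k3 := num_s3s
  have k4 := num_s3
  have k5 := num_s3'
  have k6 := num_s2'
  rw [← hs2] at k1 k2 k6 hs2p
  rw [← hs3] at k3 k4 k5 hs3p
  rw [← hs2, ← hs3]
  -- final numeric comparison used in cases 2 and 3
  have hfin : ∀ X Y : ℝ, 0 ≤ X → 0 ≤ Y → X ≤ D + 12 * Λ → Y ≤ κ + Λ →
      (3 * (2 * s3) * (2 * (s2 * s3))) * a * X * Y * (1 + Λ) ≤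
        51 * a * (D + 12 * Λ) * (κ + Λ) * (1 + Λ) := by
    intro X Y hX hY hX' hY'
    have h1 : 3 * (2 * s3) * (2 * (s2 * s3)) = 12 * s2 * (s3 * s3) := by ring
    have h2 : 3 * (2 * s3) * (2 * (s2 * s3)) ≤ 51 := by rw [h1, k3]; linarith
    gcongr
  by_cases c2 : (n : ℝ) < σ ^ 2
  · -- case 2
    refine ⟨1, m, le_rfl, hm, hm, le_rfl, by omega, ?_⟩
    have hσa : a < σ := by
      rw [ha2, sq] at c2
      exact num_lt_of_sq hσ.le c2
    have h1σ : 1 / σ ≤ 1 / a := one_div_le_one_div_of_le hap hσa.le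
    have f1 : √((1 : ℕ) : ℝ) * (s3 / b) * (D * n + 2 * min (4 * σ * a) (s3 * (D * n)) *
        (√((1 : ℕ) : ℝ) * Λ)) ≤ (s3 / b) * (a * a * D * (2 * s3 * (1 + Λ))) := by
      have h1 : √((1 : ℕ) : ℝ) = 1 := by simp
      rw [h1, ha2]
      have hmin : min (4 * σ * a) (s3 * (D * (a * a))) ≤ s3 * (D * (a * a)) := min_le_right _ _
      calc 1 * (s3 / b) * (D * (a * a) + 2 * min (4 * σ * a) (s3 * (D * (a * a))) * (1 * Λ))
          ≤ 1 * (s3 / b) * (D * (a * a) + 2 * (s3 * (D * (a * a))) * (1 * Λ)) := by gcongr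
        _ = (s3 / b) * (a * a * D * (1 + 2 * s3 * Λ)) := by ring
        _ ≤ (s3 / b) * (a * a * D * (2 * s3 * (1 + Λ))) := by
            have : 1 + 2 * s3 * Λ ≤ 2 * s3 * (1 + Λ) := num_aux1 k5
            gcongr
    have f2 : √(m : ℝ) * (s3 / b) * (2 * κ * (s2 * s3 * b / a) +
        2 * min (1 / σ) (s3 * (2 * κ * (s2 * s3 * b / a))) * (√(m : ℝ) * Λ)) ≤
        s3 * ((b / a) * (2 * (s2 * s3) * (κ + Λ))) := by
      rw [← hb]
      have hmin : min (1 / σ) (s3 * (2 * κ * (s2 * s3 * b / a))) ≤ 1 / a :=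
        (min_le_left _ _).trans h1σ
      calc b * (s3 / b) * (2 * κ * (s2 * s3 * b / a) +
            2 * min (1 / σ) (s3 * (2 * κ * (s2 * s3 * b / a))) * (b * Λ))
          ≤ b * (s3 / b) * (2 * κ * (s2 * s3 * b / a) + 2 * (1 / a) * (b * Λ)) := by gcongr
        _ = s3 * ((b / a) * (2 * (s2 * s3) * κ + 2 * Λ)) := by field_simp
        _ ≤ s3 * ((b / a) * (2 * (s2 * s3) * (κ + Λ))) := by
            have : 2 * (s2 * s3) * κ + 2 * Λ ≤ 2 * (s2 * s3) * (κ + Λ) :=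
              num_aux2 (num_aux5 k6 k5) hΛ
            gcongr
    have hmin0 : 0 ≤ min (1 / σ) (s3 * (2 * κ * (s2 * s3 * b / a))) := by positivity
    calc _ ≤ (s3 / b) * (a * a * D * (2 * s3 * (1 + Λ))) *
          (s3 * ((b / a) * (2 * (s2 * s3) * (κ + Λ)))) :=
          mul_le_mul f1 f2 (by positivity) (by positivity)
      _ = (s3 * s3) * (2 * s3) * (2 * (s2 * s3)) * a * D * (κ + Λ) * (1 + Λ) := by
          field_simp
      _ = (3 * (2 * s3) * (2 * (s2 * s3))) * a * D * (κ + Λ) * (1 + Λ) := by rw [k3]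
      _ ≤ _ := hfin D (κ + Λ) (by linarith) (by linarith) (by linarith) le_rfl
  push Not at c2
  by_cases c3 : (m : ℝ) * σ ^ 2 < n
  · -- case 3
    refine ⟨m, 1, hm, le_rfl, le_rfl, hm, by omega, ?_⟩
    have hσb : σ * b < a := by
      rw [ha2, hb2] at c3
      refine num_lt_of_sq hap.le ?_
      have e1 : σ * b * (σ * b) = b * b * σ ^ 2 := by ring
      rw [e1]
      exact c3
    have f1 : √(m : ℝ) * (s3 / b) * (D * n + 2 * min (4 * σ * a) (s3 * (D * n)) *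
        (√(m : ℝ) * Λ)) ≤ s3 * (a * a * (D + 12 * Λ)) := by
      rw [← hb, ha2]
      have hmin : min (4 * σ * a) (s3 * (D * (a * a))) ≤ 4 * σ * a := min_le_left _ _
      calc b * (s3 / b) * (D * (a * a) + 2 * min (4 * σ * a) (s3 * (D * (a * a))) * (b * Λ))
          ≤ b * (s3 / b) * (D * (a * a) + 2 * (4 * σ * a) * (b * Λ)) := by gcongr
        _ = s3 * (a * (a * D + 8 * (σ * b) * Λ)) := by field_simp; ring
        _ ≤ s3 * (a * (a * D + 8 * a * Λ)) := by gcongr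
        _ ≤ s3 * (a * a * (D + 12 * Λ)) := by
            have : a * D + 8 * a * Λ ≤ a * (D + 12 * Λ) := num_aux3 hap.le hΛ
            calc s3 * (a * (a * D + 8 * a * Λ)) ≤ s3 * (a * (a * (D + 12 * Λ))) := by gcongr
              _ = _ := by ring
    have f2 : √((1 : ℕ) : ℝ) * (s3 / b) * (2 * κ * (s2 * s3 * b / a) +
        2 * min (1 / σ) (s3 * (2 * κ * (s2 * s3 * b / a))) * (√((1 : ℕ) : ℝ) * Λ)) ≤
        (s3 / a) * (2 * (s2 * s3) * κ * (2 * s3 * (1 + Λ))) := by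
      have h1 : √((1 : ℕ) : ℝ) = 1 := by simp
      rw [h1]
      have hmin : min (1 / σ) (s3 * (2 * κ * (s2 * s3 * b / a))) ≤
        s3 * (2 * κ * (s2 * s3 * b / a)) := min_le_right _ _
      calc 1 * (s3 / b) * (2 * κ * (s2 * s3 * b / a) +
            2 * min (1 / σ) (s3 * (2 * κ * (s2 * s3 * b / a))) * (1 * Λ))
          ≤ 1 * (s3 / b) * (2 * κ * (s2 * s3 * b / a) +
            2 * (s3 * (2 * κ * (s2 * s3 * b / a))) * (1 * Λ)) := by gcongr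
        _ = (s3 / a) * (2 * (s2 * s3) * κ * (1 + 2 * s3 * Λ)) := by field_simp
        _ ≤ (s3 / a) * (2 * (s2 * s3) * κ * (2 * s3 * (1 + Λ))) := by
            have : 1 + 2 * s3 * Λ ≤ 2 * s3 * (1 + Λ) := num_aux1 k5
            gcongr
    have hmin0 : 0 ≤ min (1 / σ) (s3 * (2 * κ * (s2 * s3 * b / a))) := by positivity
    calc _ ≤ (s3 * (a * a * (D + 12 * Λ))) *
          ((s3 / a) * (2 * (s2 * s3) * κ * (2 * s3 * (1 + Λ)))) :=
          mul_le_mul f1 f2 (by positivity) (by positivity)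
      _ = (s3 * s3) * (2 * s3) * (2 * (s2 * s3)) * a * (D + 12 * Λ) * κ * (1 + Λ) := by
          field_simp
      _ = (3 * (2 * s3) * (2 * (s2 * s3))) * a * (D + 12 * Λ) * κ * (1 + Λ) := by rw [k3]
      _ ≤ _ := hfin (D + 12 * Λ) κ (by linarith) hκ le_rfl (by linarith)
  push Not at c3
  -- case 1
  have hσ2 : 0 < σ ^ 2 := by positivity
  have hq1 : 1 ≤ (n : ℝ) / σ ^ 2 := by rw [one_le_div hσ2]; exact c2
  have hq2 : (n : ℝ) / σ ^ 2 ≤ m := by rw [div_le_iff₀ hσ2]; exact c3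
  obtain ⟨l, hl⟩ : ∃ l : ℕ, l = ⌈(n : ℝ) / σ ^ 2⌉₊ := ⟨_, rfl⟩
  have hl1 : (n : ℝ) / σ ^ 2 ≤ l := by rw [hl]; exact Nat.le_ceil _
  have hl2 : (l : ℝ) < (n : ℝ) / σ ^ 2 + 1 := by rw [hl]; exact Nat.ceil_lt_add_one (by linarith)
  have hlm : l ≤ m := by rw [hl]; exact Nat.ceil_le.mpr hq2
  have hl0 : (1 : ℝ) ≤ l := hq1.trans hl1
  have hl0' : 1 ≤ l := by exact_mod_cast hl0
  have hlp : (0 : ℝ) < l := by linarith
  have hlmR : (l : ℝ) ≤ m := by exact_mod_cast hlm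
  have hr1 : 1 ≤ (m : ℝ) / l := by rw [one_le_div hlp]; exact hlmR
  obtain ⟨k, hk⟩ : ∃ k : ℕ, k = ⌈(m : ℝ) / l⌉₊ := ⟨_, rfl⟩
  have hk1 : (m : ℝ) / l ≤ k := by rw [hk]; exact Nat.le_ceil _
  have hk2 : (k : ℝ) < (m : ℝ) / l + 1 := by rw [hk]; exact Nat.ceil_lt_add_one (by linarith)
  have hkm : k ≤ m := by
    rw [hk]; apply Nat.ceil_le.mpr
    exact div_le_self hmp.le hl0
  have hk0 : (1 : ℝ) ≤ k := hr1.trans hk1
  have hk0' : 1 ≤ k := by exact_mod_cast hk0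
  have hkp : (0 : ℝ) < k := by linarith
  have hlk : m ≤ l * k := by
    rw [div_le_iff₀ hlp] at hk1
    have : (m : ℝ) ≤ ((l * k : ℕ) : ℝ) := by push_cast; linarith
    exact_mod_cast this
  refine ⟨l, k, hl0', hlm, hk0', hkm, hlk, ?_⟩
  obtain ⟨x, hx⟩ : ∃ x : ℝ, x = √(l : ℝ) := ⟨_, rfl⟩
  obtain ⟨y, hy⟩ : ∃ y : ℝ, y = √(k : ℝ) := ⟨_, rfl⟩
  have hxp : 0 < x := by rw [hx]; exact Real.sqrt_pos.mpr hlp
  have hyp : 0 < y := by rw [hy]; exact Real.sqrt_pos.mpr hkp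
  have hx2 : (l : ℝ) = x * x := by rw [hx, Real.mul_self_sqrt hlp.le]
  have hy2 : (k : ℝ) = y * y := by rw [hy, Real.mul_self_sqrt hkp.le]
  rw [← hx, ← hy]
  -- `σ x ≤ √2 a`
  have hσx : σ * x ≤ s2 * a := by
    have h1 : (l : ℝ) * σ ^ 2 ≤ 2 * n := by
      have h2 : (l : ℝ) ≤ 2 * ((n : ℝ) / σ ^ 2) := by linarith
      have h3 : (l : ℝ) * σ ^ 2 ≤ 2 * ((n : ℝ) / σ ^ 2) * σ ^ 2 :=
        mul_le_mul_of_nonneg_right h2 hσ2.le
      have h4 : 2 * ((n : ℝ) / σ ^ 2) * σ ^ 2 = 2 * n := by field_simp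
      linarith
    rw [hx2, ha2] at h1
    exact num_aux6 k2 (by positivity) h1
  -- `l k ≤ 2 m`
  have hlk2 : (l : ℝ) * k ≤ 2 * m := by
    have h2 : (k : ℝ) ≤ 2 * ((m : ℝ) / l) := by linarith
    calc (l : ℝ) * k ≤ l * (2 * ((m : ℝ) / l)) := mul_le_mul_of_nonneg_left h2 hlp.le
      _ = 2 * m := by field_simp
  have hxy : x * y ≤ s2 * b := by
    rw [hx2, hy2, hb2] at hlk2
    exact num_aux7 k2 (by positivity) hlk2
  -- `a ≤ σ x`
  have hax : a ≤ σ * x := by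
    rw [div_le_iff₀ hσ2, ha2, hx2] at hl1
    exact num_aux8 (by positivity) hl1
  -- `y / σ ≤ √2 b / a`
  have hyσ : 1 / σ * y ≤ s2 * (b / a) := by
    rw [one_div, inv_mul_le_iff₀ hσ]
    have h1 : y * a ≤ σ * (s2 * b) := by
      calc y * a ≤ y * (σ * x) := mul_le_mul_of_nonneg_left hax hyp.le
        _ = σ * (x * y) := by ring
        _ ≤ σ * (s2 * b) := mul_le_mul_of_nonneg_left hxy hσ.le
    rw [mul_div_assoc', mul_div_assoc', le_div_iff₀ hap]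
    linarith
  have f1 : x * (s3 / b) * (D * n + 2 * min (4 * σ * a) (s3 * (D * n)) * (x * Λ)) ≤
      x * (s3 / b) * (a * a * (D + 12 * Λ)) := by
    rw [ha2]
    have hmin : min (4 * σ * a) (s3 * (D * (a * a))) ≤ 4 * σ * a := min_le_left _ _
    calc x * (s3 / b) * (D * (a * a) + 2 * min (4 * σ * a) (s3 * (D * (a * a))) * (x * Λ))
        ≤ x * (s3 / b) * (D * (a * a) + 2 * (4 * σ * a) * (x * Λ)) := by gcongr
      _ = x * (s3 / b) * (a * (a * D + 8 * (σ * x) * Λ)) := by ring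
      _ ≤ x * (s3 / b) * (a * (a * D + 8 * (s2 * a) * Λ)) := by gcongr
      _ = x * (s3 / b) * (a * a * (D + 8 * s2 * Λ)) := by ring
      _ ≤ x * (s3 / b) * (a * a * (D + 12 * Λ)) := by
          have : 8 * s2 ≤ 12 := by linarith
          gcongr
  have f2 : y * (s3 / b) * (2 * κ * (s2 * s3 * b / a) +
      2 * min (1 / σ) (s3 * (2 * κ * (s2 * s3 * b / a))) * (y * Λ)) ≤
      y * (s3 / b) * ((b / a) * (2 * (s2 * s3) * κ + 2 * s2 * Λ)) := by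
    have hmin : min (1 / σ) (s3 * (2 * κ * (s2 * s3 * b / a))) ≤ 1 / σ := min_le_left _ _
    calc y * (s3 / b) * (2 * κ * (s2 * s3 * b / a) +
          2 * min (1 / σ) (s3 * (2 * κ * (s2 * s3 * b / a))) * (y * Λ))
        ≤ y * (s3 / b) * (2 * κ * (s2 * s3 * b / a) + 2 * (1 / σ) * (y * Λ)) := by gcongr
      _ = y * (s3 / b) * (2 * κ * (s2 * s3 * b / a) + 2 * (1 / σ * y) * Λ) := by ring
      _ ≤ y * (s3 / b) * (2 * κ * (s2 * s3 * b / a) + 2 * (s2 * (b / a)) * Λ) := by gcongr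
      _ = _ := by ring
  have hmin0 : 0 ≤ min (1 / σ) (s3 * (2 * κ * (s2 * s3 * b / a))) := by positivity
  have hDΛ : 0 < D + 12 * Λ := by linarith
  calc _ ≤ (x * (s3 / b) * (a * a * (D + 12 * Λ))) *
        (y * (s3 / b) * ((b / a) * (2 * (s2 * s3) * κ + 2 * s2 * Λ))) :=
        mul_le_mul f1 f2 (by positivity) (by positivity)
    _ = (x * y) * ((s3 * s3 / b) * a * (D + 12 * Λ) * (2 * (s2 * s3) * κ + 2 * s2 * Λ)) := by
        field_simp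
    _ ≤ (s2 * b) * ((s3 * s3 / b) * a * (D + 12 * Λ) * (2 * (s2 * s3) * κ + 2 * s2 * Λ)) := by
        gcongr
    _ = (a * (D + 12 * Λ)) * ((s3 * s3) * ((s2 * s2) * (2 * s3 * κ + 2 * Λ))) := by
        field_simp
    _ = (a * (D + 12 * Λ)) * (3 * (2 * (2 * s3 * κ + 2 * Λ))) := by rw [k3, k2]
    _ ≤ (a * (D + 12 * Λ)) * (51 * ((κ + Λ) * (1 + Λ))) := by
        have h1 : 3 * (2 * (2 * s3 * κ + 2 * Λ)) ≤ 51 * ((κ + Λ) * (1 + Λ)) :=
          num_aux4 k4 hκ hΛ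
        gcongr
    _ = _ := by ring

end D7u
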