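import Pool.Agent.H.MP_d7d3dc_an.h17.GB
import Pool.Agent.H.MP_d7d3dc_an.h17.Contr
import Pool.Agent.H.MP_d7d3dc_an.h17.Num

/-!
MP_d7d3dc_an, upper bound for `D_m`: the two seminorms of a spectral group.
-/

set_option autoImplicit false

namespace D7u

open D546neg MeasureTheory ProbabilityTheory Set
open scoped RealInnerProductSpace BigOperators

/-- the operator `x ↦ ∑ a, (x a * c (ψ a)) • e (ψ a)`. -/
private noncomputable def grpOp {n m : ℕ} (e : OrthonormalBasis (Fin n) ℝ (E n)) (c : Fin n → ℝ)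
    (ψ : Fin m → Fin n) : E m →L[ℝ] E n :=
  ∑ a, c (ψ a) • (EuclideanSpace.proj (𝕜 := ℝ) a).smulRight (e (ψ a))

private lemma grpOp_apply {n m : ℕ} (e : OrthonormalBasis (Fin n) ℝ (E n)) (c : Fin n → ℝ)
    (ψ : Fin m → Fin n) (x : E m) : grpOp e c ψ x = ∑ a, (c (ψ a) * x a) • e (ψ a) := by
  simp [grpOp, smul_smul]

private lemma grpOp_inner {n m : ℕ} (e : OrthonormalBasis (Fin n) ℝ (E n)) (c d : Fin n → ℝ)
    (ψ : Fin m → Fin n) (hψ : Function.Injective ψ) (x y : E m) :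
    ⟪grpOp e c ψ x, grpOp e d ψ y⟫ = ∑ a, (c (ψ a) * d (ψ a)) * (x a * y a) := by
  rw [grpOp_apply, grpOp_apply, sum_inner]
  refine Finset.sum_congr rfl fun a _ => ?_
  rw [inner_sum, Finset.sum_eq_single a]
  · rw [real_inner_smul_left, real_inner_smul_right, e.inner_eq_one]
    ring
  · intro b _ hb
    rw [real_inner_smul_left, real_inner_smul_right,
      e.inner_eq_zero (fun h => hb (hψ h).symm)]
    ring
  · simp

private lemma grpOp_mem {n m : ℕ} (e : OrthonormalBasis (Fin n) ℝ (E n)) (c : Fin n → ℝ)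
    (ψ : Fin m → Fin n) (G : Finset (Fin n)) (hG : ∀ a, ψ a ∈ G) (x : E m) :
    grpOp e c ψ x ∈ Submodule.span ℝ (e '' G) := by
  rw [grpOp_apply]
  refine Submodule.sum_mem _ fun a _ => Submodule.smul_mem _ _ ?_
  exact Submodule.subset_span ⟨ψ a, by exact_mod_cast hG a, rfl⟩

private lemma grpOp_norm_le {n m : ℕ} (e : OrthonormalBasis (Fin n) ℝ (E n)) (c : Fin n → ℝ)
    (ψ : Fin m → Fin n) (hψ : Function.Injective ψ) (M : ℝ) (hM : 0 ≤ M)
    (hc : ∀ a, |c (ψ a)| ≤ M) (x : E m) : ‖grpOp e c ψ x‖ ≤ M * ‖x‖ := by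
  have h1 : ‖grpOp e c ψ x‖ ^ 2 ≤ (M * ‖x‖) ^ 2 := by
    rw [← real_inner_self_eq_norm_sq, grpOp_inner e c c ψ hψ, mul_pow,
      EuclideanSpace.real_norm_sq_eq, Finset.mul_sum]
    refine Finset.sum_le_sum fun a _ => ?_
    have h2 : c (ψ a) * c (ψ a) ≤ M ^ 2 := by
      have := hc a
      have h3 := abs_nonneg (c (ψ a))
      rw [← abs_mul_abs_self (c (ψ a))]
      nlinarith
    rw [← sq (x a)]
    exact mul_le_mul_of_nonneg_right h2 (sq_nonneg _)
  exact le_of_sq_le_sq h1 (by positivity)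

private lemma grpOp_integral {n m : ℕ} (N : Seminorm ℝ (E n))
    (e : OrthonormalBasis (Fin n) ℝ (E n)) (c : Fin n → ℝ)
    (ψ : Fin m → Fin n) (hψ : Function.Injective ψ) (G : Finset (Fin n))
    (hG : Finset.univ.image ψ = G) :
    ∫ g, N (grpOp e c ψ g) ∂(γ m) = ∫ g, N (∑ i ∈ G, (c i * ⟪e i, g⟫) • e i) ∂(γ n) := by
  classical
  have hf : Orthonormal ℝ (fun a => e (ψ a)) := e.orthonormal.comp ψ hψ
  let T : E n → E m := fun g => WithLp.toLp 2 fun a => ⟪e (ψ a), g⟫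
  have hcont : Continuous T := by
    refine (PiLp.continuous_toLp 2 _).comp ?_
    exact continuous_pi fun a => (continuous_const.inner continuous_id)
  have hmap : (γ n).map T = γ m := gauss_marginal m n (fun a => e (ψ a)) hf
  have hmeas : AEStronglyMeasurable (fun g : E m => N (grpOp e c ψ g)) ((γ n).map T) :=
    ((seminorm_continuous N).comp (grpOp e c ψ).continuous).aestronglyMeasurable
  rw [← hmap, integral_map hcont.measurable.aemeasurable hmeas]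
  refine integral_congr_ae (Filter.Eventually.of_forall fun g => ?_)
  show N (grpOp e c ψ (T g)) = N _
  rw [grpOp_apply, ← hG, Finset.sum_image fun a _ b _ h => hψ h]

theorem group_seminorms (n : ℕ) (N : Seminorm ℝ (E n)) (h1 : ∀ x, ‖x‖ ≤ N x)
    (h2 : ∀ x, N x ≤ √n * ‖x‖) (e : OrthonormalBasis (Fin n) ℝ (E n)) (s : Fin n → ℝ)
    (G : Finset (Fin n)) (hG : G.Nonempty) (σ : ℝ) (hσ : 0 < σ)
    (hs : ∀ i ∈ G, σ ≤ s i ∧ s i ≤ 4 * σ) (p q : ℝ) (hp0 : 0 < p) (hq0 : 0 < q)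
    (hp : ∫ g, N (∑ i ∈ G, (s i * ⟪e i, g⟫) • e i) ∂(γ n) ≤ p)
    (hq : ∫ g, dualN N (∑ i ∈ G, ((s i)⁻¹ * ⟪e i, g⟫) • e i) ∂(γ n) ≤ q) :
    ∃ (ψ : Fin G.card → Fin n) (u v : E G.card →ₗ[ℝ] E n) (P Q : Seminorm ℝ (E G.card)),
      Function.Injective ψ ∧ (∀ a, ψ a ∈ G) ∧ (∀ i ∈ G, ∃ a, ψ a = i) ∧
      (∀ x y, ⟪u x, v y⟫ = ⟪x, y⟫) ∧
      (∀ x, u x ∈ Submodule.span ℝ (e '' G)) ∧ (∀ x, v x ∈ Submodule.span ℝ (e '' G)) ∧
      (∀ x, P x = N (u x)) ∧ (∀ x, Q x = dualN N (v x)) ∧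
      (∀ x, P x ≤ min (4 * σ * √n) (√3 * p) * ‖x‖) ∧
      (∀ x, Q x ≤ min (1 / σ) (√3 * q) * ‖x‖) ∧
      ∫ g, P g ∂(γ G.card) ≤ p ∧ ∫ g, Q g ∂(γ G.card) ≤ q := by
  classical
  have hN : Definite N := ⟨1, one_pos, fun x => by rw [one_mul]; exact h1 x⟩
  let ψ : Fin G.card → Fin n := fun a => (G.equivFin.symm a : Fin n)
  have hψ : Function.Injective ψ := fun a b h => G.equivFin.symm.injective (Subtype.ext h)
  have hψG : ∀ a, ψ a ∈ G := fun a => (G.equivFin.symm a).2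
  have hψs : ∀ i ∈ G, ∃ a, ψ a = i := fun i hi => ⟨G.equivFin ⟨i, hi⟩, by simp [ψ]⟩
  have himg : Finset.univ.image ψ = G := by
    ext i
    simp only [Finset.mem_image, Finset.mem_univ, true_and]
    exact ⟨fun ⟨a, ha⟩ => ha ▸ hψG a, fun hi => hψs i hi⟩
  let u := grpOp e s ψ
  let v := grpOp e (fun i => (s i)⁻¹) ψ
  let P : Seminorm ℝ (E G.card) := N.comp (u : E G.card →ₗ[ℝ] E n)
  let Q : Seminorm ℝ (E G.card) := (dualS N hN).comp (v : E G.card →ₗ[ℝ] E n)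
  have hPint : ∫ g, P g ∂(γ G.card) ≤ p := by
    have := grpOp_integral N e s ψ hψ G himg
    exact this.le.trans hp
  have hQint : ∫ g, Q g ∂(γ G.card) ≤ q := by
    have := grpOp_integral (dualS N hN) e (fun i => (s i)⁻¹) ψ hψ G himg
    exact this.le.trans hq
  have hspos : ∀ a, 0 < s (ψ a) := fun a => hσ.trans_le (hs _ (hψG a)).1
  have hsq3 : 0 ≤ √(3:ℝ) := Real.sqrt_nonneg _
  refine ⟨ψ, u, v, P, Q, hψ, hψG, hψs, ?_, ?_, ?_, fun _ => rfl, fun _ => rfl, ?_, ?_, hPint,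
    hQint⟩
  · intro x y
    have h3 := grpOp_inner e s (fun i => (s i)⁻¹) ψ hψ x y
    refine h3.trans ?_
    rw [PiLp.inner_apply]
    refine Finset.sum_congr rfl fun a _ => ?_
    rw [mul_inv_cancel₀ (hspos a).ne', one_mul]
    simp [mul_comm]
  · exact fun x => grpOp_mem e s ψ G hψG x
  · exact fun x => grpOp_mem e _ ψ G hψG x
  · intro x
    rw [min_mul_of_nonneg _ _ (norm_nonneg x)]
    refine le_min ?_ ?_
    · have h3 : ‖u x‖ ≤ (4 * σ) * ‖x‖ :=
        grpOp_norm_le e s ψ hψ (4 * σ) (by positivity)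
          (fun a => by rw [abs_of_pos (hspos a)]; exact (hs _ (hψG a)).2) x
      calc P x = N (u x) := rfl
        _ ≤ √n * ‖u x‖ := h2 _
        _ ≤ √n * ((4 * σ) * ‖x‖) := mul_le_mul_of_nonneg_left h3 (Real.sqrt_nonneg _)
        _ = 4 * σ * √n * ‖x‖ := by ring
    · refine (seminorm_le_int P x).trans ?_
      exact mul_le_mul_of_nonneg_right (mul_le_mul_of_nonneg_left hPint hsq3) (norm_nonneg x)
  · intro x
    rw [min_mul_of_nonneg _ _ (norm_nonneg x)]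
    refine le_min ?_ ?_
    · have h3 : ‖v x‖ ≤ (1 / σ) * ‖x‖ :=
        grpOp_norm_le e _ ψ hψ (1 / σ) (by positivity)
          (fun a => by
            rw [abs_of_pos (inv_pos.2 (hspos a)), one_div]
            exact inv_anti₀ hσ (hs _ (hψG a)).1) x
      have h4 : dualN N (v x) ≤ 1⁻¹ * ‖v x‖ :=
        dualN_le_norm one_pos (fun x => by rw [one_mul]; exact h1 x) (v x)
      rw [inv_one, one_mul] at h4
      exact (show Q x = dualN N (v x) from rfl).le.trans (h4.trans h3)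
    · refine (seminorm_le_int Q x).trans ?_
      exact mul_le_mul_of_nonneg_right (mul_le_mul_of_nonneg_left hQint hsq3) (norm_nonneg x)

end D7u
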