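import Pool.Agent.H.MP_d7d3dc_an.h17.Core
import Pool.Agent.H.MP_d7d3dc_an.h17.GrpA

/-!
MP_d7d3dc_an, upper bound for `D_m`: the basis of a spectral group.
-/

set_option autoImplicit false

namespace D7u

open D546neg MeasureTheory ProbabilityTheory Set
open scoped RealInnerProductSpace BigOperators

theorem group_basis (n : ℕ) (N : Seminorm ℝ (E n)) (h1 : ∀ x, ‖x‖ ≤ N x)
    (h2 : ∀ x, N x ≤ √n * ‖x‖) (e : OrthonormalBasis (Fin n) ℝ (E n)) (s : Fin n → ℝ)
    (G : Finset (Fin n)) (hG : G.Nonempty) (σ : ℝ) (hσ : 0 < σ)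
    (hs : ∀ i ∈ G, σ ≤ s i ∧ s i ≤ 4 * σ) (D κ : ℝ) (hD : 1 ≤ D) (hκ : 0 < κ)
    (hp : ∫ g, N (∑ i ∈ G, (s i * ⟪e i, g⟫) • e i) ∂(γ n) ≤ D * n)
    (hq : ∫ g, dualN N (∑ i ∈ G, ((s i)⁻¹ * ⟪e i, g⟫) • e i) ∂(γ n)
      ≤ 2 * κ * √(6 * (G.card : ℝ) / n)) :
    ∃ (x y : Fin n → E n) (β : Fin n → Fin n) (A B : ℝ), 0 < A ∧ 0 ≤ B ∧
      (∀ i ∈ G, β i ∈ G) ∧
      (∀ i ∈ G, x i ∈ Submodule.span ℝ (e '' G)) ∧ (∀ i ∈ G, y i ∈ Submodule.span ℝ (e '' G)) ∧
      (∀ i ∈ G, ∀ j ∈ G, ⟪x i, y j⟫ = if i = j then (1 : ℝ) else 0) ∧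
      (∀ b ∈ G, ∀ ε : Fin n → ℝ, (∀ i, ε i = 1 ∨ ε i = -1) →
        N (∑ i ∈ G.filter (fun i => β i = b), ε i • x i) ≤ A) ∧
      (∀ (z : E n) (M : Fin n → ℝ),
        (∀ b ∈ G, M b ≤ 0 ∨ ∃ i ∈ G, β i = b ∧ M b ≤ |⟪z, y i⟫|) → ∑ b ∈ G, M b ≤ B * N z) ∧
      A * B ≤ 51 * √n * (D + 12 * √(Real.log (6 * n))) * (κ + √(Real.log (6 * n))) *
        (1 + √(Real.log (6 * n))) := by
  classical
  have hdef : Definite N := ⟨1, one_pos, fun x => by rw [one_mul]; exact h1 x⟩
  have hm : 1 ≤ G.card := hG.card_pos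
  have hmn : G.card ≤ n := by
    have := G.card_le_univ
    simpa using this
  have hn : 1 ≤ n := hm.trans hmn
  have hm' : (1 : ℝ) ≤ G.card := by exact_mod_cast hm
  have hmn' : (G.card : ℝ) ≤ n := by exact_mod_cast hmn
  have hn' : (1 : ℝ) ≤ n := by exact_mod_cast hn
  have hp0 : 0 < D * n := by positivity
  have hq0 : 0 < 2 * κ * √(6 * (G.card : ℝ) / n) := by positivity
  obtain ⟨ψ, u, v, P, Q, hψi, hψG, hψs, huv, hu, hv, hPu, hQv, hPle, hQle, hPint, hQint⟩ :=
    group_seminorms n N h1 h2 e s G hG σ hσ hs (D * n) (2 * κ * √(6 * (G.card : ℝ) / n))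
      hp0 hq0 hp hq
  obtain ⟨l, k, hl, hlm, hk, hkm, hlk, hnum⟩ :=
    block_size n G.card hm hmn D κ (√(Real.log (6 * n))) σ hD hκ.le (Real.sqrt_nonneg _) hσ
  set Λ := √(Real.log (6 * n)) with hΛ
  have hΛ0 : 0 ≤ Λ := Real.sqrt_nonneg _
  set LP := min (4 * σ * √n) (√3 * (D * n)) with hLPd
  set LQ := min (1 / σ) (√3 * (2 * κ * √(6 * (G.card : ℝ) / n))) with hLQd
  have hLP : 0 < LP := lt_min (by positivity) (by positivity)
  have hLQ : 0 < LQ := lt_min (by positivity) (by positivity)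
  obtain ⟨R, β', hR1, hR2⟩ := core_basis G.card l k hl hlm hk hkm hlk P Q LP LQ hLP hLQ hPle hQle
  have hlog : √(Real.log (6 * (G.card : ℝ))) ≤ Λ :=
    Real.sqrt_le_sqrt (Real.log_le_log (by positivity) (by linarith))
  have hψ'ex : ∀ i : Fin n, ∃ a : Fin G.card, i ∈ G → ψ a = i := by
    intro i
    by_cases hi : i ∈ G
    · obtain ⟨a, ha⟩ := hψs i hi
      exact ⟨a, fun _ => ha⟩
    · exact ⟨⟨0, hm⟩, fun h => absurd h hi⟩
  choose ψ' hψ' using hψ'ex
  have hψψ : ∀ a, ψ' (ψ a) = a := fun a => hψi (hψ' _ (hψG a))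
  set A := √l * √(3 / G.card) * (D * n + 2 * LP * (√l * Λ)) with hA
  set B := √k * √(3 / G.card) *
    (2 * κ * √(6 * (G.card : ℝ) / n) + 2 * LQ * (√k * Λ)) with hB
  have hl' : (0 : ℝ) < l := by exact_mod_cast hl
  have hk' : (0 : ℝ) < k := by exact_mod_cast hk
  have hA0 : 0 < A := by positivity
  have hB0 : 0 ≤ B := by positivity
  refine ⟨fun i => u (R (EuclideanSpace.single (ψ' i) (1 : ℝ))),
    fun i => v (R (EuclideanSpace.single (ψ' i) (1 : ℝ))), fun i => ψ (β' (ψ' i)), A, B, hA0, hB0,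
    fun i _ => hψG _, fun i _ => hu _, fun i _ => hv _, ?_, ?_, ?_, hnum⟩
  · intro i hi j hj
    simp only
    rw [huv, LinearIsometryEquiv.inner_map_map, EuclideanSpace.inner_single_left]
    have h3 : (ψ' i = ψ' j) ↔ i = j := by
      constructor
      · intro h
        rw [← hψ' i hi, ← hψ' j hj, h]
      · intro h
        rw [h]
    simp [PiLp.single_apply, h3]
  · intro b hb ε hε
    have h3 : ∑ i ∈ G.filter (fun i => ψ (β' (ψ' i)) = b),
        ε i • u (R (EuclideanSpace.single (ψ' i) (1 : ℝ)))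
        = u (∑ a ∈ Finset.univ.filter (fun a => β' a = ψ' b),
          ε (ψ a) • R (EuclideanSpace.single a (1 : ℝ))) := by
      rw [map_sum]
      refine Finset.sum_nbij' ψ' ψ ?_ ?_ ?_ ?_ ?_
      · intro i hi
        rw [Finset.mem_filter] at hi ⊢
        refine ⟨Finset.mem_univ _, ?_⟩
        rw [← hi.2, hψψ]
      · intro a ha
        rw [Finset.mem_filter] at ha ⊢
        refine ⟨hψG _, ?_⟩
        rw [hψψ, ha.2, hψ' b hb]
      · intro i hi
        rw [Finset.mem_filter] at hi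
        exact hψ' i hi.1
      · intro a _
        exact hψψ a
      · intro i hi
        rw [Finset.mem_filter] at hi
        rw [map_smul, hψ' i hi.1]
    simp only
    rw [h3, ← hPu]
    refine (hR1 (ψ' b) (fun a => ε (ψ a)) (fun a => hε _)).trans ?_
    rw [hA]
    refine mul_le_mul_of_nonneg_left ?_ (by positivity)
    refine add_le_add hPint ?_
    refine mul_le_mul_of_nonneg_left ?_ (by positivity)
    exact mul_le_mul_of_nonneg_left hlog (by positivity)
  · intro z M hM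
    simp only at hM
    have h4 : ∀ c : Fin G.card, ∃ a : Fin G.card, c ∈ Finset.univ.image β' →
        β' a = c ∧ M (ψ c) ≤ |⟪z, v (R (EuclideanSpace.single a (1 : ℝ)))⟫| := by
      intro c
      by_cases hc : c ∈ Finset.univ.image β'
      · rcases hM (ψ c) (hψG c) with h | ⟨i, hi, h5, h6⟩
        · obtain ⟨a, _, ha⟩ := Finset.mem_image.1 hc
          exact ⟨a, fun _ => ⟨ha, h.trans (abs_nonneg _)⟩⟩
        · exact ⟨ψ' i, fun _ => ⟨hψi h5, h6⟩⟩
      · exact ⟨c, fun h => absurd h hc⟩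
    choose τ hτ using h4
    let ε : Fin G.card → ℝ := fun c =>
      if 0 ≤ ⟪z, v (R (EuclideanSpace.single (τ c) (1 : ℝ)))⟫ then 1 else -1
    have hε : ∀ c, ε c = 1 ∨ ε c = -1 := by
      intro c
      simp only [ε]
      split_ifs
      · exact Or.inl rfl
      · exact Or.inr rfl
    have hεabs : ∀ c, |⟪z, v (R (EuclideanSpace.single (τ c) (1 : ℝ)))⟫|
        = ε c * ⟪z, v (R (EuclideanSpace.single (τ c) (1 : ℝ)))⟫ := by
      intro c
      simp only [ε]
      split_ifs with h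
      · rw [abs_of_nonneg h, one_mul]
      · rw [abs_of_neg (not_le.1 h)]; ring
    have h5 : ∑ b ∈ G, M b = ∑ c, M (ψ c) := by
      refine Finset.sum_nbij' ψ' ψ (fun i _ => Finset.mem_univ _) (fun a _ => hψG a)
        (fun i hi => hψ' i hi) (fun a _ => hψψ a) (fun i hi => by rw [hψ' i hi])
    have h6 : ∑ c, M (ψ c) ≤ ∑ c ∈ Finset.univ.image β', M (ψ c) := by
      have h7 : ∑ c, M (ψ c) ≤ ∑ c, if c ∈ Finset.univ.image β' then M (ψ c) else 0 := by
        refine Finset.sum_le_sum fun c _ => ?_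
        split_ifs with h
        · exact le_refl _
        · rcases hM (ψ c) (hψG c) with h8 | ⟨i, hi, h8, _⟩
          · exact h8
          · exact absurd (Finset.mem_image.2 ⟨ψ' i, Finset.mem_univ _, hψi h8⟩) h
      refine h7.trans (le_of_eq ?_)
      rw [Finset.sum_ite_mem, Finset.univ_inter]
    have h7 : ∑ c ∈ Finset.univ.image β', M (ψ c)
        ≤ ⟪z, v (∑ c ∈ Finset.univ.image β',
          ε c • R (EuclideanSpace.single (τ c) (1 : ℝ)))⟫ := by
      rw [map_sum, inner_sum]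
      refine Finset.sum_le_sum fun c hc => ?_
      rw [map_smul, real_inner_smul_right, ← hεabs]
      exact (hτ c hc).2
    have h8 := inner_le_mul_dualN hdef z (v (∑ c ∈ Finset.univ.image β',
          ε c • R (EuclideanSpace.single (τ c) (1 : ℝ))))
    rw [← hQv] at h8
    have h9 := hR2 τ ε hε (fun b hb => (hτ b hb).1)
    have h10 : Q (∑ c ∈ Finset.univ.image β',
          ε c • R (EuclideanSpace.single (τ c) (1 : ℝ))) ≤ B := by
      refine h9.trans ?_
      rw [hB]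
      refine mul_le_mul_of_nonneg_left ?_ (by positivity)
      refine add_le_add hQint ?_
      refine mul_le_mul_of_nonneg_left ?_ (by positivity)
      exact mul_le_mul_of_nonneg_left hlog (by positivity)
    have h11 := mul_le_mul_of_nonneg_left h10 (apply_nonneg N z)
    rw [h5, mul_comm B]
    linarith

end D7u
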