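import Pool.Agent.H.MP_d7d3dc_an.h17.Base

/-!
MP_d7d3dc_an, upper bound for `D_m`: random rotations.
-/

set_option autoImplicit false

namespace D7u

open D546neg MeasureTheory ProbabilityTheory Set
open scoped RealInnerProductSpace BigOperators ENNReal

/-- the orthogonal group of `E m`. -/
private abbrev HaarAvgG (m : ℕ) : Type := unitary (E m →L[ℝ] E m)

private lemma haarAvg_star (m : ℕ) : ContinuousStar (E m →L[ℝ] E m) :=
  ⟨(ContinuousLinearMap.adjoint (𝕜 := ℝ) (E := E m) (F := E m)).continuous⟩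

private lemma haarAvg_compact (m : ℕ) : CompactSpace (HaarAvgG m) := by
  have := haarAvg_star m
  have : FiniteDimensional ℝ (E m →L[ℝ] E m) := inferInstance
  have : ProperSpace (E m →L[ℝ] E m) := FiniteDimensional.proper_real _
  refine (isCompact_iff_compactSpace (s := ((unitary (E m →L[ℝ] E m) : Submonoid _) :
    Set (E m →L[ℝ] E m)))).1 ?_
  refine Metric.isCompact_of_isClosed_isBounded ?_ ?_
  · have : ((unitary (E m →L[ℝ] E m) : Submonoid _) : Set (E m →L[ℝ] E m)) =
        {U | star U * U = 1} ∩ {U | U * star U = 1} := by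
      ext U; exact Iff.rfl
    rw [this]
    exact (isClosed_eq (continuous_star.mul continuous_id) continuous_const).inter
      (isClosed_eq (continuous_id.mul continuous_star) continuous_const)
  · refine (Metric.isBounded_closedBall (x := (0 : E m →L[ℝ] E m)) (r := 1)).subset ?_
    intro U hU
    rw [mem_closedBall_zero_iff]
    refine ContinuousLinearMap.opNorm_le_bound _ zero_le_one fun x => ?_
    rw [one_mul]
    exact (Unitary.norm_map ⟨U, hU⟩ x).le

/-- a linear isometry moving a unit vector to a given unit vector. -/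
private lemma haarAvg_move {m : ℕ} (a b : E m) (ha : ‖a‖ = 1) (hb : ‖b‖ = 1) :
    ∃ S : E m ≃ₗᵢ[ℝ] E m, S a = b := by
  refine ⟨Submodule.reflection (ℝ ∙ (a - b))ᗮ, ?_⟩
  exact Submodule.reflection_sub (by rw [ha, hb])

/-- a probability measure on rotations such that the Gaussian vector has the law of
`‖g‖ R θ` with `R` independent of `g`. -/
theorem haar_avg (m : ℕ) (hm : 1 ≤ m) :
    ∃ (Ω : Type) (_ : MeasurableSpace Ω) (μ : Measure Ω) (_ : IsProbabilityMeasure μ)
      (R : Ω → (E m ≃ₗᵢ[ℝ] E m)), (∀ θ, Measurable fun ω => R ω θ) ∧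
      ∀ θ : E m, ‖θ‖ = 1 → ∀ h : E m → ℝ≥0∞, Measurable h →
        ∫⁻ g, ∫⁻ ω, h (‖g‖ • R ω θ) ∂μ ∂(γ m) = ∫⁻ g, h g ∂(γ m) := by
  have := haarAvg_star m
  have := haarAvg_compact m
  let _ : MeasurableSpace (HaarAvgG m) := borel _
  have : BorelSpace (HaarAvgG m) := ⟨rfl⟩
  let μ : Measure (HaarAvgG m) := Measure.haarMeasure (⊤ : TopologicalSpace.PositiveCompacts _)
  have hμ : IsProbabilityMeasure μ := by
    refine ⟨?_⟩
    have := Measure.haarMeasure_self (K₀ := (⊤ : TopologicalSpace.PositiveCompacts (HaarAvgG m)))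
    simpa using this
  let R : HaarAvgG m → (E m ≃ₗᵢ[ℝ] E m) := fun U => Unitary.linearIsometryEquiv U⁻¹
  have hRapp : ∀ U x, R U x = ((U⁻¹ : HaarAvgG m) : E m →L[ℝ] E m) x := fun U x => rfl
  have hcont : Continuous fun q : HaarAvgG m × E m => R q.1 q.2 := by
    have h1 : Continuous fun q : HaarAvgG m × E m => ((q.1⁻¹ : HaarAvgG m) : E m →L[ℝ] E m) :=
      continuous_subtype_val.comp (continuous_inv.comp continuous_fst)
    exact h1.clm_apply continuous_snd
  refine ⟨HaarAvgG m, inferInstance, μ, hμ, R, fun θ => ?_, ?_⟩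
  · exact (hcont.comp (Continuous.prodMk_left θ)).measurable
  intro θ hθ h hh
  -- the inner integral does not depend on the direction
  have key : ∀ g : E m, ∫⁻ ω, h (‖g‖ • R ω θ) ∂μ = ∫⁻ ω, h (R ω g) ∂μ := by
    intro g
    by_cases hg : g = 0
    · subst hg; simp
    obtain ⟨S, hS⟩ := haarAvg_move θ (‖g‖⁻¹ • g) hθ (by
      rw [norm_smul, norm_inv, norm_norm, inv_mul_cancel₀ (norm_ne_zero_iff.2 hg)])
    have hS' : g = ‖g‖ • S θ := by
      rw [hS, smul_smul, mul_inv_cancel₀ (norm_ne_zero_iff.2 hg), one_smul]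
    let s : HaarAvgG m := Unitary.linearIsometryEquiv.symm S
    have hs : ∀ x, ((s : HaarAvgG m) : E m →L[ℝ] E m) x = S x := fun x => rfl
    have e1 : ∀ ω, R ω g = ‖g‖ • R (s⁻¹ * ω) θ := by
      intro ω
      conv_lhs => rw [hS']
      rw [map_smul]
      congr 1
      rw [hRapp, hRapp, mul_inv_rev, inv_inv]
      rfl
    simp_rw [e1]
    exact (lintegral_mul_left_eq_self (μ := μ) (fun ω => h (‖g‖ • R ω θ)) s⁻¹).symm
  simp_rw [key]
  have hmeas : Measurable (Function.uncurry fun (g : E m) (ω : HaarAvgG m) => h (R ω g)) :=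
    hh.comp (hcont.comp continuous_swap).measurable
  rw [lintegral_lintegral_swap hmeas.aemeasurable]
  have e2 : ∀ ω, ∫⁻ g, h (R ω g) ∂(γ m) = ∫⁻ g, h g ∂(γ m) := by
    intro ω
    conv_rhs => rw [← gamma_map_isometry (R ω)]
    rw [lintegral_map hh (R ω).continuous.measurable]
  simp_rw [e2]
  rw [lintegral_const, measure_univ, mul_one]

end D7u
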