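import Pool.Agent.H.MP_d7d3dc_an.h17.Base

/-!
MP_d7d3dc_an, upper bound for `D_m`: the set `KK n a b` of symmetric operators between `a` and `b`.
-/

set_option autoImplicit false

namespace D7u

open D546neg MeasureTheory ProbabilityTheory Set
open scoped RealInnerProductSpace BigOperators

private lemma spectral_aux (n : ℕ) (a b : ℝ) (T : E n →L[ℝ] E n) (hT : T ∈ KK n a b) :
    ∃ (e : OrthonormalBasis (Fin n) ℝ (E n)) (s : Fin n → ℝ),
      (∀ i, a ≤ s i ∧ s i ≤ b) ∧ T = dg e s := by
  have hsym : (T : E n →ₗ[ℝ] E n).IsSymmetric := fun x y => hT.1 x y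
  have hn : Module.finrank ℝ (E n) = n := finrank_euclideanSpace_fin
  have hTe : ∀ i, T (hsym.eigenvectorBasis hn i) =
      hsym.eigenvalues hn i • hsym.eigenvectorBasis hn i := by
    intro i
    exact hsym.apply_eigenvectorBasis hn i
  refine ⟨hsym.eigenvectorBasis hn, hsym.eigenvalues hn, fun i => ?_, ?_⟩
  · have h1 := hT.2 (hsym.eigenvectorBasis hn i)
    rw [hTe i, real_inner_smul_left, (hsym.eigenvectorBasis hn).inner_eq_one,
      (hsym.eigenvectorBasis hn).norm_eq_one] at h1
    simpa using h1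
  · refine ext_basis (hsym.eigenvectorBasis hn) fun i => ?_
    rw [hTe i, dg_basis]

theorem KK_compact (n : ℕ) (a b : ℝ) : IsCompact (KK n a b) := by
  have : ProperSpace (E n →L[ℝ] E n) := FiniteDimensional.proper_real _
  refine Metric.isCompact_of_isClosed_isBounded ?_ ?_
  · have hc : ∀ x : E n, Continuous fun T : E n →L[ℝ] E n => T x := fun x =>
      continuous_eval_const x
    have : KK n a b = (⋂ x : E n, ⋂ y : E n, {T | ⟪T x, y⟫ = ⟪x, T y⟫}) ∩
        ((⋂ x : E n, {T | a * ‖x‖ ^ 2 ≤ ⟪T x, x⟫}) ∩ ⋂ x : E n, {T | ⟪T x, x⟫ ≤ b * ‖x‖ ^ 2}) := by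
      ext T
      simp only [KK, mem_ofPred_eq, mem_inter_iff, mem_iInter]
      constructor
      · rintro ⟨h1, h2⟩
        exact ⟨h1, fun x => (h2 x).1, fun x => (h2 x).2⟩
      · rintro ⟨h1, h2, h3⟩
        exact ⟨h1, fun x => ⟨h2 x, h3 x⟩⟩
    rw [this]
    refine IsClosed.inter ?_ (IsClosed.inter ?_ ?_)
    · exact isClosed_iInter fun x => isClosed_iInter fun y =>
        isClosed_eq ((hc x).inner continuous_const) (continuous_const.inner (hc y))
    · exact isClosed_iInter fun x => isClosed_le continuous_const ((hc x).inner continuous_const)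
    · exact isClosed_iInter fun x => isClosed_le ((hc x).inner continuous_const) continuous_const
  · rw [isBounded_iff_forall_norm_le]
    refine ⟨max |a| |b|, fun T hT => ?_⟩
    obtain ⟨e, s, hs, rfl⟩ := spectral_aux n a b T hT
    have hm : 0 ≤ max |a| |b| := (abs_nonneg a).trans (le_max_left _ _)
    refine ContinuousLinearMap.opNorm_le_bound _ hm fun x => ?_
    have h1 : ‖dg e s x‖ ^ 2 ≤ (max |a| |b| * ‖x‖) ^ 2 := by
      rw [← sum_inner_sq e, mul_pow, ← sum_inner_sq e x, Finset.mul_sum]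
      refine Finset.sum_le_sum fun i _ => ?_
      rw [inner_dg, mul_pow]
      refine mul_le_mul_of_nonneg_right ?_ (sq_nonneg _)
      have h2 : |s i| ≤ max |a| |b| := by
        have := hs i
        rw [abs_le]
        constructor
        · have h3 := neg_abs_le a
          have h4 := le_max_left |a| |b|
          linarith
        · have h3 := le_abs_self b
          have h4 := le_max_right |a| |b|
          linarith
      rw [← sq_abs (s i)]
      exact pow_le_pow_left₀ (abs_nonneg _) h2 2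
    exact le_of_sq_le_sq h1 (mul_nonneg hm (norm_nonneg _))

theorem KK_convex (n : ℕ) (a b : ℝ) : Convex ℝ (KK n a b) := by
  intro S hS T hT p q hp hq hpq
  refine ⟨fun x y => ?_, fun x => ?_⟩
  · have h1 := hS.1 x y
    have h2 := hT.1 x y
    show ⟪p • S x + q • T x, y⟫ = ⟪x, p • S y + q • T y⟫
    rw [inner_add_left, inner_add_right, real_inner_smul_left, real_inner_smul_left,
      real_inner_smul_right, real_inner_smul_right, h1, h2]
  · have h1 := hS.2 x
    have h2 := hT.2 x
    have h3 : ⟪(p • S + q • T) x, x⟫ = p * ⟪S x, x⟫ + q * ⟪T x, x⟫ := by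
      show ⟪p • S x + q • T x, x⟫ = _
      rw [inner_add_left, real_inner_smul_left, real_inner_smul_left]
    rw [h3]
    have h4 : a * ‖x‖ ^ 2 = p * (a * ‖x‖ ^ 2) + q * (a * ‖x‖ ^ 2) := by rw [← add_mul, hpq, one_mul]
    have h5 : b * ‖x‖ ^ 2 = p * (b * ‖x‖ ^ 2) + q * (b * ‖x‖ ^ 2) := by rw [← add_mul, hpq, one_mul]
    constructor
    · rw [h4]
      exact add_le_add (mul_le_mul_of_nonneg_left h1.1 hp) (mul_le_mul_of_nonneg_left h2.1 hq)
    · rw [h5]
      exact add_le_add (mul_le_mul_of_nonneg_left h1.2 hp) (mul_le_mul_of_nonneg_left h2.2 hq)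

/-- spectral theorem. -/
theorem KK_spectral (n : ℕ) (a b : ℝ) (T : E n →L[ℝ] E n) (hT : T ∈ KK n a b) :
    ∃ (e : OrthonormalBasis (Fin n) ℝ (E n)) (s : Fin n → ℝ),
      (∀ i, a ≤ s i ∧ s i ≤ b) ∧ T = dg e s :=
  spectral_aux n a b T hT

end D7u
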