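import Pool.Agent.H.MP_d7d3dc_an.h17.GB

/-!
MP_d7d3dc_an, upper bound for `D_m`: the solution of the variational inequality is interior.
-/

set_option autoImplicit false

namespace D7u

open D546neg MeasureTheory ProbabilityTheory Set
open scoped RealInnerProductSpace BigOperators

private lemma posInt_integrable_inner {n : ℕ} (x : E n) :
    Integrable (fun g : E n => |⟪x, g⟫|) (γ n) := by
  have h0 : Integrable (fun g : E n => g) (γ n) := IsGaussian.integrable_fun_id
  exact (h0.const_inner x).abs

theorem vi_interior (n : ℕ) (hn : 1 ≤ n) (N : Seminorm ℝ (E n)) (h1 : ∀ x, ‖x‖ ≤ N x)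
    (h2 : ∀ x, N x ≤ √n * ‖x‖) (a b : ℝ) (ha : a = 1 / (2 * √n)) (hb : b = 4 * (n : ℝ) ^ 2)
    (J : ℕ) (β : Fin (J + 1) → ℝ → ℝ) (hβ0 : ∀ j, ∀ t ∈ Icc a b, 0 ≤ β j t)
    (hβ1 : ∀ t ∈ Icc a b, ∑ j, β j t = 1)
    (e : OrthonormalBasis (Fin n) ℝ (E n)) (s : Fin n → ℝ) (hs : ∀ i, a ≤ s i ∧ s i ≤ b)
    (hvi : ∀ T' ∈ KK n a b, ∑ i, om n β s i / s i * (⟪e i, T' (e i)⟫ - s i)
        ≤ ell N T' - ell N (dg e s)) :
    ∀ i, a < s i ∧ s i < b := by
  have hn' : (1 : ℝ) ≤ n := by exact_mod_cast hn
  have hsq2 : √(n : ℝ) ^ 2 = n := Real.sq_sqrt (by linarith)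
  have hsq1 : 1 ≤ √(n : ℝ) := by
    rw [show (1 : ℝ) = √1 from by simp]
    exact Real.sqrt_le_sqrt hn'
  have hsqn : √(n : ℝ) ≤ n := by nlinarith
  have ha0 : 0 < a := by rw [ha]; positivity
  have ha2 : a * (2 * √n) = 1 := by rw [ha]; field_simp
  have ha1 : a ≤ 1 / 2 := by nlinarith
  have hb4 : 4 ≤ b := by rw [hb]; nlinarith
  have hmem : ∀ k, s k ∈ Icc a b := fun k => ⟨(hs k).1, (hs k).2⟩
  have hspos : ∀ k, 0 < s k := fun k => lt_of_lt_of_le ha0 (hs k).1
  have hβle : ∀ j k, β j (s k) ≤ 1 := by
    intro j k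
    rw [← hβ1 (s k) (hmem k)]
    exact Finset.single_le_sum (f := fun j => β j (s k)) (fun j _ => hβ0 j _ (hmem k))
      (Finset.mem_univ j)
  have hτ0 : ∀ j, 0 ≤ ∑ k, β j (s k) := fun j =>
    Finset.sum_nonneg fun k _ => hβ0 j _ (hmem k)
  have hτn : ∀ j, ∑ k, β j (s k) ≤ n := fun j => by
    have := Finset.sum_le_sum (s := Finset.univ) fun k (_ : k ∈ Finset.univ) => hβle j k
    simpa using this
  have hom_le : ∀ i, om n β s i ≤ √n := by
    intro i
    have h3 : om n β s i ≤ ∑ j, √n * β j (s i) := by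
      refine Finset.sum_le_sum fun j _ => ?_
      refine mul_le_mul_of_nonneg_right ?_ (hβ0 j _ (hmem i))
      refine Real.sqrt_le_sqrt ?_
      rw [div_le_iff₀ (by linarith [hτ0 j])]
      nlinarith [hτ0 j]
    rw [← Finset.mul_sum, hβ1 _ (hmem i), mul_one] at h3
    exact h3
  have hom_ge : ∀ i, √(1 / 2) ≤ om n β s i := by
    intro i
    have h3 : ∑ j, √(1 / 2) * β j (s i) ≤ om n β s i := by
      refine Finset.sum_le_sum fun j _ => ?_
      refine mul_le_mul_of_nonneg_right ?_ (hβ0 j _ (hmem i))
      refine Real.sqrt_le_sqrt ?_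
      rw [div_le_div_iff₀ (by norm_num) (by linarith [hτ0 j])]
      linarith [hτn j]
    rw [← Finset.mul_sum, hβ1 _ (hmem i), mul_one] at h3
    exact h3
  have hom0 : ∀ i, 0 ≤ om n β s i := fun i => (Real.sqrt_nonneg _).trans (hom_ge i)
  intro i
  constructor
  · -- lower
    refine lt_of_le_of_ne (hs i).1 fun hai => ?_
    have hδ : 0 < b - a := by linarith
    let c : Fin n → ℝ := Function.update s i b
    have hcK : dg e c ∈ KK n a b := by
      refine dg_mem_KK e c fun k => ?_
      by_cases hk : k = i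
      · subst hk
        simp only [c, Function.update_self]
        exact ⟨by linarith, le_refl _⟩
      · simp only [c, Function.update_of_ne hk]
        exact hs k
    have h3 := hvi _ hcK
    have h4 : ∑ k, om n β s k / s k * (⟪e k, dg e c (e k)⟫ - s k)
        = om n β s i / a * (b - a) := by
      rw [Finset.sum_eq_single i]
      · rw [inner_dg, e.inner_eq_one, mul_one, ← hai]
        simp only [c, Function.update_self]
      · intro k _ hk
        rw [inner_dg, e.inner_eq_one, mul_one]
        simp only [c, Function.update_of_ne hk]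
        ring
      · simp
    rw [h4] at h3
    have h5 : ell N (dg e c) - ell N (dg e s) ≤ (b - a) * √n := by
      refine (ell_sub_le N _ _).trans ?_
      have h6 : ∀ g, (dg e c - dg e s) g = ((b - a) * ⟪e i, g⟫) • e i := by
        intro g
        rw [sub_apply, dg_apply, dg_apply, ← Finset.sum_sub_distrib,
          Finset.sum_eq_single i]
        · rw [← sub_smul, ← sub_mul, ← hai]
          simp only [c, Function.update_self]
        · intro k _ hk
          simp only [c, Function.update_of_ne hk, sub_self]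
        · simp
      have h7 : ell N (dg e c - dg e s) ≤ ∫ g, ((b - a) * √n) * |⟪e i, g⟫| ∂(γ n) := by
        refine integral_mono (integrable_seminorm_comp N _)
          ((posInt_integrable_inner (e i)).const_mul _) fun g => ?_
        simp only
        rw [h6, map_smul_eq_mul, Real.norm_eq_abs, abs_mul, abs_of_pos hδ]
        have h8 := h2 (e i)
        rw [e.norm_eq_one, mul_one] at h8
        have h9 : 0 ≤ (b - a) * |⟪e i, g⟫| := by positivity
        calc (b - a) * |⟪e i, g⟫| * N (e i) ≤ (b - a) * |⟪e i, g⟫| * √n :=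
              mul_le_mul_of_nonneg_left h8 h9
          _ = _ := by ring
      rw [integral_const_mul] at h7
      have h8 := int_abs_inner_le (e i)
      rw [e.norm_eq_one] at h8
      have h9 : 0 ≤ (b - a) * √n := by positivity
      nlinarith
    have h6 : om n β s i / a ≤ √n := by
      have h7 : om n β s i / a * (b - a) ≤ √n * (b - a) := by linarith
      exact le_of_mul_le_mul_right h7 hδ
    rw [div_le_iff₀ ha0] at h6
    have h7 := hom_ge i
    have h8 : √(n : ℝ) * a = 1 / 2 := by linarith
    rw [h8] at h6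
    have h9 : (1 / 2 : ℝ) < √(1 / 2) := by
      rw [Real.lt_sqrt (by norm_num)]
      norm_num
    linarith
  · -- upper
    have hcK : dg e (fun _ => a) ∈ KK n a b :=
      dg_mem_KK e _ fun k => ⟨le_refl _, by linarith⟩
    have h3 := hvi _ hcK
    have h4 : -(n * √n) ≤ ∑ k, om n β s k / s k * (⟪e k, dg e (fun _ => a) (e k)⟫ - s k) := by
      have h5 : ∑ k : Fin n, (-√(n : ℝ))
          ≤ ∑ k, om n β s k / s k * (⟪e k, dg e (fun _ => a) (e k)⟫ - s k) := by
        refine Finset.sum_le_sum fun k _ => ?_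
        rw [inner_dg, e.inner_eq_one, mul_one]
        have h6 : om n β s k / s k * (a - s k) = om n β s k * a / s k - om n β s k := by
          have := (hspos k).ne'
          field_simp
        rw [h6]
        have h7 : 0 ≤ om n β s k * a / s k :=
          div_nonneg (mul_nonneg (hom0 k) ha0.le) (hspos k).le
        linarith [hom_le k]
      rw [Finset.sum_const, Finset.card_univ, Fintype.card_fin, nsmul_eq_mul] at h5
      linarith
    have h5 : ell N (dg e (fun _ => a)) ≤ √n / 2 := by
      have h6 : ∀ g, dg e (fun _ => a) g = a • g := by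
        intro g
        rw [dg_apply]
        conv_rhs => rw [← e.sum_repr' g]
        rw [Finset.smul_sum]
        refine Finset.sum_congr rfl fun k _ => ?_
        rw [smul_smul]
      have h0 : Integrable (fun g : E n => g) (γ n) := IsGaussian.integrable_fun_id
      have h7 : ell N (dg e (fun _ => a)) ≤ ∫ g, (a * √n) * ‖g‖ ∂(γ n) := by
        refine integral_mono (integrable_seminorm_comp N _) (h0.norm.const_mul _) fun g => ?_
        simp only
        rw [h6, map_smul_eq_mul, Real.norm_of_nonneg ha0.le, mul_assoc]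
        exact mul_le_mul_of_nonneg_left (h2 g) ha0.le
      rw [integral_const_mul] at h7
      have h8 := int_norm_le (m := n)
      have h9 : a * √(n : ℝ) = 1 / 2 := by linarith
      rw [h9] at h7
      linarith
    have h6 : s i / √3 ≤ ell N (dg e s) := by
      have h7 : ∫ g, s i * |⟪e i, g⟫| ∂(γ n) ≤ ell N (dg e s) := by
        refine integral_mono ((posInt_integrable_inner (e i)).const_mul _)
          (integrable_seminorm_comp N _) fun g => ?_
        simp only
        have h8 : s i * |⟪e i, g⟫| = |⟪e i, dg e s g⟫| := by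
          rw [inner_dg, abs_mul, abs_of_pos (hspos i)]
        rw [h8]
        have h9 := abs_real_inner_le_norm (e i) (dg e s g)
        rw [e.norm_eq_one, one_mul] at h9
        exact h9.trans (h1 _)
      rw [integral_const_mul] at h7
      have h8 := le_int_abs_inner (e i)
      rw [e.norm_eq_one] at h8
      have h9 := mul_le_mul_of_nonneg_left h8 (hspos i).le
      have h10 : s i * (1 / √3) = s i / √3 := by ring
      rw [h10] at h9
      linarith
    have h7 : s i / √3 ≤ √n / 2 + n * √n := by linarith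
    have h3p : (0 : ℝ) < √3 := Real.sqrt_pos.mpr (by norm_num)
    rw [div_le_iff₀ h3p] at h7
    have h8 : √3 < 2 := by
      rw [Real.sqrt_lt' (by norm_num)]
      norm_num
    have h9 : √(n : ℝ) / 2 + n * √n ≤ (3 / 2) * (n : ℝ) ^ 2 := by nlinarith
    have h10 : (√(n : ℝ) / 2 + n * √n) * √3 ≤ (3 / 2) * (n : ℝ) ^ 2 * √3 :=
      mul_le_mul_of_nonneg_right h9 h3p.le
    have h11 : (3 / 2) * (n : ℝ) ^ 2 * √3 < (3 / 2) * (n : ℝ) ^ 2 * 2 :=
      mul_lt_mul_of_pos_left h8 (by positivity)
    rw [hb]
    have h12 : 0 < (n : ℝ) ^ 2 := by positivity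
    linarith

end D7u
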