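import Pool.Agent.H.MP_d7d3dc_an.h17.Base

/-!
MP_d7d3dc_an, upper bound for `D_m`: from symmetric to arbitrary directions.
-/

set_option autoImplicit false

namespace D7u

open D546neg MeasureTheory ProbabilityTheory Set
open scoped RealInnerProductSpace BigOperators

/-- the operator with a given matrix in an orthonormal basis -/
private noncomputable def matOp {n : ℕ} (e : OrthonormalBasis (Fin n) ℝ (E n))
    (b : Fin n → Fin n → ℝ) : E n →L[ℝ] E n :=
  ∑ i, ∑ k, b i k • (innerSL ℝ (e k)).smulRight (e i)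

private lemma matOp_apply {n : ℕ} (e : OrthonormalBasis (Fin n) ℝ (E n))
    (b : Fin n → Fin n → ℝ) (x : E n) :
    matOp e b x = ∑ i, ∑ k, (b i k * ⟪e k, x⟫) • e i := by
  simp [matOp, smul_smul]

private lemma inner_matOp {n : ℕ} (e : OrthonormalBasis (Fin n) ℝ (E n))
    (b : Fin n → Fin n → ℝ) (x y : E n) :
    ⟪y, matOp e b x⟫ = ∑ i, ∑ k, b i k * ⟪e k, x⟫ * ⟪e i, y⟫ := by
  rw [matOp_apply, inner_sum]
  refine Finset.sum_congr rfl fun i _ => ?_
  rw [inner_sum]
  refine Finset.sum_congr rfl fun k _ => ?_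
  rw [real_inner_smul_right, real_inner_comm y (e i)]

private lemma inner_basis_matOp {n : ℕ} (e : OrthonormalBasis (Fin n) ℝ (E n))
    (b : Fin n → Fin n → ℝ) (i k : Fin n) :
    ⟪e i, matOp e b (e k)⟫ = b i k := by
  rw [inner_matOp, Finset.sum_eq_single i, Finset.sum_eq_single k]
  · simp
  · intro l _ hl
    rw [e.inner_eq_zero hl]; simp
  · simp
  · intro l _ hl
    refine Finset.sum_eq_zero fun j _ => ?_
    rw [e.inner_eq_zero hl]; simp
  · simp

private lemma symm_of_basis {n : ℕ} (e : OrthonormalBasis (Fin n) ℝ (E n))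
    (D : E n →L[ℝ] E n) (h : ∀ i k, ⟪e i, D (e k)⟫ = ⟪e k, D (e i)⟫) (x y : E n) :
    ⟪D x, y⟫ = ⟪x, D y⟫ := by
  have hx : ∀ z : E n, z = ∑ i, ⟪e i, z⟫ • e i := fun z => (e.sum_repr' z).symm
  have h1 : ⟪D x, y⟫ = ∑ k, ∑ i, ⟪e k, x⟫ * ⟪e i, y⟫ * ⟪e i, D (e k)⟫ := by
    conv_lhs => rw [hx x, hx y]
    rw [map_sum, sum_inner]
    refine Finset.sum_congr rfl fun k _ => ?_
    rw [inner_sum]
    refine Finset.sum_congr rfl fun i _ => ?_
    rw [map_smul, real_inner_smul_left, real_inner_smul_right, real_inner_comm (e i)]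
    ring
  have h2 : ⟪x, D y⟫ = ∑ k, ∑ i, ⟪e k, x⟫ * ⟪e i, y⟫ * ⟪e k, D (e i)⟫ := by
    conv_lhs => rw [hx x, hx y]
    rw [map_sum, sum_inner]
    refine Finset.sum_congr rfl fun k _ => ?_
    rw [inner_sum]
    refine Finset.sum_congr rfl fun i _ => ?_
    rw [map_smul, real_inner_smul_left, real_inner_smul_right]
    ring
  rw [h1, h2]
  refine Finset.sum_congr rfl fun k _ => Finset.sum_congr rfl fun i _ => ?_
  rw [h i k]

private lemma exists_rot {n : ℕ} (N : Seminorm ℝ (E n)) (C : E n →L[ℝ] E n)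
    (hC : C ∈ skewAdjoint (E n →L[ℝ] E n)) :
    ∃ R : ℝ → (E n →L[ℝ] E n), R 0 = 1 ∧ HasDerivAt R C 0 ∧
      ∀ (t : ℝ) (X : E n →L[ℝ] E n), ell N (X * R t) = ell N X := by
  let _ : NormedAlgebra ℚ (E n →L[ℝ] E n) := .restrictScalars ℚ ℝ (E n →L[ℝ] E n)
  have hz : (0 : ℝ) • C = 0 := zero_smul ℝ C
  refine ⟨fun t => NormedSpace.exp (t • C), ?_, ?_, fun t X => ?_⟩
  · show NormedSpace.exp ((0 : ℝ) • C) = 1
    rw [hz, NormedSpace.exp_zero]
  · have h2 := hasDerivAt_exp_smul_const (𝕂 := ℝ) C (0 : ℝ)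
    rw [hz, NormedSpace.exp_zero, one_mul] at h2
    exact h2
  · have h1 := NormedSpace.exp_mem_unitary_of_mem_skewAdjoint (skewAdjoint.smul_mem t hC)
    have h2 := ell_comp_isometry N X (Unitary.linearIsometryEquiv ⟨_, h1⟩)
    rw [← h2]
    rfl

theorem vi_nonsymm (n : ℕ) (N : Seminorm ℝ (E n))
    (e : OrthonormalBasis (Fin n) ℝ (E n)) (s w : Fin n → ℝ) (hs : ∀ i, 0 < s i)
    (hsym : ∀ δ : E n →L[ℝ] E n, (∀ x y, ⟪δ x, y⟫ = ⟪x, δ y⟫) → ∃ t₀ > 0, ∀ t : ℝ, 0 < t → t ≤ t₀ →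
      t * ∑ i, w i / s i * ⟪e i, δ (e i)⟫ ≤ ell N (dg e s + t • δ) - ell N (dg e s))
    (v : E n →L[ℝ] E n) : ∑ i, w i / s i * ⟪e i, v (e i)⟫ ≤ ell N v := by
  set T := dg e s with hT
  set b : Fin n → Fin n → ℝ := fun i k => (⟪e i, v (e k)⟫ - ⟪e k, v (e i)⟫) / (s i + s k) with hb
  set B := matOp e b with hB
  set δ : E n →L[ℝ] E n := v - T * B with hδ
  have hbskew : ∀ i k, b i k = - b k i := by
    intro i k
    simp only [hb]
    rw [add_comm (s k) (s i), ← neg_div, neg_sub]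
  have hδe : ∀ i k, ⟪e i, δ (e k)⟫ = ⟪e i, v (e k)⟫ - s i * b i k := by
    intro i k
    have h0 : (T * B) (e k) = T (B (e k)) := rfl
    rw [hδ, sub_apply, inner_sub_right, h0, hT,
      inner_dg, hB, inner_basis_matOp]
  have hδs : ∀ i k, ⟪e i, δ (e k)⟫ = ⟪e k, δ (e i)⟫ := by
    intro i k
    rw [hδe, hδe]
    simp only [hb]
    have h1 : s i + s k ≠ 0 := (add_pos (hs i) (hs k)).ne'
    have h2 : s k + s i ≠ 0 := (add_pos (hs k) (hs i)).ne'
    field_simp
    ring
  have hδd : ∀ i, ⟪e i, δ (e i)⟫ = ⟪e i, v (e i)⟫ := by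
    intro i
    rw [hδe]
    simp only [hb, sub_self, zero_div, mul_zero, sub_zero]
  obtain ⟨t₀, ht₀, hmain⟩ := hsym δ (symm_of_basis e δ hδs)
  -- the rotations
  have hskew : -B ∈ skewAdjoint (E n →L[ℝ] E n) := by
    have hadj : -B = ContinuousLinearMap.adjoint B := by
      rw [ContinuousLinearMap.eq_adjoint_iff]
      intro x y
      rw [neg_apply, inner_neg_left, real_inner_comm, hB, inner_matOp,
        inner_matOp, Finset.sum_comm, ← Finset.sum_neg_distrib]
      refine Finset.sum_congr rfl fun i _ => ?_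
      rw [← Finset.sum_neg_distrib]
      refine Finset.sum_congr rfl fun k _ => ?_
      rw [hbskew k i]
      ring
    rw [skewAdjoint.mem_iff, star_neg, neg_neg, ContinuousLinearMap.star_eq_adjoint, ← hadj,
      neg_neg]
  obtain ⟨R, hR0, hRd, hrot⟩ := exists_rot N (-B) hskew
  set F : ℝ → (E n →L[ℝ] E n) := fun t => (T + t • v) * R t with hF
  have hz : (0 : ℝ) • v = 0 := zero_smul ℝ v
  have hF0 : F 0 = T := by
    show (T + (0 : ℝ) • v) * R 0 = T
    rw [hz, add_zero, hR0, mul_one]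
  have hFd : HasDerivAt F δ 0 := by
    have h1 : HasDerivAt (fun t : ℝ => T + t • v) v 0 := by
      have h0 := ((hasDerivAt_id (0 : ℝ)).smul_const v).const_add T
      rw [one_smul] at h0
      exact h0
    have h3 := h1.mul hRd
    have h30 : v * R 0 + (T + (0 : ℝ) • v) * -B = δ := by
      rw [hR0, hz, add_zero, mul_one]
      have hm : T * (-B) = -(T * B) := mul_neg T B
      rw [hm, hδ]
      exact (sub_eq_add_neg v (T * B)).symm
    rw [h30] at h3
    exact h3
  obtain ⟨d, hd, hdl⟩ := ell_le_norm N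
  refine le_of_forall_pos_le_add fun ε hε => ?_
  have h4 := (hasDerivAt_iff_isLittleO.1 hFd).def (div_pos hε hd)
  obtain ⟨r, hr, hball⟩ := Metric.eventually_nhds_iff.1 h4
  set t := min t₀ (r / 2) with ht
  have htpos : 0 < t := lt_min ht₀ (half_pos hr)
  have ht1 : t ≤ t₀ := min_le_left _ _
  have ht2 : dist t 0 < r := by
    rw [Real.dist_eq, sub_zero, abs_of_pos htpos]
    exact (min_le_right _ _).trans_lt (half_lt_self hr)
  have h5 := hball ht2
  rw [hF0, sub_zero, Real.norm_of_nonneg htpos.le] at h5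
  have h6 := hmain t htpos ht1
  simp only [hδd] at h6
  have h7 : ell N (T + t • δ) - ell N (F t) ≤ d * (ε / d * t) := by
    refine (ell_sub_le N _ _).trans ((hdl _).trans (mul_le_mul_of_nonneg_left ?_ hd.le))
    rw [← norm_neg]
    refine le_trans (le_of_eq (congrArg _ ?_)) h5
    abel
  have h8 : ell N (F t) = ell N (T + t • v) := hrot t _
  have h9 : ell N (T + t • v) ≤ ell N T + t * ell N v := by
    refine (ell_add_le N _ _).trans ?_
    rw [ell_smul, abs_of_pos htpos]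
  have h10 : d * (ε / d * t) = ε * t := by field_simp
  have h11 : t * ∑ i, w i / s i * ⟪e i, v (e i)⟫ ≤ t * (ell N v + ε) := by
    nlinarith
  exact le_of_mul_le_mul_left h11 htpos

end D7u
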