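import Pool.Agent.H.MP_d7d3dc_an.h17.Base

/-!
MP_d7d3dc_an, upper bound for `D_m`: first order conditions at an interior solution.
-/

set_option autoImplicit false

namespace D7u

open D546neg MeasureTheory ProbabilityTheory Set
open scoped RealInnerProductSpace BigOperators

private lemma posSym_gap (n : ℕ) (a b : ℝ) (s : Fin n → ℝ) (hs : ∀ i, a < s i ∧ s i < b) :
    ∃ ε > 0, ∀ i, a + ε ≤ s i ∧ s i + ε ≤ b := by
  rcases isEmpty_or_nonempty (Fin n) with h | h
  · exact ⟨1, one_pos, fun i => h.elim i⟩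
  · obtain ⟨i, hi⟩ := Finite.exists_min fun i => min (s i - a) (b - s i)
    refine ⟨min (s i - a) (b - s i), ?_, fun j => ?_⟩
    · exact lt_min (by linarith [(hs i).1]) (by linarith [(hs i).2])
    · have h1 := (hi j).trans (min_le_left _ _)
      have h2 := (hi j).trans (min_le_right _ _)
      constructor <;> linarith

/-- symmetric directions. -/
theorem vi_symm (n : ℕ) (N : Seminorm ℝ (E n)) (a b : ℝ) 
    (e : OrthonormalBasis (Fin n) ℝ (E n)) (s w : Fin n → ℝ) (hs : ∀ i, a < s i ∧ s i < b)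
    (hvi : ∀ T' ∈ KK n a b, ∑ i, w i / s i * (⟪e i, T' (e i)⟫ - s i)
        ≤ ell N T' - ell N (dg e s))
    (δ : E n →L[ℝ] E n) (hδ : ∀ x y, ⟪δ x, y⟫ = ⟪x, δ y⟫) :
    ∃ t₀ > 0, ∀ t : ℝ, 0 < t → t ≤ t₀ →
      t * ∑ i, w i / s i * ⟪e i, δ (e i)⟫ ≤ ell N (dg e s + t • δ) - ell N (dg e s) := by
  obtain ⟨ε, hε, hgap⟩ := posSym_gap n a b s hs
  refine ⟨ε / (‖δ‖ + 1), by positivity, fun t ht ht2 => ?_⟩
  have hδ0 := norm_nonneg δ
  have hmem : dg e s + t • δ ∈ KK n a b := by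
    refine ⟨fun x y => ?_, fun x => ?_⟩
    · simp only [_root_.add_apply, _root_.smul_apply, inner_add_left,
        inner_add_right, real_inner_smul_left, real_inner_smul_right, dg_symm e s x y, hδ x y]
    · have h1 : ⟪(dg e s + t • δ) x, x⟫ = ∑ i, s i * ⟪e i, x⟫ ^ 2 + t * ⟪δ x, x⟫ := by
        rw [_root_.add_apply, inner_add_left, dg_inner_self,
          _root_.smul_apply, real_inner_smul_left]
      have h2 : |⟪δ x, x⟫| ≤ ‖δ‖ * ‖x‖ ^ 2 := by
        refine (abs_real_inner_le_norm _ _).trans ?_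
        have := δ.le_opNorm x
        have h3 := norm_nonneg x
        nlinarith
      have h3 : |t * ⟪δ x, x⟫| ≤ ε * ‖x‖ ^ 2 := by
        rw [abs_mul, abs_of_pos ht]
        have h4 : t * (‖δ‖ + 1) ≤ ε := by
          rwa [le_div_iff₀ (by positivity)] at ht2
        have h5 : t * ‖δ‖ ≤ ε := by nlinarith
        calc t * |⟪δ x, x⟫| ≤ t * (‖δ‖ * ‖x‖ ^ 2) := mul_le_mul_of_nonneg_left h2 ht.le
          _ = t * ‖δ‖ * ‖x‖ ^ 2 := by ring
          _ ≤ ε * ‖x‖ ^ 2 := mul_le_mul_of_nonneg_right h5 (sq_nonneg _)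
      have h4 := abs_le.1 h3
      have h5 : (a + ε) * ‖x‖ ^ 2 ≤ ∑ i, s i * ⟪e i, x⟫ ^ 2 := by
        rw [← sum_inner_sq e, Finset.mul_sum]
        exact Finset.sum_le_sum fun i _ => mul_le_mul_of_nonneg_right (hgap i).1 (sq_nonneg _)
      have h6 : ∑ i, s i * ⟪e i, x⟫ ^ 2 ≤ (b - ε) * ‖x‖ ^ 2 := by
        rw [← sum_inner_sq e, Finset.mul_sum]
        exact Finset.sum_le_sum fun i _ =>
          mul_le_mul_of_nonneg_right (by linarith [(hgap i).2]) (sq_nonneg _)
      rw [h1]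
      constructor <;> nlinarith [h4.1, h4.2]
  refine le_trans (le_of_eq ?_) (hvi _ hmem)
  rw [Finset.mul_sum]
  refine Finset.sum_congr rfl fun i _ => ?_
  rw [_root_.add_apply, inner_add_right, inner_dg, e.inner_eq_one,
    _root_.smul_apply, real_inner_smul_right]
  ring

/-- the radial direction. -/
theorem vi_radial (n : ℕ) (N : Seminorm ℝ (E n)) (a b : ℝ) (ha : 0 < a)
    (e : OrthonormalBasis (Fin n) ℝ (E n)) (s w : Fin n → ℝ) (hs : ∀ i, a < s i ∧ s i < b)
    (hvi : ∀ T' ∈ KK n a b, ∑ i, w i / s i * (⟪e i, T' (e i)⟫ - s i)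
        ≤ ell N T' - ell N (dg e s)) :
    ell N (dg e s) ≤ ∑ i, w i := by
  obtain ⟨t₀, ht₀, h⟩ := vi_symm n N a b e s w hs hvi (-dg e s) (by
    intro x y
    simp only [_root_.neg_apply, inner_neg_left, inner_neg_right, dg_symm e s x y])
  set t : ℝ := min t₀ (1 / 2) with ht
  have ht1 : 0 < t := lt_min ht₀ (by norm_num)
  have ht2 : t ≤ 1 / 2 := min_le_right _ _
  have h1 := h t ht1 (min_le_left _ _)
  have h2 : dg e s + t • (-dg e s) = (1 - t) • dg e s := by
    ext1 x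
    simp only [_root_.add_apply, _root_.smul_apply, _root_.neg_apply, smul_neg, sub_smul, one_smul,
      _root_.sub_apply]
    abel
  rw [h2, ell_smul, abs_of_pos (by linarith)] at h1
  have h3 : ∑ i, w i / s i * ⟪e i, (-dg e s) (e i)⟫ = -∑ i, w i := by
    rw [← Finset.sum_neg_distrib]
    refine Finset.sum_congr rfl fun i _ => ?_
    have hsi : s i ≠ 0 := (ha.trans (hs i).1).ne'
    rw [_root_.neg_apply, inner_neg_right, inner_dg, e.inner_eq_one]
    field_simp
  rw [h3] at h1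
  have h4 : t * ell N (dg e s) ≤ t * ∑ i, w i := by linarith
  exact le_of_mul_le_mul_left h4 ht1

end D7u
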