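import Pool.Agent.H.MP_d7d3dc_an.h17.VI
import Pool.Agent.H.MP_d7d3dc_an.h17.FC

/-!
MP_d7d3dc_an, upper bound for `D_m`: existence of the weighted position, variational form.
-/

set_option autoImplicit false

namespace D7u

open D546neg MeasureTheory ProbabilityTheory Set
open scoped RealInnerProductSpace BigOperators

/-- the trace as a continuous linear functional. -/
private noncomputable def trL (n : ℕ) : (E n →L[ℝ] E n) →L[ℝ] ℝ :=
  LinearMap.toContinuousLinearMap
    ((LinearMap.trace ℝ (E n)).comp (ContinuousLinearMap.coeLM ℝ))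

private lemma trL_apply (n : ℕ) (A : E n →L[ℝ] E n) (e : OrthonormalBasis (Fin n) ℝ (E n)) :
    trL n A = ∑ i, ⟪e i, A (e i)⟫ := by
  rw [← trace_eq e A]
  rfl

theorem exists_vi (n : ℕ) (N : Seminorm ℝ (E n)) (a b : ℝ) (ha : 0 < a) (hab : a ≤ b)
    (J : ℕ) (β : Fin (J + 1) → ℝ → ℝ) (hβc : ∀ j, ContinuousOn (β j) (Icc a b))
    (hβ0 : ∀ j, ∀ t ∈ Icc a b, 0 ≤ β j t) :
    ∃ (e : OrthonormalBasis (Fin n) ℝ (E n)) (s : Fin n → ℝ),
      (∀ i, a ≤ s i ∧ s i ≤ b) ∧
      ∀ T' ∈ KK n a b, ∑ i, om n β s i / s i * (⟪e i, T' (e i)⟫ - s i)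
        ≤ ell N T' - ell N (dg e s) := by
  classical
  choose Φ hΦc hΦ using fun j => exists_fc n a b (β j) (hβc j)
  have hψc : ∀ j, ContinuousOn (fun t => β j t / t) (Icc a b) := fun j =>
    (hβc j).div continuousOn_id (fun t ht => (lt_of_lt_of_le ha ht.1).ne')
  choose Ψ hΨc hΨ using fun j => exists_fc n a b (fun t => β j t / t) (hψc j)
  -- the traces
  have htr : ∀ j, ∀ (e : OrthonormalBasis (Fin n) ℝ (E n)) (s : Fin n → ℝ),
      dg e s ∈ KK n a b → trL n (Φ j (dg e s)) = ∑ i, β j (s i) := by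
    intro j e s hT
    rw [trL_apply n _ e]
    refine Finset.sum_congr rfl fun i _ => ?_
    rw [hΦ j _ hT (e i) (s i) (dg_basis e s i), real_inner_smul_right, e.inner_eq_one, mul_one]
  have htr0 : ∀ j, ∀ T ∈ KK n a b, 0 ≤ trL n (Φ j T) := by
    intro j T hT
    obtain ⟨e, s, hs, rfl⟩ := KK_spectral n a b T hT
    rw [htr j e s hT]
    exact Finset.sum_nonneg fun i _ => hβ0 j _ ⟨(hs i).1, (hs i).2⟩
  set A : (E n →L[ℝ] E n) → (E n →L[ℝ] E n) :=
    fun T => ∑ j, √(n / (1 + trL n (Φ j T))) • Ψ j T with hAdef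
  have hA : ContinuousOn A (KK n a b) := by
    refine continuousOn_finsetSum _ fun j _ => ?_
    have h1 : ContinuousOn (fun T : E n →L[ℝ] E n => √(n / (1 + trL n (Φ j T)))) (KK n a b) := by
      refine Real.continuous_sqrt.comp_continuousOn (ContinuousOn.div continuousOn_const
        (continuousOn_const.add ((trL n).continuous.comp_continuousOn (hΦc j))) fun T hT => ?_)
      have h2 := htr0 j T hT
      have h3 : 0 < 1 + trL n (Φ j T) := by linarith
      exact h3.ne'
    exact h1.smul (hΨc j)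
  set F : (E n →L[ℝ] E n) → ((E n →L[ℝ] E n) →L[ℝ] ℝ) := fun T =>
    (ContinuousLinearMap.compL ℝ (E n →L[ℝ] E n) (E n →L[ℝ] E n) ℝ (trL n))
      ((ContinuousLinearMap.compL ℝ (E n) (E n) (E n)) (A T)) with hFdef
  have hF : ContinuousOn F (KK n a b) := by
    refine (ContinuousLinearMap.continuous _).comp_continuousOn
      ((ContinuousLinearMap.continuous _).comp_continuousOn hA)
  have hne : (KK n a b).Nonempty :=
    ⟨dg (EuclideanSpace.basisFun (Fin n) ℝ) fun _ => a, dg_mem_KK _ _ fun _ => ⟨le_rfl, hab⟩⟩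
  obtain ⟨T, hT, hsol⟩ := exists_vi_sol (KK n a b) (KK_compact n a b) (KK_convex n a b) hne
    (ell N) (ell_continuous N) (ell_convexOn N) F hF
  obtain ⟨e, s, hs, rfl⟩ := KK_spectral n a b T hT
  refine ⟨e, s, hs, fun T' hT' => ?_⟩
  have h1 := hsol T' hT'
  refine le_trans (le_of_eq ?_) h1
  -- the action of `A (dg e s)`
  have hAe : A (dg e s) = dg e (fun i => om n β s i / s i) := by
    refine ext_basis e fun i => ?_
    rw [dg_basis, hAdef]
    simp only [sum_apply, smul_apply]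
    rw [om, Finset.sum_div, Finset.sum_smul]
    refine Finset.sum_congr rfl fun j _ => ?_
    rw [hΨ j _ hT (e i) (s i) (dg_basis e s i), htr j e s hT, smul_smul]
    congr 1
    ring
  have h2 : F (dg e s) (T' - dg e s) = trL n ((A (dg e s)).comp (T' - dg e s)) := rfl
  rw [h2, trL_apply n _ e, hAe]
  refine Finset.sum_congr rfl fun i _ => ?_
  rw [ContinuousLinearMap.comp_apply, inner_dg, sub_apply, inner_sub_right,
    dg_basis, real_inner_smul_right, e.inner_eq_one, mul_one]

end D7u
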