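import Pool.Agent.H.MP_d7d3dc_an.h17.PosVI
import Pool.Agent.H.MP_d7d3dc_an.h17.PosInt
import Pool.Agent.H.MP_d7d3dc_an.h17.PosSym
import Pool.Agent.H.MP_d7d3dc_an.h17.PosNS
import Pool.Agent.H.MP_d7d3dc_an.h17.DualB

/-!
MP_d7d3dc_an, upper bound for `D_m`: the weighted position.
-/

set_option autoImplicit false

namespace D7u

open D546neg MeasureTheory ProbabilityTheory Set
open scoped RealInnerProductSpace BigOperators

private lemma position_term {n : ℕ} {τ : ℝ} (h0 : 0 ≤ τ) (h1 : τ ≤ n) :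
    √(n / (1 + τ)) * τ ≤ n := by
  have hn : (0 : ℝ) ≤ n := Nat.cast_nonneg n
  have h2 : √(n / (1 + τ)) * τ = √(n / (1 + τ) * τ ^ 2) := by
    rw [Real.sqrt_mul (by positivity), Real.sqrt_sq h0]
  rw [h2]
  refine Real.sqrt_le_iff.2 ⟨hn, ?_⟩
  rw [div_mul_eq_mul_div, div_le_iff₀ (by positivity)]
  have : τ ^ 2 ≤ n * (1 + τ) := by nlinarith
  nlinarith

theorem position (n : ℕ) (hn : 1 ≤ n) (n₀ : ℕ) (hn₀ : 1 ≤ n₀) (hn₁ : √n ≤ 4 ^ n₀)
    (N : Seminorm ℝ (E n)) (h1 : ∀ x, ‖x‖ ≤ N x)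
    (h2 : ∀ x, N x ≤ √n * ‖x‖) (a b : ℝ) (ha : a = 1 / (2 * √n)) (hb : b = 4 * (n : ℝ) ^ 2)
    (J : ℕ) (β : Fin (J + 1) → ℝ → ℝ) (hβc : ∀ j, ContinuousOn (β j) (Icc a b))
    (hβ0 : ∀ j, ∀ t ∈ Icc a b, 0 ≤ β j t) (hβ1 : ∀ t ∈ Icc a b, ∑ j, β j t = 1) :
    ∃ (e : OrthonormalBasis (Fin n) ℝ (E n)) (s : Fin n → ℝ),
      (∀ i, a ≤ s i ∧ s i ≤ b) ∧ ell N (dg e s) ≤ (J + 1) * n ∧
      ∫ g, dualN N (dg e (fun i => om n β s i / s i) g) ∂(γ n) ≤ 6 * (n₀ : ℝ) ^ 2 := by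
  have hn1 : (1 : ℝ) ≤ n := by exact_mod_cast hn
  have hsq : 1 ≤ √(n : ℝ) := by rw [Real.one_le_sqrt]; exact hn1
  have ha0 : 0 < a := by rw [ha]; positivity
  have hab : a ≤ b := by
    rw [ha, hb]
    have h3 : 1 / (2 * √(n : ℝ)) ≤ 1 := by
      rw [div_le_one (by positivity)]; linarith
    nlinarith
  obtain ⟨e, s, hs, hvi⟩ := exists_vi n N a b ha0 hab J β hβc hβ0
  have hint := vi_interior n hn N h1 h2 a b ha hb J β hβ0 hβ1 e s hs hvi
  have hspos : ∀ i, 0 < s i := fun i => ha0.trans (hint i).1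
  have hrad := vi_radial n N a b ha0 e s (om n β s) hint hvi
  have hns := fun v => vi_nonsymm n N e s (om n β s) hspos
    (fun δ hδ => vi_symm n N a b e s (om n β s) hint hvi δ hδ) v
  refine ⟨e, s, hs, hrad.trans ?_, ?_⟩
  · -- the sum of the weights
    have hβ2 : ∀ j, ∀ t ∈ Icc a b, β j t ≤ 1 := by
      intro j t ht
      rw [← hβ1 t ht]
      exact Finset.single_le_sum (f := fun j => β j t) (fun k _ => hβ0 k t ht) (Finset.mem_univ j)
    have e1 : ∑ i, om n β s i = ∑ j, √(n / (1 + ∑ k, β j (s k))) * ∑ i, β j (s i) := by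
      unfold om
      rw [Finset.sum_comm]
      refine Finset.sum_congr rfl fun j _ => ?_
      rw [Finset.mul_sum]
    rw [e1]
    calc ∑ j, √(n / (1 + ∑ k, β j (s k))) * ∑ i, β j (s i) ≤ ∑ _j : Fin (J + 1), (n : ℝ) := by
          refine Finset.sum_le_sum fun j _ => ?_
          refine position_term (Finset.sum_nonneg fun i _ => hβ0 j _ (hs i)) ?_
          calc ∑ i, β j (s i) ≤ ∑ _i : Fin n, (1 : ℝ) :=
                Finset.sum_le_sum fun i _ => hβ2 j _ (hs i)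
            _ = n := by simp
      _ = (J + 1) * n := by simp
  · -- the dual bound
    have hadj : ContinuousLinearMap.adjoint (dg e fun i => om n β s i / s i)
        = dg e fun i => om n β s i / s i := by
      symm
      rw [ContinuousLinearMap.eq_adjoint_iff]
      intro x y
      exact dg_symm e _ x y
    have h3 := dual_bound n n₀ hn₀ N h1
      (fun x => (h2 x).trans (mul_le_mul_of_nonneg_right hn₁ (norm_nonneg x)))
      (dg e fun i => om n β s i / s i) (by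
        intro v
        rw [trace_eq e]
        refine le_trans (le_of_eq ?_) (hns v)
        refine Finset.sum_congr rfl fun i _ => ?_
        rw [ContinuousLinearMap.comp_apply, inner_dg])
    rw [hadj] at h3
    exact h3

end D7u
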