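import Pool.Agent.H.MP_d7d3dc_an.h17.Conc
import Pool.Agent.H.MP_d7d3dc_an.h17.HaarAvg
import Pool.Agent.H.MP_d7d3dc_an.h17.GB

/-!
MP_d7d3dc_an, upper bound for `D_m`: the random rotation lemma.
-/

set_option autoImplicit false

namespace D7u

open D546neg MeasureTheory ProbabilityTheory Set
open scoped RealInnerProductSpace BigOperators ENNReal

private lemma rot_ofReal_integral_le {α : Type*} [MeasurableSpace α] (μ : Measure α) (f : α → ℝ)
    (hf : Integrable f μ) : ENNReal.ofReal (∫ x, f x ∂μ) ≤ ∫⁻ x, ENNReal.ofReal (f x) ∂μ := by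
  have h1 : ∫ x, f x ∂μ ≤ ∫ x, max (f x) 0 ∂μ :=
    integral_mono hf hf.pos_part fun x => le_max_left _ _
  refine (ENNReal.ofReal_le_ofReal h1).trans ?_
  rw [ofReal_integral_eq_lintegral_ofReal hf.pos_part
    (Filter.Eventually.of_forall fun x => le_max_right _ _)]
  refine lintegral_mono fun x => ?_
  rw [ENNReal.ofReal_max]
  simp

private lemma rot_exp_norm (m : ℕ) (k : ℝ) (hk : 0 ≤ k) :
    ENNReal.ofReal (Real.exp (√(m / 3) * k)) ≤ ∫⁻ g, ENNReal.ofReal (Real.exp (‖g‖ * k)) ∂(γ m) := by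
  have h0 : Integrable (fun g : E m => g) (γ m) := IsGaussian.integrable_fun_id
  have hi1 : Integrable (fun g : E m => ‖g‖ - √(m / 3)) (γ m) :=
    h0.norm.sub (integrable_const _)
  have hi2 : Integrable (fun g : E m => 1 + k * (‖g‖ - √(m / 3))) (γ m) :=
    (integrable_const _).add (hi1.const_mul k)
  have hi : Integrable (fun g : E m =>
      Real.exp (√(m / 3) * k) * (1 + k * (‖g‖ - √(m / 3)))) (γ m) := hi2.const_mul _
  have h1 : Real.exp (√(m / 3) * k)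
      ≤ ∫ g, Real.exp (√(m / 3) * k) * (1 + k * (‖g‖ - √(m / 3))) ∂(γ m) := by
    rw [integral_const_mul, integral_add (integrable_const _) (hi1.const_mul k),
      integral_const_mul, integral_sub h0.norm (integrable_const _)]
    simp only [integral_const, probReal_univ, one_smul]
    have h2 := le_int_norm (m := m)
    have h3 : 0 ≤ k * (∫ g, ‖g‖ ∂(γ m) - √(m / 3)) := mul_nonneg hk (by linarith)
    have h4 := Real.exp_pos (√(m / 3) * k)
    nlinarith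
  refine (ENNReal.ofReal_le_ofReal h1).trans ((rot_ofReal_integral_le _ _ hi).trans ?_)
  refine lintegral_mono fun g => ENNReal.ofReal_le_ofReal ?_
  have h5 : Real.exp (‖g‖ * k) = Real.exp (√(m / 3) * k) * Real.exp (k * (‖g‖ - √(m / 3))) := by
    rw [← Real.exp_add]
    ring_nf
  rw [h5]
  refine mul_le_mul_of_nonneg_left ?_ (Real.exp_pos _).le
  have := Real.add_one_le_exp (k * (‖g‖ - √(m / 3)))
  linarith

/-- one seminorm: exponential moments at a random point of the sphere. -/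
theorem rot_moment (m : ℕ) (hm : 1 ≤ m) {Ω : Type} [MeasurableSpace Ω] (μ : Measure Ω)
    [IsProbabilityMeasure μ] (R : Ω → (E m ≃ₗᵢ[ℝ] E m)) (hR : ∀ θ, Measurable fun ω => R ω θ)
    (hav : ∀ θ : E m, ‖θ‖ = 1 → ∀ h : E m → ℝ≥0∞, Measurable h →
        ∫⁻ g, ∫⁻ ω, h (‖g‖ • R ω θ) ∂μ ∂(γ m) = ∫⁻ g, h g ∂(γ m))
    (P : Seminorm ℝ (E m)) (c : ℝ) (hc : 0 ≤ c) (hP : ∀ x, P x ≤ c * ‖x‖) (θ : E m)
    (hθ : ‖θ‖ = 1) :
    ∫⁻ ω, ENNReal.ofReal (Real.exp (√(m / 3) * P (R ω θ))) ∂μ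
      ≤ ENNReal.ofReal (Real.exp (∫ g, P g ∂(γ m) + c ^ 2)) := by
  have hPm : Measurable fun x : E m => P x := (seminorm_continuous P).measurable
  have h1 := hav θ hθ (fun x => ENNReal.ofReal (Real.exp (P x))) (by fun_prop)
  have h2 := gauss_conc m P c hc hP
  rw [← h1] at h2
  refine le_trans ?_ h2
  have h3 : ∀ (g : E m) (ω : Ω), P (‖g‖ • R ω θ) = ‖g‖ * P (R ω θ) := by
    intro g ω
    rw [map_smul_eq_mul, Real.norm_of_nonneg (norm_nonneg g)]
  simp_rw [h3]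
  have hRm : Measurable fun ω => P (R ω θ) := hPm.comp (hR θ)
  rw [lintegral_lintegral_swap]
  · exact lintegral_mono fun ω => rot_exp_norm m _ (apply_nonneg P _)
  · refine Measurable.aemeasurable ?_
    refine ENNReal.measurable_ofReal.comp (Real.measurable_exp.comp ?_)
    exact (measurable_fst.norm).mul (hRm.comp measurable_snd)

/-- one seminorm: union bound. -/
theorem rot_union (m : ℕ) (hm : 1 ≤ m) {Ω : Type} [MeasurableSpace Ω] (μ : Measure Ω)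
    [IsProbabilityMeasure μ] (R : Ω → (E m ≃ₗᵢ[ℝ] E m)) (hR : ∀ θ, Measurable fun ω => R ω θ)
    (hmom : ∀ (P : Seminorm ℝ (E m)) (c : ℝ), 0 ≤ c → (∀ x, P x ≤ c * ‖x‖) → ∀ θ : E m,
      ‖θ‖ = 1 → ∫⁻ ω, ENNReal.ofReal (Real.exp (√(m / 3) * P (R ω θ))) ∂μ
        ≤ ENNReal.ofReal (Real.exp (∫ g, P g ∂(γ m) + c ^ 2)))
    (P : Seminorm ℝ (E m)) (c : ℝ) (hc : 0 < c) (hP : ∀ x, P x ≤ c * ‖x‖)
    (Θ : Finset (E m)) (ρ : ℝ) (hΘ : ∀ θ ∈ Θ, ‖θ‖ ≤ ρ) (W : ℝ) (hW : 0 < W)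
    (hcard : 3 * (Θ.card : ℝ) ≤ Real.exp (W ^ 2)) :
    μ {ω | ∃ θ ∈ Θ, ρ * √(3 / m) * (∫ g, P g ∂(γ m) + 2 * c * W) < P (R ω θ)}
      ≤ ENNReal.ofReal (1 / 3) := by
  have hmR : (0 : ℝ) < m := by exact_mod_cast hm
  have hEP : 0 ≤ ∫ g, P g ∂(γ m) := integral_nonneg fun _ => apply_nonneg P _
  have hs1 : 0 < √(m / 3 : ℝ) := Real.sqrt_pos.2 (by positivity)
  have hs : √(m / 3 : ℝ) * √(3 / m) = 1 := by
    rw [← Real.sqrt_mul (by positivity)]
    have : (m / 3 : ℝ) * (3 / m) = 1 := by field_simp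
    rw [this, Real.sqrt_one]
  -- the bound for one point
  have hone : ∀ θ ∈ Θ, μ {ω | ρ * √(3 / m) * (∫ g, P g ∂(γ m) + 2 * c * W) < P (R ω θ)}
      ≤ ENNReal.ofReal (Real.exp (-(W ^ 2))) := by
    intro θ hθ
    by_cases h0 : θ = 0
    · have hρ : 0 ≤ ρ := (norm_nonneg θ).trans (hΘ θ hθ)
      have : {ω | ρ * √(3 / m) * (∫ g, P g ∂(γ m) + 2 * c * W) < P (R ω θ)} = ∅ := by
        ext ω
        simp only [mem_ofPred_eq, mem_empty_iff_false, iff_false, not_lt]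
        rw [h0, map_zero, map_zero]
        positivity
      rw [this, measure_empty]
      exact zero_le
    · have hn : 0 < ‖θ‖ := norm_pos_iff.2 h0
      have hρ : 0 < ρ := hn.trans_le (hΘ θ hθ)
      set θ' : E m := (‖θ‖)⁻¹ • θ with hθ'
      have hn' : ‖θ'‖ = 1 := by
        rw [hθ', norm_smul, norm_inv, norm_norm, inv_mul_cancel₀ hn.ne']
      have hθe : θ = ‖θ‖ • θ' := by
        rw [hθ', smul_smul, mul_inv_cancel₀ hn.ne', one_smul]
      -- the scaled seminorm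
      let t : ℝ := W / c
      have ht : 0 < t := div_pos hW hc
      let t' : NNReal := ⟨t, ht.le⟩
      let P' : Seminorm ℝ (E m) := t' • P
      have hP' : ∀ x, P' x = t * P x := fun x => rfl
      have hP'c : ∀ x, P' x ≤ W * ‖x‖ := by
        intro x
        rw [hP']
        calc t * P x ≤ t * (c * ‖x‖) := mul_le_mul_of_nonneg_left (hP x) ht.le
          _ = W * ‖x‖ := by
            simp only [t]
            field_simp
      have hmo := hmom P' W hW.le hP'c θ' hn'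
      have hint : ∫ g, P' g ∂(γ m) = t * ∫ g, P g ∂(γ m) := by
        simp_rw [hP']
        rw [integral_const_mul]
      rw [hint] at hmo
      have hPm : Measurable fun x : E m => P x := (seminorm_continuous P).measurable
      have hmeas : Measurable fun ω => ENNReal.ofReal (Real.exp (√(m / 3) * P' (R ω θ'))) := by
        simp_rw [hP']
        have : Measurable fun ω => P (R ω θ') := hPm.comp (hR θ')
        fun_prop
      -- Markov
      let a : ℝ := Real.exp (t * (∫ g, P g ∂(γ m) + 2 * c * W))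
      have ha : 0 < a := Real.exp_pos _
      have hsub : {ω | ρ * √(3 / m) * (∫ g, P g ∂(γ m) + 2 * c * W) < P (R ω θ)}
          ⊆ {ω | ENNReal.ofReal a ≤ ENNReal.ofReal (Real.exp (√(m / 3) * P' (R ω θ')))} := by
        intro ω hω
        simp only [mem_ofPred_eq] at hω ⊢
        refine ENNReal.ofReal_le_ofReal (Real.exp_le_exp.2 ?_)
        have h1 : P (R ω θ) = ‖θ‖ * P (R ω θ') := by
          conv_lhs => rw [hθe]
          rw [map_smul, map_smul_eq_mul, Real.norm_of_nonneg (norm_nonneg θ)]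
        have h2 : P (R ω θ) ≤ ρ * P (R ω θ') := by
          rw [h1]
          exact mul_le_mul_of_nonneg_right (hΘ θ hθ) (apply_nonneg P _)
        have h3 : ρ * (√(3 / m) * (∫ g, P g ∂(γ m) + 2 * c * W)) < ρ * P (R ω θ') := by
          rw [← mul_assoc]
          exact hω.trans_le h2
        have h4 : √(3 / m) * (∫ g, P g ∂(γ m) + 2 * c * W) < P (R ω θ') :=
          lt_of_mul_lt_mul_left h3 hρ.le
        have h5 : √(m / 3) * (√(3 / m) * (∫ g, P g ∂(γ m) + 2 * c * W)) ≤ √(m / 3) * P (R ω θ') :=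
          mul_le_mul_of_nonneg_left h4.le hs1.le
        rw [← mul_assoc, hs, one_mul] at h5
        rw [hP']
        calc t * (∫ g, P g ∂(γ m) + 2 * c * W) ≤ t * (√(m / 3) * P (R ω θ')) :=
              mul_le_mul_of_nonneg_left h5 ht.le
          _ = √(m / 3) * (t * P (R ω θ')) := by ring
      have hmk := mul_meas_ge_le_lintegral (μ := μ) hmeas (ENNReal.ofReal a)
      have hane : ENNReal.ofReal a ≠ 0 := by
        rw [Ne, ENNReal.ofReal_eq_zero, not_le]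
        exact ha
      calc μ {ω | ρ * √(3 / m) * (∫ g, P g ∂(γ m) + 2 * c * W) < P (R ω θ)}
          ≤ μ {ω | ENNReal.ofReal a ≤ ENNReal.ofReal (Real.exp (√(m / 3) * P' (R ω θ')))} :=
            measure_mono hsub
        _ ≤ ENNReal.ofReal (Real.exp (t * (∫ g, P g ∂(γ m)) + W ^ 2)) / ENNReal.ofReal a := by
            rw [ENNReal.le_div_iff_mul_le (Or.inl hane) (Or.inl ENNReal.ofReal_ne_top), mul_comm]
            exact hmk.trans hmo
        _ = ENNReal.ofReal (Real.exp (-(W ^ 2))) := by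
            rw [← ENNReal.ofReal_div_of_pos ha]
            congr 1
            simp only [a]
            rw [← Real.exp_sub]
            congr 1
            have : t * (2 * c * W) = 2 * W ^ 2 := by
              simp only [t]
              field_simp
            rw [mul_add, this]
            ring
  -- union bound
  have hset : {ω | ∃ θ ∈ Θ, ρ * √(3 / m) * (∫ g, P g ∂(γ m) + 2 * c * W) < P (R ω θ)}
      = ⋃ θ ∈ Θ, {ω | ρ * √(3 / m) * (∫ g, P g ∂(γ m) + 2 * c * W) < P (R ω θ)} := by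
    ext ω
    simp
  rw [hset]
  calc μ (⋃ θ ∈ Θ, {ω | ρ * √(3 / m) * (∫ g, P g ∂(γ m) + 2 * c * W) < P (R ω θ)})
      ≤ ∑ θ ∈ Θ, μ {ω | ρ * √(3 / m) * (∫ g, P g ∂(γ m) + 2 * c * W) < P (R ω θ)} :=
        measure_biUnion_finset_le _ _
    _ ≤ ∑ θ ∈ Θ, ENNReal.ofReal (Real.exp (-(W ^ 2))) := Finset.sum_le_sum hone
    _ = ENNReal.ofReal ((Θ.card : ℝ) * Real.exp (-(W ^ 2))) := by
        rw [Finset.sum_const, nsmul_eq_mul, ENNReal.ofReal_mul (Nat.cast_nonneg _),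
          ENNReal.ofReal_natCast]
    _ ≤ ENNReal.ofReal (1 / 3) := by
        refine ENNReal.ofReal_le_ofReal ?_
        have h1 : Real.exp (W ^ 2) * Real.exp (-(W ^ 2)) = 1 := by
          rw [← Real.exp_add, add_neg_cancel, Real.exp_zero]
        have h2 := Real.exp_pos (-(W ^ 2))
        nlinarith [mul_le_mul_of_nonneg_right hcard h2.le]

/-- two seminorms. -/
theorem exists_rotation (m : ℕ) (hm : 1 ≤ m) (P Q : Seminorm ℝ (E m)) (LP LQ : ℝ)
    (hLP : 0 < LP) (hLQ : 0 < LQ) (hP : ∀ x, P x ≤ LP * ‖x‖) (hQ : ∀ x, Q x ≤ LQ * ‖x‖)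
    (Θ₁ Θ₂ : Finset (E m)) (ρ₁ ρ₂ : ℝ) (h1 : ∀ θ ∈ Θ₁, ‖θ‖ ≤ ρ₁) (h2 : ∀ θ ∈ Θ₂, ‖θ‖ ≤ ρ₂)
    (W₁ W₂ : ℝ) (hW₁ : 0 < W₁) (hW₂ : 0 < W₂)
    (hc1 : 3 * (Θ₁.card : ℝ) ≤ Real.exp (W₁ ^ 2)) (hc2 : 3 * (Θ₂.card : ℝ) ≤ Real.exp (W₂ ^ 2)) :
    ∃ R : E m ≃ₗᵢ[ℝ] E m,
      (∀ θ ∈ Θ₁, P (R θ) ≤ ρ₁ * √(3 / m) * (∫ g, P g ∂(γ m) + 2 * LP * W₁)) ∧
      (∀ θ ∈ Θ₂, Q (R θ) ≤ ρ₂ * √(3 / m) * (∫ g, Q g ∂(γ m) + 2 * LQ * W₂)) := by
  obtain ⟨Ω, hΩ, μ, hμ, R, hR, hav⟩ := haar_avg m hm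
  have hmom := fun (P : Seminorm ℝ (E m)) (c : ℝ) (hc : 0 ≤ c) (hP : ∀ x, P x ≤ c * ‖x‖)
    (θ : E m) (hθ : ‖θ‖ = 1) => rot_moment m hm μ R hR hav P c hc hP θ hθ
  have b1 := rot_union m hm μ R hR hmom P LP hLP hP Θ₁ ρ₁ h1 W₁ hW₁ hc1
  have b2 := rot_union m hm μ R hR hmom Q LQ hLQ hQ Θ₂ ρ₂ h2 W₂ hW₂ hc2
  by_contra hcon
  have hcover : (univ : Set Ω) ⊆
      {ω | ∃ θ ∈ Θ₁, ρ₁ * √(3 / m) * (∫ g, P g ∂(γ m) + 2 * LP * W₁) < P (R ω θ)} ∪
      {ω | ∃ θ ∈ Θ₂, ρ₂ * √(3 / m) * (∫ g, Q g ∂(γ m) + 2 * LQ * W₂) < Q (R ω θ)} := by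
    intro ω _
    by_contra hω
    rw [mem_union, not_or] at hω
    simp only [mem_ofPred_eq, not_exists, not_and, not_lt] at hω
    exact hcon ⟨R ω, hω.1, hω.2⟩
  have h3 : (1 : ℝ≥0∞) ≤ ENNReal.ofReal (1 / 3) + ENNReal.ofReal (1 / 3) := by
    calc (1 : ℝ≥0∞) = μ univ := measure_univ.symm
      _ ≤ _ := measure_mono hcover
      _ ≤ _ := measure_union_le _ _
      _ ≤ _ := add_le_add b1 b2
  rw [← ENNReal.ofReal_add (by norm_num) (by norm_num), ← ENNReal.ofReal_one,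
    ENNReal.ofReal_le_ofReal_iff (by norm_num)] at h3
  norm_num at h3

end D7u
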