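import Pool.Agent.H.MP_d7d3dc_an.h17.Position
import Pool.Agent.H.MP_d7d3dc_an.h17.Group
import Pool.Agent.H.MP_d7d3dc_an.h17.ContrG
import Pool.Agent.H.MP_d7d3dc_an.h17.GrpB

/-!
MP_d7d3dc_an, upper bound for `D_m`: the biorthogonal system.
-/

set_option autoImplicit false

namespace D7u

open D546neg MeasureTheory ProbabilityTheory Set
open scoped RealInnerProductSpace BigOperators

private lemma system_sqrt (n L : ℕ) (hL : L = Nat.clog 2 n + 1) : √(n : ℝ) ≤ 4 ^ L := by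
  have h1 : n ≤ 2 ^ Nat.clog 2 n := Nat.le_pow_clog (by norm_num) n
  have h2 : (n : ℝ) ≤ 2 ^ Nat.clog 2 n := by exact_mod_cast h1
  refine Real.sqrt_le_iff.2 ⟨by positivity, ?_⟩
  calc (n : ℝ) ≤ 2 ^ Nat.clog 2 n := h2
    _ ≤ 2 ^ (4 * L) := pow_le_pow_right₀ (by norm_num) (by omega)
    _ = (4 ^ L) ^ 2 := by
      rw [← pow_mul, show (4 : ℝ) = 2 ^ 2 by norm_num, ← pow_mul]
      congr 1
      ring

private lemma system_ortho {n : ℕ} (e : OrthonormalBasis (Fin n) ℝ (E n)) {S T : Set (Fin n)}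
    (hST : Disjoint S T) {u v : E n} (hu : u ∈ Submodule.span ℝ (e '' S))
    (hv : v ∈ Submodule.span ℝ (e '' T)) : ⟪u, v⟫ = 0 := by
  have h : Submodule.span ℝ (e '' S) ⟂ Submodule.span ℝ (e '' T) := by
    rw [Submodule.isOrtho_span]
    rintro _ ⟨i, hi, rfl⟩ _ ⟨j, hj, rfl⟩
    exact e.inner_eq_zero (hST.ne_of_mem hi hj)
  exact Submodule.isOrtho_iff_inner_eq.1 h u hu v hv

private lemma system_max {ι : Type*} [Fintype ι] (f : ι → ℝ) :
    ‖f‖ ≤ 0 ∨ ∃ i, ‖f‖ ≤ |f i| := by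
  rcases isEmpty_or_nonempty ι with h | h
  · left
    rw [Subsingleton.elim f 0, norm_zero]
  · right
    obtain ⟨i, hi⟩ := Finite.exists_max fun i => |f i|
    refine ⟨i, ?_⟩
    rw [pi_norm_le_iff_of_nonneg (abs_nonneg _)]
    intro j
    rw [Real.norm_eq_abs]
    exact hi j

theorem exists_system (n : ℕ) (hn : 1 ≤ n) (N : Seminorm ℝ (E n)) (h1 : ∀ x, ‖x‖ ≤ N x)
    (h2 : ∀ x, N x ≤ √n * ‖x‖) (L J : ℕ) (hL : L = Nat.clog 2 n + 1)
    (hJ : L * Real.logb 2 (4 * (n : ℝ) ^ 2 / (1 / (2 * √n))) ≤ J) :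
    ∃ (x y : Fin n → E n) (β : Fin n → Fin n) (A : Fin n → ℝ),
      (∀ i j, ⟪x i, y j⟫ = if i = j then (1 : ℝ) else 0) ∧ (∀ b, 0 < A b) ∧
      (∀ (b : Fin n) (ε : Fin n → ℝ), (∀ i, ε i = 1 ∨ ε i = -1) →
        N (∑ i ∈ Finset.univ.filter (fun i => β i = b), ε i • x i) ≤ A b) ∧
      ∀ z, ∑ b, A b * ‖(fun i => ⟪z, y i⟫ : {i : Fin n // β i = b} → ℝ)‖
        ≤ (J + 1) * (51 * √n * ((J + 1 : ℝ) + 12 * √(Real.log (6 * n))) *
          (6 * (L : ℝ) ^ 2 + √(Real.log (6 * n))) * (1 + √(Real.log (6 * n)))) * N z := by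
  classical
  have hn1 : (1 : ℝ) ≤ n := by exact_mod_cast hn
  have hL1 : 1 ≤ L := by omega
  have hL1' : (1 : ℝ) ≤ L := by exact_mod_cast hL1
  obtain ⟨a, ha⟩ : ∃ a : ℝ, a = 1 / (2 * √n) := ⟨_, rfl⟩
  obtain ⟨b, hb⟩ : ∃ b : ℝ, b = 4 * (n : ℝ) ^ 2 := ⟨_, rfl⟩
  rw [← ha, ← hb] at hJ
  have hsq : 0 < √(n : ℝ) := Real.sqrt_pos.2 (by linarith)
  have ha0 : 0 < a := by rw [ha]; positivity
  have hN : Definite N := ⟨1, one_pos, fun x => by simpa using h1 x⟩
  obtain ⟨e, s, hs, hell, hdual⟩ := position n hn L hL1 (system_sqrt n L hL) N h1 h2 a b ha hb J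
    (fun j => hat L a j) (fun j => hat_continuousOn L a b ha0 j)
    (fun j t _ => hat_nonneg L a j t) (fun t ht => hat_sum L a b ha0 hJ t ht)
  have hspos : ∀ i, 0 < s i := fun i => ha0.trans_le (hs i).1
  obtain ⟨t, ht1, ht2⟩ := exists_groups n hn L hL a b ha0 J hJ s hs
  set G : Fin (J + 1) → Finset (Fin n) := fun τ => Finset.univ.filter (fun i => t i = τ) with hG
  have hmem : ∀ i τ, i ∈ G τ ↔ t i = τ := by
    intro i τ
    rw [hG]
    simp
  set bd : ℝ := 51 * √n * ((J + 1 : ℝ) + 12 * √(Real.log (6 * n))) *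
          (6 * (L : ℝ) ^ 2 + √(Real.log (6 * n))) * (1 + √(Real.log (6 * n))) with hbd
  have hbd0 : 0 ≤ bd := by rw [hbd]; positivity
  have hgrp : ∀ τ, (G τ).Nonempty → ∃ (x y : Fin n → E n) (β : Fin n → Fin n) (A B : ℝ),
      0 < A ∧ 0 ≤ B ∧
      (∀ i ∈ G τ, β i ∈ G τ) ∧
      (∀ i ∈ G τ, x i ∈ Submodule.span ℝ (e '' (G τ))) ∧
      (∀ i ∈ G τ, y i ∈ Submodule.span ℝ (e '' (G τ))) ∧
      (∀ i ∈ G τ, ∀ j ∈ G τ, ⟪x i, y j⟫ = if i = j then (1 : ℝ) else 0) ∧
      (∀ b ∈ G τ, ∀ ε : Fin n → ℝ, (∀ i, ε i = 1 ∨ ε i = -1) →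
        N (∑ i ∈ (G τ).filter (fun i => β i = b), ε i • x i) ≤ A) ∧
      (∀ (z : E n) (M : Fin n → ℝ),
        (∀ b ∈ G τ, M b ≤ 0 ∨ ∃ i ∈ G τ, β i = b ∧ M b ≤ |⟪z, y i⟫|) →
          ∑ b ∈ G τ, M b ≤ B * N z) ∧
      A * B ≤ bd := by
    intro τ hτ
    obtain ⟨i0, hi0, hmin⟩ := (G τ).exists_min_image s hτ
    have hcard : (0 : ℝ) < ((G τ).card : ℝ) := by exact_mod_cast hτ.card_pos
    have hw0 : 0 < √(n / (6 * ((G τ).card : ℝ))) / 2 := by
      have : 0 < √(n / (6 * ((G τ).card : ℝ))) := Real.sqrt_pos.2 (by positivity)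
      linarith
    refine group_basis n N h1 h2 e s (G τ) hτ (s i0) (hspos i0)
      (fun i hi => ⟨hmin i hi, ht1 i i0 (((hmem i τ).1 hi).trans ((hmem i0 τ).1 hi0).symm)⟩)
      (J + 1) (6 * (L : ℝ) ^ 2) (by linarith [(Nat.cast_nonneg J : (0 : ℝ) ≤ J)]) (by positivity)
      ((group_ell n N e s (G τ)).trans hell) ?_
    refine (group_dual n N hN e s (om n (fun j : Fin (J + 1) => hat L a j) s) hspos (G τ) _ hw0
      (fun i hi => ?_)).trans ?_
    · have h3 := ht2 i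
      have h4 : Finset.univ.filter (fun k => t k = t i) = G τ := by
        rw [(hmem i τ).1 hi]
      rw [h4] at h3
      exact h3
    · have h5 : (√(n / (6 * ((G τ).card : ℝ))) / 2)⁻¹ = 2 * √(6 * ((G τ).card : ℝ) / n) := by
        rw [inv_div, div_eq_mul_inv, ← Real.sqrt_inv, inv_div]
      rw [h5]
      calc 2 * √(6 * ((G τ).card : ℝ) / n) *
            ∫ g, dualN N (dg e (fun i => om n (fun j : Fin (J + 1) => hat L a j) s i / s i) g) ∂(γ n)
          ≤ 2 * √(6 * ((G τ).card : ℝ) / n) * (6 * (L : ℝ) ^ 2) :=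
            mul_le_mul_of_nonneg_left hdual (by positivity)
        _ = 2 * (6 * (L : ℝ) ^ 2) * √(6 * ((G τ).card : ℝ) / n) := by ring
  choose x y β A B hA hB hβ hx hy hxy hblk hsel hAB using hgrp
  have hne : ∀ i, (G (t i)).Nonempty := fun i => ⟨i, (hmem i _).2 rfl⟩
  have hmi : ∀ i, i ∈ G (t i) := fun i => (hmem i _).2 rfl
  have cx : ∀ i τ (h : (G τ).Nonempty), t i = τ → x (t i) (hne i) i = x τ h i := by
    rintro i τ h rfl; rfl
  have cy : ∀ i τ (h : (G τ).Nonempty), t i = τ → y (t i) (hne i) i = y τ h i := by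
    rintro i τ h rfl; rfl
  have cβ : ∀ i τ (h : (G τ).Nonempty), t i = τ → β (t i) (hne i) i = β τ h i := by
    rintro i τ h rfl; rfl
  have cA : ∀ i τ (h : (G τ).Nonempty), t i = τ → A (t i) (hne i) = A τ h := by
    rintro i τ h rfl; rfl
  have htβ : ∀ i, t (β (t i) (hne i) i) = t i := fun i =>
    (hmem _ _).1 (hβ (t i) (hne i) i (hmi i))
  refine ⟨fun i => x (t i) (hne i) i, fun i => y (t i) (hne i) i,
    fun i => β (t i) (hne i) i, fun b => A (t b) (hne b), ?_, fun b => hA _ _, ?_, ?_⟩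
  · intro i j
    show ⟪x (t i) (hne i) i, y (t j) (hne j) j⟫ = _
    by_cases hij : t j = t i
    · rw [cy j (t i) (hne i) hij]
      exact hxy (t i) (hne i) i (hmi i) j ((hmem j _).2 hij)
    · have hne' : i ≠ j := fun h => hij (by rw [h])
      rw [if_neg hne']
      refine system_ortho e ?_ (hx (t i) (hne i) i (hmi i)) (hy (t j) (hne j) j (hmi j))
      rw [Set.disjoint_left]
      intro k hk1 hk2
      have e1 := (hmem k _).1 hk1
      have e2 := (hmem k _).1 hk2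
      exact hij (e2.symm.trans e1)
  · intro b' ε hε
    have h3 : Finset.univ.filter (fun i => β (t i) (hne i) i = b')
        = (G (t b')).filter (fun i => β (t b') (hne b') i = b') := by
      ext i
      simp only [Finset.mem_filter, Finset.mem_univ, true_and]
      constructor
      · intro hi
        have h4 : t i = t b' := by rw [← hi, htβ]
        exact ⟨(hmem i _).2 h4, by rw [← cβ i (t b') (hne b') h4]; exact hi⟩
      · rintro ⟨hi1, hi2⟩
        rw [cβ i (t b') (hne b') ((hmem i _).1 hi1)]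
        exact hi2
    have h5 := hblk (t b') (hne b') b' (hmi b') ε hε
    rw [h3]
    refine le_trans (le_of_eq ?_) h5
    congr 1
    refine Finset.sum_congr rfl fun i hi => ?_
    show ε i • x (t i) (hne i) i = _
    rw [cx i (t b') (hne b') ((hmem i _).1 (Finset.mem_filter.1 hi).1)]
  · intro z
    have hNz : 0 ≤ N z := apply_nonneg N z
    set M : Fin n → ℝ := fun b' =>
      ‖(fun i => ⟪z, y (t i) (hne i) i⟫ : {i : Fin n // β (t i) (hne i) i = b'} → ℝ)‖ with hM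
    have h6 : ∀ τ, ∑ b' ∈ G τ, A (t b') (hne b') * M b' ≤ bd * N z := by
      intro τ
      rcases (G τ).eq_empty_or_nonempty with h | h
      · rw [h, Finset.sum_empty]
        positivity
      · have h7 : ∑ b' ∈ G τ, A (t b') (hne b') * M b' = A τ h * ∑ b' ∈ G τ, M b' := by
          rw [Finset.mul_sum]
          refine Finset.sum_congr rfl fun b' hb' => ?_
          rw [cA b' τ h ((hmem b' _).1 hb')]
        have h8 : ∑ b' ∈ G τ, M b' ≤ B τ h * N z := by
          refine hsel τ h z M fun b' hb' => ?_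
          rcases system_max (fun i => ⟪z, y (t i) (hne i) i⟫ :
            {i : Fin n // β (t i) (hne i) i = b'} → ℝ) with h9 | ⟨⟨i, hi⟩, h9⟩
          · exact Or.inl h9
          · right
            have h10 : t i = τ := by
              rw [← (hmem b' _).1 hb', ← hi, htβ]
            refine ⟨i, (hmem i _).2 h10, ?_, ?_⟩
            · rw [← cβ i τ h h10]; exact hi
            · rw [← cy i τ h h10]; exact h9
        rw [h7]
        calc A τ h * ∑ b' ∈ G τ, M b' ≤ A τ h * (B τ h * N z) :=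
              mul_le_mul_of_nonneg_left h8 (hA τ h).le
          _ = A τ h * B τ h * N z := by ring
          _ ≤ bd * N z := mul_le_mul_of_nonneg_right (hAB τ h) hNz
    calc ∑ b', A (t b') (hne b') * M b' = ∑ τ, ∑ b' ∈ G τ, A (t b') (hne b') * M b' := by
          rw [hG]
          exact (Finset.sum_fiberwise _ _ _).symm
      _ ≤ ∑ _τ : Fin (J + 1), bd * N z := Finset.sum_le_sum fun τ _ => h6 τ
      _ = (J + 1) * bd * N z := by
          rw [Finset.sum_const, Finset.card_univ, Fintype.card_fin, nsmul_eq_mul]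
          push_cast
          ring

end D7u
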