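import Pool.Agent.H.MP_d7d3dc_an.h17.Br4

/-!
MP_d7d3dc_an, upper bound for `D_m`: a variational inequality.
-/

set_option autoImplicit false

namespace D7u

open Metric MeasureTheory Set

theorem exists_vi_sol {V : Type*} [NormedAddCommGroup V] [NormedSpace ℝ V]
    [FiniteDimensional ℝ V] (K : Set V) (hK : IsCompact K) (hc : Convex ℝ K) (hne : K.Nonempty)
    (φ : V → ℝ) (hφ : Continuous φ) (hφc : ConvexOn ℝ univ φ)
    (F : V → (V →L[ℝ] ℝ)) (hF : ContinuousOn F K) :
    ∃ T ∈ K, ∀ T' ∈ K, F T (T' - T) ≤ φ T' - φ T := by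
  classical
  by_contra hcon
  push Not at hcon
  set G : V → V → ℝ := fun T T' => F T (T' - T) - (φ T' - φ T) with hG
  have hGc : ∀ T', ContinuousOn (fun T => G T T') K := by
    intro T'
    refine ContinuousOn.sub ?_ ?_
    · exact hF.clm_apply (continuousOn_const.sub continuousOn_id)
    · exact continuousOn_const.sub hφ.continuousOn
  -- finite cover
  have hcov : ∃ S : Finset V, (∀ T' ∈ S, T' ∈ K) ∧ ∀ T ∈ K, ∃ T' ∈ S, 0 < G T T' := by
    have h1 : ∀ T' : V, ∃ u : Set V, IsOpen u ∧ {T | 0 < G T T'} ∩ K = u ∩ K := by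
      intro T'
      obtain ⟨u, hu, hu2⟩ := (_root_.continuousOn_iff'.1 (hGc T')) (Ioi 0) isOpen_Ioi
      exact ⟨u, hu, hu2⟩
    choose u hu hu2 using h1
    obtain ⟨S, hS1, hS2⟩ := hK.elim_finite_subcover_image (b := K) (c := u) (fun T' _ => hu T') (by
      intro T hT
      obtain ⟨T', hT', h3⟩ := hcon T hT
      refine mem_biUnion hT' ?_
      have : T ∈ {T | 0 < G T T'} ∩ K := ⟨by show 0 < G T T'; simp only [hG]; linarith, hT⟩
      rw [hu2] at this
      exact this.1)
    refine ⟨hS2.1.toFinset, ?_, ?_⟩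
    · intro T' hT'
      exact hS1 (hS2.1.mem_toFinset.1 hT')
    · intro T hT
      obtain ⟨T', hT', h3⟩ := mem_iUnion₂.1 (hS2.2 hT)
      refine ⟨T', hS2.1.mem_toFinset.2 hT', ?_⟩
      have : T ∈ u T' ∩ K := ⟨h3, hT⟩
      rw [← hu2] at this
      exact this.1
  obtain ⟨S, hSK, hS⟩ := hcov
  set w : V → V → ℝ := fun T T' => max 0 (G T T') with hw
  have hw0 : ∀ T T', 0 ≤ w T T' := fun T T' => le_max_left _ _
  have hwc : ∀ T', ContinuousOn (fun T => w T T') K := fun T' =>
    ContinuousOn.sup continuousOn_const (hGc T')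
  have hpos : ∀ T ∈ K, 0 < ∑ T' ∈ S, w T T' := by
    intro T hT
    obtain ⟨T', hT', h3⟩ := hS T hT
    exact Finset.sum_pos' (fun i _ => hw0 T i) ⟨T', hT', lt_max_of_lt_right h3⟩
  set p : V → V := fun T => (∑ T' ∈ S, w T T')⁻¹ • ∑ T' ∈ S, w T T' • T' with hp
  have hpe : ∀ T, p T = ∑ T' ∈ S, ((∑ T' ∈ S, w T T')⁻¹ * w T T') • T' := by
    intro T
    rw [hp]
    simp only [Finset.smul_sum, smul_smul]
  obtain ⟨T, hT, hfix⟩ := brouwer_convex K hK hc hne p
    (by
      refine ContinuousOn.smul ?_ ?_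
      · refine ContinuousOn.inv₀ (continuousOn_finsetSum _ fun T' _ => hwc T') ?_
        intro T hT
        exact (hpos T hT).ne'
      · exact continuousOn_finsetSum _ fun T' _ => (hwc T').smul continuousOn_const)
    (by
      intro T hT
      rw [hpe]
      refine hc.sum_mem (fun T' _ => mul_nonneg (inv_nonneg.2 (hpos T hT).le) (hw0 T T')) ?_
        fun T' hT' => hSK T' hT'
      rw [← Finset.mul_sum, inv_mul_cancel₀ (hpos T hT).ne'])
  set lam : V → ℝ := fun T' => (∑ T' ∈ S, w T T')⁻¹ * w T T' with hlam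
  have hs0 := hpos T hT
  have hlam0 : ∀ T', 0 ≤ lam T' := fun T' => mul_nonneg (inv_nonneg.2 hs0.le) (hw0 T T')
  have hlam1 : ∑ T' ∈ S, lam T' = 1 := by
    rw [hlam]
    simp only
    rw [← Finset.mul_sum, inv_mul_cancel₀ hs0.ne']
  have hTsum : ∑ T' ∈ S, lam T' • T' = T := by
    rw [← hpe]
    exact hfix
  -- positivity of the weighted sum
  have h4 : 0 < ∑ T' ∈ S, lam T' * G T T' := by
    have h5 : ∀ T' ∈ S, 0 ≤ lam T' * G T T' := by
      intro T' _
      rcases le_or_gt (G T T') 0 with h | h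
      · have : lam T' = 0 := by
          rw [hlam]
          simp only [hw, max_eq_left h, mul_zero]
        rw [this, zero_mul]
      · exact mul_nonneg (hlam0 T') h.le
    obtain ⟨T', hT', h6⟩ := hS T hT
    refine Finset.sum_pos' h5 ⟨T', hT', mul_pos (mul_pos (inv_pos.2 hs0) ?_) h6⟩
    exact lt_max_of_lt_right h6
  have h7 : ∑ T' ∈ S, lam T' * G T T' = F T (∑ T' ∈ S, lam T' • T' - T)
      - (∑ T' ∈ S, lam T' * φ T' - φ T) := by
    have e1 : F T (∑ T' ∈ S, lam T' • T' - T) = ∑ T' ∈ S, lam T' * F T (T' - T) := by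
      rw [map_sub, map_sum]
      simp only [map_smul, smul_eq_mul, map_sub, mul_sub, Finset.sum_sub_distrib]
      rw [← Finset.sum_mul, hlam1, one_mul]
    have e2 : ∑ T' ∈ S, lam T' * φ T' - φ T = ∑ T' ∈ S, lam T' * (φ T' - φ T) := by
      simp only [mul_sub, Finset.sum_sub_distrib]
      rw [← Finset.sum_mul, hlam1, one_mul]
    rw [e1, e2, ← Finset.sum_sub_distrib]
    refine Finset.sum_congr rfl fun T' _ => ?_
    rw [hG]
    ring
  have h8 := hφc.map_sum_le (t := S) (w := lam) (p := fun T' => T')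
    (fun T' _ => hlam0 T') hlam1 (fun T' _ => mem_univ _)
  simp only [smul_eq_mul] at h8
  rw [hTsum] at h8 h7
  rw [sub_self, map_zero] at h7
  linarith

end D7u
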